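import Mathlib

/-!
Definitions and piece statements for the characterisation of the Borel sets `Ω ⊆ ℂ` for which
`|∫_Ω ∂f/∂z̄ dA| ≤ C ‖f‖_{Lip α}` for all test functions (problem MP_d3add2_an).
-/

open MeasureTheory Complex Filter Topology
open scoped ContDiff ENNReal NNReal

namespace Pool.Agent.R263.DB

noncomputable section

/-- `∂f/∂z̄ = (∂_x f + i ∂_y f)/2`. -/
def dbar (f : ℂ → ℂ) (z : ℂ) : ℂ := (1 / 2 : ℂ) * (fderiv ℝ f z 1 + I * fderiv ℝ f z I)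

/-- `Δ_h f(z) = f(z+h) - f(z)`; `Δ_h^k f` is `(diffOp h)^[k] f`. -/
def diffOp (h : ℂ) (f : ℂ → ℂ) : ℂ → ℂ := fun z => f (z + h) - f z

/-- Test functions `C_c^∞(ℂ)` (complex valued). -/
def IsTest (f : ℂ → ℂ) : Prop := ContDiff ℝ ∞ f ∧ HasCompactSupport f

/-- real valued -/
def RealV (f : ℂ → ℂ) : Prop := ∀ z, (f z).im = 0

/-- `sup |f| ≤ a` and `|Δ_h^k f| ≤ b |h|^α`. -/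
def LipBd (α : ℝ) (k : ℕ) (f : ℂ → ℂ) (a b : ℝ) : Prop :=
  (∀ z, ‖f z‖ ≤ a) ∧ ∀ h z, ‖(diffOp h)^[k] f z‖ ≤ b * ‖h‖ ^ α

/-- internal form of `α`-admissibility (with `k`-th differences) -/
def Adm (α : ℝ) (k : ℕ) (Ω : Set ℂ) : Prop :=
  ∃ C : ℝ, 0 ≤ C ∧ ∀ (f : ℂ → ℂ) (a b : ℝ), IsTest f → LipBd α k f a b →
    ‖∫ z in Ω, dbar f z‖ ≤ C * (a + b)

/-- `ρ_j(z) = 2^{2j} ρ(2^j z)` -/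
def dil (j : ℕ) (ρ : ℂ → ℂ) : ℂ → ℂ := fun z => (4 : ℂ) ^ j * ρ ((2 : ℂ) ^ j * z)

/-- `(χ_Ω * ∂̄ρ)(z)` -/
def blk (Ω : Set ℂ) (ρ : ℂ → ℂ) (z : ℂ) : ℂ := ∫ w in Ω, dbar ρ (z - w)

/-- `‖χ_Ω * ∂̄ρ_j‖_{L¹}` -/
def lpN (Ω : Set ℂ) (ρ : ℂ → ℂ) (j : ℕ) : ℝ≥0∞ := ∫⁻ z, ‖blk Ω (dil j ρ) z‖ₑ

/-- `∑_j 2^{-jα} ‖χ_Ω * ∂̄ρ_j‖_{L¹}` -/
def lpSum (α : ℝ) (Ω : Set ℂ) (ρ : ℂ → ℂ) : ℝ≥0∞ :=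
  ∑' j : ℕ, ENNReal.ofReal ((2 : ℝ) ^ (-(α * (j : ℝ)))) * lpN Ω ρ j

/-- indicator function, real valued -/
def chi (Ω : Set ℂ) (z : ℂ) : ℝ := Ω.indicator (fun _ => (1 : ℝ)) z

/-- `D(h) = ‖χ - χ(· - h)‖_{L¹}` -/
def shiftN (Ω : Set ℂ) (h : ℂ) : ℝ≥0∞ := ∫⁻ z, ‖chi Ω z - chi Ω (z - h)‖ₑ

/-- `∫_s |h|^{α-3} D(h) dA(h)` -/
def shiftEnergy (α : ℝ) (Ω s : Set ℂ) : ℝ≥0∞ :=
  ∫⁻ h in s, ENNReal.ofReal (‖h‖ ^ (α - 3)) * shiftN Ω h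

/-- the fractional perimeter of order `1-α` -/
def fracPer (α : ℝ) (Ω : Set ℂ) : ℝ≥0∞ :=
  ∫⁻ z in Ω, ∫⁻ w in Ωᶜ, ENNReal.ofReal (‖z - w‖ ^ (α - 3))

/-- `(corr ρ g)(z) = ∫ ρ(w - z) g(w) dA(w)` -/
def corr (ρ g : ℂ → ℂ) (z : ℂ) : ℂ := ∫ w, ρ (w - z) * g w

/-- `f - corr φ f` -/
def Aop (φ f : ℂ → ℂ) : ℂ → ℂ := fun z => f z - corr φ f z

/-- `(χ_Ω * ψ)(z)` -/
def smo (Ω : Set ℂ) (ψ : ℂ → ℂ) (z : ℂ) : ℂ := ∫ w in Ω, ψ (z - w)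

/-! ### Convolution lemma -/

/-- Piece C1. -/
def StmtC1 : Prop :=
  ∀ (ρ g : ℂ → ℂ) (B : ℝ), IsTest ρ → Measurable g → HasCompactSupport g → (∀ z, ‖g z‖ ≤ B) →
    IsTest (corr ρ g) ∧ (∀ z, ‖corr ρ g z‖ ≤ B * ∫ w, ‖ρ w‖) ∧
    (∀ Ω : Set ℂ, MeasurableSet Ω → ∫ z in Ω, dbar (corr ρ g) z = - ∫ w, g w * blk Ω ρ w) ∧
    (∀ (h : ℂ) (k : ℕ) (z : ℂ), ‖(diffOp h)^[k] (corr ρ g) z‖ ≤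
      B * ∫ w, ‖(diffOp (-h))^[k] ρ w‖) ∧
    (∀ z, dbar (corr ρ g) z = - corr (dbar ρ) g z)

/-- Piece C2: `corr` with a test function on test functions: commutation. -/
def StmtC2 : Prop :=
  ∀ (φ ψ f : ℂ → ℂ), IsTest φ → IsTest ψ → IsTest f →
    corr φ (corr ψ f) = corr ψ (corr φ f) ∧
    (∀ z, corr φ f z = ∫ a, φ a * f (z + a)) ∧
    (∀ z, dbar (corr φ f) z = corr φ (dbar f) z) ∧ IsTest (dbar f)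

/-! ### Necessity -/

/-- Piece N1. -/
def StmtN1 : Prop :=
  ∀ (ρ : ℂ → ℂ) (k : ℕ), IsTest ρ → ∃ C : ℝ, 0 ≤ C ∧ ∀ (j : ℕ) (h : ℂ),
    ∫ z, ‖(diffOp h)^[k] (dil j ρ) z‖ ≤ C * min 1 (((2 : ℝ) ^ j * ‖h‖) ^ k)

/-- Piece N2. -/
def StmtN2 : Prop :=
  ∀ (α : ℝ) (k : ℕ), 0 < α → α < k → ∃ C : ℝ, 0 ≤ C ∧ ∀ (J : ℕ) (t : ℝ), 0 ≤ t →
    ∑ j ∈ Finset.range J, (2 : ℝ) ^ (-(α * (j : ℝ))) * min 1 (((2 : ℝ) ^ j * t) ^ k) ≤ C * t ^ α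

/-- Piece N (the necessity of the Littlewood–Paley condition, for every test function `ρ`). -/
def StmtN : Prop :=
  ∀ (α : ℝ) (k : ℕ) (Ω : Set ℂ) (ρ : ℂ → ℂ), 0 < α → α < k → MeasurableSet Ω → IsTest ρ →
    Adm α k Ω → lpSum α Ω ρ ≠ ⊤

/-! ### Sufficiency -/

/-- Piece S1 (Kemperman): mixed differences are controlled by pure ones. -/
def StmtS1 : Prop :=
  ∀ (α : ℝ) (k : ℕ), 0 < α → ∃ C : ℝ, 0 ≤ C ∧ ∀ (f : ℂ → ℂ) (b r : ℝ), 0 ≤ b → 0 ≤ r →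
    (∀ h z, ‖(diffOp h)^[k] f z‖ ≤ b * ‖h‖ ^ α) →
    ∀ u : List ℂ, u.length = k → (∀ x ∈ u, ‖x‖ ≤ r) →
    ∀ z, ‖(u.foldr diffOp f) z‖ ≤ C * b * r ^ α

/-- Piece S2. -/
def StmtS2 : Prop :=
  ∀ (α : ℝ) (k : ℕ) (φ : ℂ → ℂ), 0 < α → IsTest φ → ∫ z, φ z = 1 → ∃ C : ℝ, 0 ≤ C ∧
    ∀ (f : ℂ → ℂ) (b : ℝ), 0 ≤ b → IsTest f → (∀ h z, ‖(diffOp h)^[k] f z‖ ≤ b * ‖h‖ ^ α) →
    ∀ (l i : ℕ), i ≤ k → ∀ z,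
      ‖(Aop (dil l φ))^[i] ((Aop (dil (l + 1) φ))^[k - i] f) z‖ ≤
        C * b * (2 : ℝ) ^ (-(α * (l : ℝ)))

/-- Piece Rem. -/
def StmtRem : Prop :=
  ∀ (φ f : ℂ → ℂ) (M : ℕ) (Ω : Set ℂ), IsTest φ → ∫ z, φ z = 1 → IsTest f → 1 ≤ M →
    MeasurableSet Ω →
    Tendsto (fun L : ℕ => ∫ z in Ω, dbar ((Aop (dil L φ))^[M] f) z) atTop (𝓝 0)

/-- Piece S (sufficiency, for a single mollifier). -/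
def StmtS : Prop :=
  ∀ (α : ℝ) (k : ℕ) (Ω : Set ℂ) (φ : ℂ → ℂ), 0 < α → α < k → MeasurableSet Ω → IsTest φ →
    ∫ z, φ z = 1 → lpSum α Ω φ ≠ ⊤ → Adm α k Ω

/-! ### The case `0 < α < 1` -/

/-- Piece AE. -/
def StmtAE : Prop :=
  ∀ (α : ℝ) (Ω : Set ℂ), MeasurableSet Ω → shiftEnergy α Ω Set.univ = 2 * fracPer α Ω

/-- Piece A1. -/
def StmtA1 : Prop :=
  ∀ (α : ℝ) (Ω : Set ℂ) (φ : ℂ → ℂ), 0 < α → α < 1 → MeasurableSet Ω → IsTest φ →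
    shiftEnergy α Ω Set.univ ≠ ⊤ → lpSum α Ω φ ≠ ⊤

/-- Piece B1. -/
def StmtB1 : Prop :=
  ∃ ψ a₁ a₂ : ℂ → ℂ, IsTest ψ ∧ IsTest a₁ ∧ IsTest a₂ ∧ RealV ψ ∧ RealV a₁ ∧ RealV a₂ ∧
    ∫ z, ψ z = 1 ∧ ∀ z, dil 1 ψ z - ψ z = fderiv ℝ a₁ z 1 + fderiv ℝ a₂ z I

/-- Piece B2. -/
def StmtB2 : Prop :=
  ∀ (ψ a₁ a₂ : ℂ → ℂ) (Ω : Set ℂ), IsTest ψ → IsTest a₁ → IsTest a₂ → RealV ψ → RealV a₁ →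
    RealV a₂ → ∫ z, ψ z = 1 →
    (∀ z, dil 1 ψ z - ψ z = fderiv ℝ a₁ z 1 + fderiv ℝ a₂ z I) → MeasurableSet Ω →
    ∀ J : ℕ, ∫⁻ z, ‖(chi Ω z : ℂ) - smo Ω (dil J ψ) z‖ₑ ≤
      ∑' i : ℕ, ENNReal.ofReal ((2 : ℝ) ^ (-((J + i : ℕ) : ℝ))) *
        (2 * lpN Ω a₁ (J + i) + 2 * lpN Ω a₂ (J + i))

/-- Piece B3. -/
def StmtB3 : Prop :=
  ∀ (ψ : ℂ → ℂ) (Ω : Set ℂ), IsTest ψ → RealV ψ → MeasurableSet Ω → ∀ (J : ℕ) (h : ℂ),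
    shiftN Ω h ≤ 2 * (∫⁻ z, ‖(chi Ω z : ℂ) - smo Ω (dil J ψ) z‖ₑ) +
      ENNReal.ofReal (2 * ‖h‖) * lpN Ω ψ J

/-- Piece B4 (pure summation). -/
def StmtB4 : Prop :=
  ∀ (α : ℝ) (D : ℂ → ℝ≥0∞) (c m : ℕ → ℝ≥0∞), 0 < α → α < 1 →
    ∑' j : ℕ, ENNReal.ofReal ((2 : ℝ) ^ (-(α * (j : ℝ)))) * c j ≠ ⊤ →
    ∑' j : ℕ, ENNReal.ofReal ((2 : ℝ) ^ (-(α * (j : ℝ)))) * m j ≠ ⊤ →
    (∀ (J : ℕ) (h : ℂ), D h ≤ 2 * (∑' i : ℕ, ENNReal.ofReal ((2 : ℝ) ^ (-((J + i : ℕ) : ℝ))) *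
      c (J + i)) + ENNReal.ofReal (2 * ‖h‖) * m J) →
    (∫⁻ h in Metric.closedBall (0 : ℂ) 1, ENNReal.ofReal (‖h‖ ^ (α - 3)) * D h ≠ ⊤) ∧
    ∃ C : ℝ, 0 ≤ C ∧ ∀ h, D h ≤ ENNReal.ofReal (C * (1 + ‖h‖))

/-- Piece B5: linear growth of `D` forces finite measure of `Ω` or its complement. -/
def StmtB5 : Prop :=
  ∀ (Ω : Set ℂ) (C : ℝ), MeasurableSet Ω → 0 ≤ C →
    (∀ h, shiftN Ω h ≤ ENNReal.ofReal (C * (1 + ‖h‖))) → volume Ω ≠ ⊤ ∨ volume Ωᶜ ≠ ⊤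

/-- Piece B6. -/
def StmtB6 : Prop :=
  ∀ (α : ℝ) (Ω : Set ℂ), 0 < α → α < 1 → MeasurableSet Ω →
    shiftEnergy α Ω (Metric.closedBall (0 : ℂ) 1) ≠ ⊤ → volume Ω ≠ ⊤ ∨ volume Ωᶜ ≠ ⊤ →
    shiftEnergy α Ω Set.univ ≠ ⊤

end

end Pool.Agent.R263.DB
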