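import Mathlib
import Pool.Agent.R263.DB.Defs

open MeasureTheory Complex Filter Topology
open scoped ContDiff ENNReal NNReal

namespace Pool.Agent.R263.DB

namespace A1

theorem chi_meas {Ω : Set ℂ} (hΩ : MeasurableSet Ω) : Measurable (chi Ω) := by
  unfold chi
  exact measurable_const.indicator hΩ

theorem chi_le (Ω : Set ℂ) (z : ℂ) : ‖chi Ω z‖ ≤ 1 := by
  unfold chi
  by_cases h : z ∈ Ω <;> simp [h]

/-- geometric sum up to `x` -/
theorem geo {β : ℝ} (hβ : 0 < β) (x : ℝ) (hx : 0 < x) :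
    ∑' j : ℕ, (if (2 : ℝ) ^ j ≤ x then ENNReal.ofReal (((2 : ℝ) ^ β) ^ j) else 0) ≤
      ENNReal.ofReal ((2 : ℝ) ^ β / ((2 : ℝ) ^ β - 1) * x ^ β) := by
  set q : ℝ := (2 : ℝ) ^ β with hq
  have hq1 : 1 < q := Real.one_lt_rpow (by norm_num) hβ
  have hq0 : 0 < q := by linarith
  by_cases hx1 : x < 1
  · have h1 : ∀ j : ℕ, (if (2 : ℝ) ^ j ≤ x then ENNReal.ofReal (q ^ j) else 0) = 0 := by
      intro j
      rw [if_neg]
      have : (1 : ℝ) ≤ 2 ^ j := one_le_pow₀ (by norm_num)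
      linarith
    simp [h1]
  · push Not at hx1
    set J := Nat.log 2 ⌊x⌋₊ with hJ
    have hfl : ⌊x⌋₊ ≠ 0 := by
      have := Nat.floor_pos.2 hx1
      omega
    have hiff : ∀ j : ℕ, (2 : ℝ) ^ j ≤ x ↔ j ≤ J := by
      intro j
      have h1 : (2 : ℝ) ^ j ≤ x ↔ 2 ^ j ≤ ⌊x⌋₊ := by
        rw [Nat.le_floor_iff hx.le]
        push_cast
        rfl
      rw [h1, hJ, Nat.le_log_iff_pow_le (by norm_num) hfl]
    rw [tsum_eq_sum (s := Finset.range (J + 1))]
    · have h2 : ∑ j ∈ Finset.range (J + 1),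
          (if (2 : ℝ) ^ j ≤ x then ENNReal.ofReal (q ^ j) else 0) =
          ENNReal.ofReal (∑ j ∈ Finset.range (J + 1), q ^ j) := by
        rw [ENNReal.ofReal_sum_of_nonneg (fun j _ => by positivity)]
        refine Finset.sum_congr rfl fun j hj => ?_
        rw [if_pos ((hiff j).2 (by simpa [Nat.lt_succ_iff] using hj))]
      rw [h2]
      refine ENNReal.ofReal_le_ofReal ?_
      rw [geom_sum_eq hq1.ne']
      have h3 : q ^ J ≤ x ^ β := by
        have h4 : q ^ J = ((2 : ℝ) ^ J) ^ β := by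
          rw [hq, ← Real.rpow_natCast, ← Real.rpow_mul (by norm_num), mul_comm,
            Real.rpow_mul (by norm_num), Real.rpow_natCast]
        rw [h4]
        exact Real.rpow_le_rpow (by positivity) ((hiff J).2 le_rfl) hβ.le
      have h5 : 0 < q - 1 := by linarith
      rw [div_mul_eq_mul_div]
      refine div_le_div_of_nonneg_right ?_ h5.le
      rw [pow_succ]
      nlinarith
    · intro j hj
      rw [if_neg]
      rw [hiff]
      intro h
      exact hj (Finset.mem_range.2 (Nat.lt_succ_of_le h))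

theorem int_fderiv {f : ℂ → ℂ} (hf : IsTest f) (v : ℂ) : ∫ z, fderiv ℝ f z v = 0 := by
  have hc : Continuous fun z => fderiv ℝ f z v :=
    (hf.1.continuous_fderiv_apply (by simp)).comp (continuous_id.prodMk continuous_const)
  have hs : HasCompactSupport fun z => fderiv ℝ f z v := hf.2.fderiv_apply ℝ v
  have h1 := integral_mul_fderiv_eq_neg_fderiv_mul_of_integrable (μ := (volume : Measure ℂ))
    (𝕜 := ℂ) (f := fun _ : ℂ => (1 : ℂ)) (g := f) (v := v) (by simp)
    (by simpa using hc.integrable_of_hasCompactSupport hs)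
    (by simpa using hf.1.continuous.integrable_of_hasCompactSupport hf.2)
    (fun x _ => differentiableAt_const _)
    (fun x _ => (hf.1.differentiable (by simp)).differentiableAt)
  simpa using h1

theorem fderiv_int {f : ℂ → ℂ} (hf : IsTest f) (v : ℂ) : Integrable fun z => fderiv ℝ f z v := by
  have hc : Continuous fun z => fderiv ℝ f z v :=
    (hf.1.continuous_fderiv_apply (by simp)).comp (continuous_id.prodMk continuous_const)
  exact hc.integrable_of_hasCompactSupport (hf.2.fderiv_apply ℝ v)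

theorem dbar_integrable {f : ℂ → ℂ} (hf : IsTest f) : Integrable (dbar f) := by
  unfold dbar
  exact ((fderiv_int hf 1).add ((fderiv_int hf I).const_mul I)).const_mul _

theorem dbar_cont {f : ℂ → ℂ} (hf : IsTest f) : Continuous (dbar f) := by
  have hc : ∀ v : ℂ, Continuous fun z => fderiv ℝ f z v := fun v =>
    (hf.1.continuous_fderiv_apply (by simp)).comp (continuous_id.prodMk continuous_const)
  unfold dbar
  exact continuous_const.mul ((hc 1).add (continuous_const.mul (hc I)))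

theorem int_dbar {f : ℂ → ℂ} (hf : IsTest f) : ∫ z, dbar f z = 0 := by
  unfold dbar
  rw [integral_const_mul, integral_add (fderiv_int hf 1) ((fderiv_int hf I).const_mul I),
    integral_const_mul, int_fderiv hf, int_fderiv hf]
  simp

theorem dil_test {φ : ℂ → ℂ} (hφ : IsTest φ) (j : ℕ) : IsTest (dil j φ) := by
  have h2 : ((2 : ℂ) ^ j) ≠ 0 := pow_ne_zero j two_ne_zero
  constructor
  · unfold dil
    exact contDiff_const.mul (hφ.1.comp (contDiff_const.mul contDiff_id))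
  · have h1 : HasCompactSupport (fun z : ℂ => φ ((2 : ℂ) ^ j * z)) :=
      hφ.2.comp_homeomorph (Homeomorph.mulLeft₀ ((2 : ℂ) ^ j) h2)
    exact h1.mul_left

theorem dbar_dil {φ : ℂ → ℂ} (hφ : IsTest φ) (j : ℕ) (z : ℂ) :
    dbar (dil j φ) z = (8 : ℂ) ^ j * dbar φ ((2 : ℂ) ^ j * z) := by
  have h1 : ∀ v : ℂ, fderiv ℝ (dil j φ) z v =
      (8 : ℂ) ^ j * fderiv ℝ φ ((2 : ℂ) ^ j * z) v := by
    intro v
    have hd : HasFDerivAt φ (fderiv ℝ φ ((2 : ℂ) ^ j * z)) ((2 : ℂ) ^ j * z) :=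
      ((hφ.1.differentiable (by simp)).differentiableAt).hasFDerivAt
    have hl : HasFDerivAt (fun z : ℂ => (2 : ℂ) ^ j * z)
        ((2 : ℂ) ^ j • ContinuousLinearMap.id ℝ ℂ) z := (hasFDerivAt_id z).const_mul _
    have hc := (hd.comp z hl).const_mul ((4 : ℂ) ^ j)
    have h3 : fderiv ℝ (dil j φ) z = (4 : ℂ) ^ j • (fderiv ℝ φ ((2 : ℂ) ^ j * z) ∘SL
        ((2 : ℂ) ^ j • ContinuousLinearMap.id ℝ ℂ)) := hc.fderiv
    rw [h3]
    have h4 : ((4 : ℂ) ^ j • (fderiv ℝ φ ((2 : ℂ) ^ j * z) ∘SL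
        ((2 : ℂ) ^ j • ContinuousLinearMap.id ℝ ℂ))) v =
        (4 : ℂ) ^ j * fderiv ℝ φ ((2 : ℂ) ^ j * z) ((2 : ℂ) ^ j * v) := rfl
    rw [h4]
    have h5 : (2 : ℂ) ^ j * v = ((2 : ℝ) ^ j) • v := by
      rw [Complex.real_smul]; push_cast; rfl
    rw [h5, map_smul, Complex.real_smul]
    push_cast
    rw [← mul_assoc, ← mul_pow]
    norm_num
  unfold dbar
  rw [h1, h1]
  ring

theorem dbar_bd {φ : ℂ → ℂ} (hφ : IsTest φ) : ∃ K R : ℝ, 0 < K ∧ 0 < R ∧
    (∀ u, ‖dbar φ u‖ ≤ K) ∧ ∀ u, R < ‖u‖ → dbar φ u = 0 := by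
  obtain ⟨R, hR⟩ := hφ.2.isBounded.subset_closedBall (0 : ℂ)
  have hz : ∀ u, R < ‖u‖ → dbar φ u = 0 := by
    intro u hu
    have h1 : u ∉ tsupport φ := fun h => by
      have := mem_closedBall_zero_iff.1 (hR h)
      linarith
    unfold dbar
    rw [fderiv_of_notMem_tsupport ℝ h1]
    simp
  have hcs : HasCompactSupport (dbar φ) := by
    refine HasCompactSupport.intro (isCompact_closedBall (0 : ℂ) R) fun u hu => ?_
    refine hz u ?_
    rw [mem_closedBall_zero_iff] at hu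
    linarith
  obtain ⟨K, hK⟩ := hcs.exists_bound_of_continuous (dbar_cont hφ)
  refine ⟨max K 1, max R 1, by positivity, by positivity, fun u => (hK u).trans (le_max_left _ _),
    fun u hu => hz u (lt_of_le_of_lt (le_max_left _ _) hu)⟩

theorem blk_le {Ω : Set ℂ} (hΩ : MeasurableSet Ω) {f : ℂ → ℂ} (hf : IsTest f) (z : ℂ) :
    ‖blk Ω f z‖ₑ ≤ ∫⁻ h, ‖chi Ω z - chi Ω (z - h)‖ₑ * ‖dbar f h‖ₑ := by
  have hk := dbar_integrable hf
  have h1 : blk Ω f z = ∫ h, (chi Ω (z - h) : ℂ) * dbar f h := by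
    unfold blk
    rw [← integral_indicator hΩ]
    rw [← integral_sub_left_eq_self (fun w => Ω.indicator (fun w => dbar f (z - w)) w) volume z]
    refine integral_congr_ae (Filter.Eventually.of_forall fun h => ?_)
    unfold chi
    by_cases hh : z - h ∈ Ω <;> simp [hh]
  have h2 : ∫ h, (chi Ω z : ℂ) * dbar f h = 0 := by
    rw [integral_const_mul, int_dbar hf, mul_zero]
  have hm : Measurable fun h : ℂ => (chi Ω (z - h) : ℂ) :=
    Complex.measurable_ofReal.comp ((chi_meas hΩ).comp (measurable_id.const_sub z))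
  have h3 : Integrable fun h => (chi Ω (z - h) : ℂ) * dbar f h := by
    refine hk.bdd_mul (c := 1) hm.aestronglyMeasurable (Filter.Eventually.of_forall fun h => ?_)
    rw [Complex.norm_real]
    exact chi_le Ω _
  have h4 : blk Ω f z = ∫ h, ((chi Ω (z - h) : ℂ) * dbar f h - (chi Ω z : ℂ) * dbar f h) := by
    rw [integral_sub h3 (hk.const_mul _), h2, sub_zero, h1]
  rw [h4]
  refine (enorm_integral_le_lintegral_enorm _).trans (le_of_eq ?_)
  refine lintegral_congr fun h => ?_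
  rw [← sub_mul, enorm_mul]
  congr 1
  rw [← Complex.ofReal_sub, enorm_sub_rev, ← ofReal_norm, ← ofReal_norm, Complex.norm_real]

end A1

open A1 in
/-- Piece A1. -/
theorem stmtA1 : StmtA1 := by
  intro α Ω φ hα0 hα1 hΩ hφ hE
  obtain ⟨K, R, hK, hR, hKb, hRz⟩ := dbar_bd hφ
  set β : ℝ := 3 - α with hβ
  have hβ0 : 0 < β := by linarith
  have hq1 : 1 < (2 : ℝ) ^ β := Real.one_lt_rpow (by norm_num) hβ0
  have hq2 : 0 < (2 : ℝ) ^ β - 1 := by linarith
  have hχ := chi_meas hΩ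
  have hkc : ∀ j, Continuous (dbar (dil j φ)) := fun j => dbar_cont (dil_test hφ j)
  have hm2 : Measurable fun p : ℂ × ℂ => ‖chi Ω p.2 - chi Ω (p.2 - p.1)‖ₑ :=
    ((hχ.comp measurable_snd).sub (hχ.comp (measurable_snd.sub measurable_fst))).enorm
  have hsh : Measurable (shiftN Ω) := Measurable.lintegral_prod_right' hm2
  have h1 : ∀ j, lpN Ω φ j ≤ ∫⁻ h, shiftN Ω h * ‖dbar (dil j φ) h‖ₑ := by
    intro j
    unfold lpN
    calc ∫⁻ z, ‖blk Ω (dil j φ) z‖ₑ ≤
        ∫⁻ z, ∫⁻ h, ‖chi Ω z - chi Ω (z - h)‖ₑ * ‖dbar (dil j φ) h‖ₑ :=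
          lintegral_mono fun z => blk_le hΩ (dil_test hφ j) z
      _ = ∫⁻ h, ∫⁻ z, ‖chi Ω z - chi Ω (z - h)‖ₑ * ‖dbar (dil j φ) h‖ₑ := by
          rw [lintegral_lintegral_swap]
          refine Measurable.aemeasurable ?_
          exact (((hχ.comp measurable_fst).sub
            (hχ.comp (measurable_fst.sub measurable_snd))).enorm).mul
            ((hkc j).measurable.comp measurable_snd).enorm
      _ = ∫⁻ h, shiftN Ω h * ‖dbar (dil j φ) h‖ₑ := by
          refine lintegral_congr fun h => ?_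
          rw [lintegral_mul_const]
          · rfl
          · exact (hχ.sub (hχ.comp (measurable_id.sub_const h))).enorm
  have h2 : lpSum α Ω φ ≤ ∫⁻ h, shiftN Ω h *
      ∑' j : ℕ, ENNReal.ofReal ((2 : ℝ) ^ (-(α * (j : ℝ)))) * ‖dbar (dil j φ) h‖ₑ := by
    unfold lpSum
    calc ∑' j : ℕ, ENNReal.ofReal ((2 : ℝ) ^ (-(α * (j : ℝ)))) * lpN Ω φ j ≤
        ∑' j : ℕ, ENNReal.ofReal ((2 : ℝ) ^ (-(α * (j : ℝ)))) *
          ∫⁻ h, shiftN Ω h * ‖dbar (dil j φ) h‖ₑ :=
          ENNReal.tsum_le_tsum fun j => mul_le_mul' le_rfl (h1 j)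
      _ = ∑' j : ℕ, ∫⁻ h, ENNReal.ofReal ((2 : ℝ) ^ (-(α * (j : ℝ)))) *
          (shiftN Ω h * ‖dbar (dil j φ) h‖ₑ) := by
          refine tsum_congr fun j => ?_
          rw [lintegral_const_mul]
          exact hsh.mul (hkc j).measurable.enorm
      _ = ∫⁻ h, ∑' j : ℕ, ENNReal.ofReal ((2 : ℝ) ^ (-(α * (j : ℝ)))) *
          (shiftN Ω h * ‖dbar (dil j φ) h‖ₑ) := by
          rw [lintegral_tsum]
          intro j
          exact ((hsh.mul (hkc j).measurable.enorm).const_mul _).aemeasurable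
      _ = _ := by
          refine lintegral_congr fun h => ?_
          rw [← ENNReal.tsum_mul_left]
          refine tsum_congr fun j => ?_
          ring
  set C : ℝ := K * ((2 : ℝ) ^ β / ((2 : ℝ) ^ β - 1)) * R ^ β with hC
  have hC0 : 0 ≤ C := by
    have : 0 ≤ (2 : ℝ) ^ β / ((2 : ℝ) ^ β - 1) := div_nonneg (by positivity) hq2.le
    positivity
  have h3 : ∀ h : ℂ, shiftN Ω h *
      ∑' j : ℕ, ENNReal.ofReal ((2 : ℝ) ^ (-(α * (j : ℝ)))) * ‖dbar (dil j φ) h‖ₑ ≤
      ENNReal.ofReal C * (ENNReal.ofReal (‖h‖ ^ (α - 3)) * shiftN Ω h) := by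
    intro h
    by_cases h0 : h = 0
    · have h4 : shiftN Ω h = 0 := by
        unfold shiftN
        simp [h0]
      rw [h4, zero_mul]
      exact zero_le
    · have hp : 0 < ‖h‖ := norm_pos_iff.2 h0
      have h4 : ∀ j : ℕ, ENNReal.ofReal ((2 : ℝ) ^ (-(α * (j : ℝ)))) * ‖dbar (dil j φ) h‖ₑ ≤
          ENNReal.ofReal K * (if (2 : ℝ) ^ j ≤ R / ‖h‖ then
            ENNReal.ofReal (((2 : ℝ) ^ β) ^ j) else 0) := by
        intro j
        have h5 := dbar_dil hφ j h
        by_cases hj : (2 : ℝ) ^ j ≤ R / ‖h‖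
        · rw [if_pos hj, ← ofReal_norm, ← ENNReal.ofReal_mul (by positivity),
            ← ENNReal.ofReal_mul hK.le]
          refine ENNReal.ofReal_le_ofReal ?_
          rw [h5, norm_mul, norm_pow]
          have h6 : ‖(8 : ℂ)‖ = 8 := by simp
          rw [h6]
          have h7 : (2 : ℝ) ^ (-(α * (j : ℝ))) * (8 : ℝ) ^ j = ((2 : ℝ) ^ β) ^ j := by
            have h8 : (8 : ℝ) ^ j = (2 : ℝ) ^ ((3 : ℝ) * j) := by
              rw [Real.rpow_mul (by norm_num), Real.rpow_natCast]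
              norm_num
            rw [h8, ← Real.rpow_add (by norm_num), ← Real.rpow_natCast,
              ← Real.rpow_mul (by norm_num)]
            congr 1
            rw [hβ]
            ring
          calc (2 : ℝ) ^ (-(α * (j : ℝ))) * (8 ^ j * ‖dbar φ ((2 : ℂ) ^ j * h)‖) =
              ((2 : ℝ) ^ (-(α * (j : ℝ))) * 8 ^ j) * ‖dbar φ ((2 : ℂ) ^ j * h)‖ := by ring
            _ ≤ ((2 : ℝ) ^ β) ^ j * K := by
                rw [h7]
                exact mul_le_mul_of_nonneg_left (hKb _) (by positivity)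
            _ = _ := mul_comm _ _
        · have h8 : R < ‖(2 : ℂ) ^ j * h‖ := by
            rw [norm_mul, norm_pow]
            have h9 : ‖(2 : ℂ)‖ = 2 := by simp
            rw [h9]
            push Not at hj
            rwa [div_lt_iff₀ hp] at hj
          rw [h5, hRz _ h8]
          simp
      have h9 : ∑' j : ℕ, ENNReal.ofReal ((2 : ℝ) ^ (-(α * (j : ℝ)))) *
          ‖dbar (dil j φ) h‖ₑ ≤ ENNReal.ofReal (C * ‖h‖ ^ (α - 3)) := by
        refine (ENNReal.tsum_le_tsum h4).trans ?_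
        rw [ENNReal.tsum_mul_left]
        refine (mul_le_mul' le_rfl (geo hβ0 (R / ‖h‖) (by positivity))).trans (le_of_eq ?_)
        rw [← ENNReal.ofReal_mul hK.le]
        congr 1
        have h10 : ‖h‖ ^ (α - 3) = (‖h‖ ^ β)⁻¹ := by
          rw [← Real.rpow_neg hp.le]
          congr 1
          rw [hβ]
          ring
        rw [Real.div_rpow hR.le hp.le, h10, hC]
        ring
      calc shiftN Ω h * ∑' j : ℕ, ENNReal.ofReal ((2 : ℝ) ^ (-(α * (j : ℝ)))) *
          ‖dbar (dil j φ) h‖ₑ ≤ shiftN Ω h * ENNReal.ofReal (C * ‖h‖ ^ (α - 3)) :=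
            mul_le_mul' le_rfl h9
        _ = _ := by
            rw [ENNReal.ofReal_mul hC0]
            ring
  refine ne_top_of_le_ne_top ?_ (h2.trans (lintegral_mono h3))
  rw [lintegral_const_mul']
  · refine ENNReal.mul_ne_top ENNReal.ofReal_ne_top ?_
    unfold shiftEnergy at hE
    rwa [Measure.restrict_univ] at hE
  · exact ENNReal.ofReal_ne_top

end Pool.Agent.R263.DB
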