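import Mathlib
import Pool.Agent.R263.DB.Defs

open MeasureTheory Complex Filter Topology
open scoped ContDiff ENNReal NNReal

namespace Pool.Agent.R263.DB

namespace AE

/-- the kernel -/
noncomputable def kk (α : ℝ) (h : ℂ) : ℝ≥0∞ := ENNReal.ofReal (‖h‖ ^ (α - 3))

theorem kk_meas (α : ℝ) : Measurable (kk α) := by
  unfold kk
  exact ENNReal.measurable_ofReal.comp (measurable_norm.pow_const _)

theorem kk_neg (α : ℝ) (h : ℂ) : kk α (-h) = kk α h := by
  unfold kk; rw [norm_neg]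

theorem chi_meas {Ω : Set ℂ} (hΩ : MeasurableSet Ω) : Measurable (chi Ω) := by
  unfold chi
  exact measurable_const.indicator hΩ

theorem chi_diff (Ω : Set ℂ) (z w : ℂ) : ‖chi Ω z - chi Ω w‖ₑ =
    Ω.indicator (fun _ => (1 : ℝ≥0∞)) z * Ωᶜ.indicator (fun _ => (1 : ℝ≥0∞)) w +
      Ωᶜ.indicator (fun _ => (1 : ℝ≥0∞)) z * Ω.indicator (fun _ => (1 : ℝ≥0∞)) w := by
  unfold chi
  by_cases hz : z ∈ Ω <;> by_cases hw : w ∈ Ω <;> simp [hz, hw, Set.indicator]

end AE

open AE in
/-- Piece AE. -/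
theorem stmtAE : StmtAE := by
  intro α Ω hΩ
  have hχ := chi_meas hΩ
  have hk := kk_meas α
  have h1 : shiftEnergy α Ω Set.univ =
      ∫⁻ z, ∫⁻ w, kk α (z - w) * ‖chi Ω z - chi Ω w‖ₑ := by
    unfold shiftEnergy shiftN
    rw [Measure.restrict_univ]
    have h2 : ∀ h : ℂ, ENNReal.ofReal (‖h‖ ^ (α - 3)) * ∫⁻ z, ‖chi Ω z - chi Ω (z - h)‖ₑ =
        ∫⁻ z, kk α h * ‖chi Ω z - chi Ω (z - h)‖ₑ := by
      intro h
      rw [lintegral_const_mul]
      · rfl
      · exact (hχ.sub (hχ.comp (measurable_id.sub_const h))).enorm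
    simp only [h2]
    rw [lintegral_lintegral_swap]
    · refine lintegral_congr fun z => ?_
      rw [← lintegral_sub_left_eq_self (fun h => kk α h * ‖chi Ω z - chi Ω (z - h)‖ₑ) z]
      refine lintegral_congr fun w => ?_
      rw [sub_sub_cancel]
    · refine Measurable.aemeasurable ?_
      refine Measurable.mul (hk.comp measurable_fst) ?_
      exact ((hχ.comp measurable_snd).sub (hχ.comp (measurable_snd.sub measurable_fst))).enorm
  have h3 : ∀ z, ∫⁻ w, kk α (z - w) * ‖chi Ω z - chi Ω w‖ₑ =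
      Ω.indicator (fun z => ∫⁻ w in Ωᶜ, kk α (z - w)) z +
        Ωᶜ.indicator (fun z => ∫⁻ w in Ω, kk α (z - w)) z := by
    intro z
    have hkz : Measurable fun w => kk α (z - w) := hk.comp (measurable_id.const_sub z)
    have h4 : ∀ w, kk α (z - w) * ‖chi Ω z - chi Ω w‖ₑ =
        Ω.indicator (fun _ => (1 : ℝ≥0∞)) z * Ωᶜ.indicator (fun w => kk α (z - w)) w +
        Ωᶜ.indicator (fun _ => (1 : ℝ≥0∞)) z * Ω.indicator (fun w => kk α (z - w)) w := by
      intro w
      rw [chi_diff]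
      by_cases hz : z ∈ Ω <;> by_cases hw : w ∈ Ω <;> simp [hz, hw, Set.indicator]
    simp only [h4]
    rw [lintegral_add_left, lintegral_const_mul, lintegral_const_mul,
      lintegral_indicator hΩ.compl, lintegral_indicator hΩ]
    · by_cases hz : z ∈ Ω <;> simp [hz, Set.indicator]
    · exact hkz.indicator hΩ
    · exact hkz.indicator hΩ.compl
    · exact (hkz.indicator hΩ.compl).const_mul _
  have hm : Measurable fun p : ℂ × ℂ => kk α (p.1 - p.2) :=
    hk.comp (measurable_fst.sub measurable_snd)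
  have hm1 : Measurable fun z => ∫⁻ w in Ωᶜ, kk α (z - w) :=
    Measurable.lintegral_prod_right' hm
  rw [h1]
  simp only [h3]
  rw [lintegral_add_left (hm1.indicator hΩ), lintegral_indicator hΩ, lintegral_indicator hΩ.compl,
    two_mul]
  have h5 : ∫⁻ z in Ω, ∫⁻ w in Ωᶜ, kk α (z - w) = fracPer α Ω := rfl
  have h6 : ∫⁻ z in Ωᶜ, ∫⁻ w in Ω, kk α (z - w) = fracPer α Ω := by
    rw [lintegral_lintegral_swap hm.aemeasurable]
    refine lintegral_congr fun w => lintegral_congr fun z => ?_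
    have : z - w = -(w - z) := by ring
    show kk α (z - w) = kk α (w - z)
    rw [this, kk_neg]
  rw [h5, h6]

end Pool.Agent.R263.DB
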