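import Mathlib
import Pool.Agent.R263.DB.Defs

open MeasureTheory Complex Filter Topology
open scoped ContDiff ENNReal NNReal

namespace Pool.Agent.R263.DB

noncomputable section

/-- The norm of `Lip α`, as an extended nonnegative number (`k`-th differences). -/
def lipNorm (α : ℝ) (k : ℕ) (f : ℂ → ℂ) : ℝ≥0∞ :=
  (⨆ z : ℂ, ‖f z‖ₑ) +
    ⨆ h : {h : ℂ // h ≠ 0}, (⨆ z : ℂ, ‖(diffOp (h : ℂ))^[k] f z‖ₑ) / ‖(h : ℂ)‖ₑ ^ α

/-- `Ω` is `α`-admissible. -/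
def Admissible (α : ℝ) (k : ℕ) (Ω : Set ℂ) : Prop :=
  ∃ C : ℝ≥0, ∀ f : ℂ → ℂ, IsTest f → ‖-∫ z in Ω, dbar f z‖ₑ ≤ C * lipNorm α k f

lemma diffOp_zero_iter (k : ℕ) (hk : 0 < k) (f : ℂ → ℂ) (z : ℂ) : (diffOp 0)^[k] f z = 0 := by
  obtain ⟨m, rfl⟩ : ∃ m, k = m + 1 := ⟨k - 1, by omega⟩
  rw [Function.iterate_succ_apply']
  simp [diffOp]

lemma lipNorm_le (α : ℝ) (k : ℕ) (f : ℂ → ℂ) (a b : ℝ) (h : LipBd α k f a b) :
    0 ≤ a ∧ 0 ≤ b ∧ lipNorm α k f ≤ ENNReal.ofReal a + ENNReal.ofReal b := by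
  have ha : 0 ≤ a := (norm_nonneg _).trans (h.1 0)
  have hb : 0 ≤ b := by
    have := (norm_nonneg _).trans (h.2 1 0)
    simpa using this
  refine ⟨ha, hb, ?_⟩
  unfold lipNorm
  refine add_le_add ?_ ?_
  · refine iSup_le fun z => ?_
    rw [← ofReal_norm]
    exact ENNReal.ofReal_le_ofReal (h.1 z)
  · refine iSup_le fun x => ?_
    have hx : (0:ℝ) < ‖(x : ℂ)‖ := norm_pos_iff.mpr x.2
    have hx2 : ‖(x : ℂ)‖ₑ ^ α = ENNReal.ofReal (‖(x : ℂ)‖ ^ α) := by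
      rw [← ofReal_norm, ENNReal.ofReal_rpow_of_pos hx]
    rw [hx2]
    have hpos : 0 < ‖(x : ℂ)‖ ^ α := Real.rpow_pos_of_pos hx α
    rw [ENNReal.div_le_iff (by simpa using hpos) ENNReal.ofReal_ne_top]
    refine iSup_le fun z => ?_
    rw [← ofReal_norm, ← ENNReal.ofReal_mul hb]
    exact ENNReal.ofReal_le_ofReal (h.2 x z)

lemma lipBd_of_ne_top (α : ℝ) (k : ℕ) (hk : 0 < k) (hα : 0 < α) (f : ℂ → ℂ)
    (h : lipNorm α k f ≠ ⊤) :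
    ∃ a b : ℝ, 0 ≤ a ∧ 0 ≤ b ∧ LipBd α k f a b ∧
      lipNorm α k f = ENNReal.ofReal a + ENNReal.ofReal b := by
  unfold lipNorm at h ⊢
  set A : ℝ≥0∞ := ⨆ z : ℂ, ‖f z‖ₑ with hA
  set B : ℝ≥0∞ := ⨆ h : {h : ℂ // h ≠ 0},
    (⨆ z : ℂ, ‖(diffOp (h : ℂ))^[k] f z‖ₑ) / ‖(h : ℂ)‖ₑ ^ α with hB
  have hAt : A ≠ ⊤ := fun hh => h (by rw [hh]; simp)
  have hBt : B ≠ ⊤ := fun hh => h (by rw [hh]; simp)
  refine ⟨A.toReal, B.toReal, ENNReal.toReal_nonneg, ENNReal.toReal_nonneg, ⟨?_, ?_⟩, ?_⟩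
  · intro z
    have h1 : ‖f z‖ₑ ≤ A := le_iSup (fun z : ℂ => ‖f z‖ₑ) z
    rw [← ofReal_norm] at h1
    exact (ENNReal.ofReal_le_iff_le_toReal hAt).mp h1
  · intro x z
    rcases eq_or_ne x 0 with rfl | hx0
    · rw [diffOp_zero_iter k hk]
      simp only [norm_zero]
      rw [Real.zero_rpow hα.ne']
      simp
    · have hx : (0:ℝ) < ‖x‖ := norm_pos_iff.mpr hx0
      have hx2 : ‖x‖ₑ ^ α = ENNReal.ofReal (‖x‖ ^ α) := by
        rw [← ofReal_norm, ENNReal.ofReal_rpow_of_pos hx]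
      have hpos : 0 < ‖x‖ ^ α := Real.rpow_pos_of_pos hx α
      have h1 : (⨆ z : ℂ, ‖(diffOp x)^[k] f z‖ₑ) / ‖x‖ₑ ^ α ≤ B :=
        le_iSup (fun h : {h : ℂ // h ≠ 0} =>
          (⨆ z : ℂ, ‖(diffOp (h : ℂ))^[k] f z‖ₑ) / ‖(h : ℂ)‖ₑ ^ α) ⟨x, hx0⟩
      rw [hx2, ENNReal.div_le_iff (by simpa using hpos) ENNReal.ofReal_ne_top] at h1
      have h2 : ‖(diffOp x)^[k] f z‖ₑ ≤ B * ENNReal.ofReal (‖x‖ ^ α) :=
        (le_iSup (fun z : ℂ => ‖(diffOp x)^[k] f z‖ₑ) z).trans h1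
      rw [← ofReal_norm, ENNReal.ofReal_le_iff_le_toReal
        (ENNReal.mul_ne_top hBt ENNReal.ofReal_ne_top), ENNReal.toReal_mul,
        ENNReal.toReal_ofReal hpos.le] at h2
      exact h2
  · rw [ENNReal.ofReal_toReal hAt, ENNReal.ofReal_toReal hBt]

theorem admissible_iff (α : ℝ) (k : ℕ) (Ω : Set ℂ) (hα : 0 < α) (hk : α < k) :
    Admissible α k Ω ↔ Adm α k Ω := by
  have hk0 : 0 < k := by
    rcases Nat.eq_zero_or_pos k with h | h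
    · rw [h] at hk
      norm_num at hk
      linarith
    · exact h
  constructor
  · rintro ⟨C, hC⟩
    refine ⟨C, C.coe_nonneg, fun f a b hf hL => ?_⟩
    obtain ⟨ha, hb, hle⟩ := lipNorm_le α k f a b hL
    have h1 := (hC f hf).trans (mul_le_mul_right hle (C : ℝ≥0∞))
    have hCe : (C : ℝ≥0∞) = ENNReal.ofReal (C : ℝ) := (ENNReal.ofReal_coe_nnreal).symm
    rw [enorm_neg, ← ofReal_norm, ← ENNReal.ofReal_add ha hb, hCe,
      ← ENNReal.ofReal_mul C.coe_nonneg,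
      ENNReal.ofReal_le_ofReal_iff (mul_nonneg C.coe_nonneg (by linarith))] at h1
    exact h1
  · rintro ⟨C, hC0, hC⟩
    have hpos : (0:ℝ) < C + 1 := by linarith
    refine ⟨(C + 1).toNNReal, fun f hf => ?_⟩
    have hCe : ((C + 1).toNNReal : ℝ≥0∞) = ENNReal.ofReal (C + 1) := rfl
    rw [hCe]
    by_cases htop : lipNorm α k f = ⊤
    · rw [htop, ENNReal.mul_top]
      · exact le_top
      · simpa using hpos
    · obtain ⟨a, b, ha, hb, hL, heq⟩ := lipBd_of_ne_top α k hk0 hα f htop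
      have h1 := hC f a b hf hL
      rw [heq, enorm_neg, ← ofReal_norm, ← ENNReal.ofReal_add ha hb,
        ← ENNReal.ofReal_mul hpos.le]
      apply ENNReal.ofReal_le_ofReal
      nlinarith

end

end Pool.Agent.R263.DB
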