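import Mathlib
import Pool.Agent.R263.DB.Defs
import Pool.Agent.R263.DB.Glue

open MeasureTheory Complex Filter Topology
open scoped ContDiff ENNReal NNReal

namespace Pool.Agent.R263.DB

noncomputable section

lemma weighted_ne_top (α : ℝ) (Ω : Set ℂ) (a₁ a₂ : ℂ → ℂ)
    (h1 : lpSum α Ω a₁ ≠ ⊤) (h2 : lpSum α Ω a₂ ≠ ⊤) :
    ∑' j : ℕ, ENNReal.ofReal ((2 : ℝ) ^ (-(α * (j : ℝ)))) *
      (2 * lpN Ω a₁ j + 2 * lpN Ω a₂ j) ≠ ⊤ := by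
  have : ∑' j : ℕ, ENNReal.ofReal ((2 : ℝ) ^ (-(α * (j : ℝ)))) *
      (2 * lpN Ω a₁ j + 2 * lpN Ω a₂ j) = 2 * lpSum α Ω a₁ + 2 * lpSum α Ω a₂ := by
    unfold lpSum
    rw [← ENNReal.tsum_mul_left, ← ENNReal.tsum_mul_left, ← ENNReal.tsum_add]
    refine tsum_congr fun j => ?_
    ring
  rw [this]
  exact ENNReal.add_ne_top.mpr ⟨ENNReal.mul_ne_top (by norm_num) h1,
    ENNReal.mul_ne_top (by norm_num) h2⟩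

/-- growth bound valid for `0 < α ≤ 1` -/
lemma growth (α : ℝ) (hα1 : α ≤ 1) (D : ℂ → ℝ≥0∞) (c m : ℕ → ℝ≥0∞)
    (hc : ∑' j : ℕ, ENNReal.ofReal ((2 : ℝ) ^ (-(α * (j : ℝ)))) * c j ≠ ⊤)
    (hm : ∑' j : ℕ, ENNReal.ofReal ((2 : ℝ) ^ (-(α * (j : ℝ)))) * m j ≠ ⊤)
    (hD : ∀ (J : ℕ) (h : ℂ), D h ≤ 2 * (∑' i : ℕ, ENNReal.ofReal ((2 : ℝ) ^ (-((J + i : ℕ) : ℝ))) *
      c (J + i)) + ENNReal.ofReal (2 * ‖h‖) * m J) :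
    ∃ C : ℝ, 0 ≤ C ∧ ∀ h, D h ≤ ENNReal.ofReal (C * (1 + ‖h‖)) := by
  set S : ℝ≥0∞ := ∑' i : ℕ, ENNReal.ofReal ((2 : ℝ) ^ (-((0 + i : ℕ) : ℝ))) * c (0 + i) with hS
  have hSt : S ≠ ⊤ := by
    refine ne_top_of_le_ne_top hc (ENNReal.tsum_le_tsum fun i => ?_)
    rw [Nat.zero_add]
    refine mul_le_mul_left ?_ _
    apply ENNReal.ofReal_le_ofReal
    apply Real.rpow_le_rpow_of_exponent_le (by norm_num)
    have : (0:ℝ) ≤ (i:ℝ) := Nat.cast_nonneg i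
    nlinarith
  have hmt : m 0 ≠ ⊤ := by
    refine ne_top_of_le_ne_top hm ?_
    refine le_trans (le_of_eq ?_) (ENNReal.le_tsum 0)
    simp
  refine ⟨2 * S.toReal + 2 * (m 0).toReal, by positivity, fun h => ?_⟩
  refine (hD 0 h).trans ?_
  have e1 : S = ENNReal.ofReal S.toReal := (ENNReal.ofReal_toReal hSt).symm
  have e2 : m 0 = ENNReal.ofReal (m 0).toReal := (ENNReal.ofReal_toReal hmt).symm
  have e3 : (2 : ℝ≥0∞) = ENNReal.ofReal 2 := by simp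
  rw [← hS, e1, e2, e3, ← ENNReal.ofReal_mul (by norm_num),
    ← ENNReal.ofReal_mul (by positivity), ← ENNReal.ofReal_add (by positivity) (by positivity)]
  rw [ENNReal.toReal_ofReal ENNReal.toReal_nonneg, ENNReal.toReal_ofReal ENNReal.toReal_nonneg]
  apply ENNReal.ofReal_le_ofReal
  have h1 : (0:ℝ) ≤ ‖h‖ := norm_nonneg h
  have h2 : (0:ℝ) ≤ S.toReal := ENNReal.toReal_nonneg
  have h3 : (0:ℝ) ≤ (m 0).toReal := ENNReal.toReal_nonneg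
  nlinarith [mul_nonneg h1 h2, mul_nonneg h1 h3]

theorem main_lp (hN : StmtN) (hS : StmtS) (Ω : Set ℂ) (hΩ : MeasurableSet Ω) (α : ℝ) (k : ℕ)
    (φ : ℂ → ℂ) (hα : 0 < α) (hk : α < k) (hφ : IsTest φ) (h1 : ∫ z, φ z = 1) :
    Admissible α k Ω ↔ lpSum α Ω φ < ⊤ := by
  rw [admissible_iff α k Ω hα hk, lt_top_iff_ne_top]
  exact ⟨fun h => hN α k Ω φ hα hk hΩ hφ h, fun h => hS α k Ω φ hα hk hΩ hφ h1 h⟩

/-- data from the special mollifier -/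
lemma key_bound (hB1 : StmtB1) (hB2 : StmtB2) (hB3 : StmtB3) (hN : StmtN)
    (Ω : Set ℂ) (hΩ : MeasurableSet Ω) (α : ℝ) (k : ℕ) (hα : 0 < α) (hk : α < k)
    (hA : Adm α k Ω) :
    ∃ c m : ℕ → ℝ≥0∞,
      ∑' j : ℕ, ENNReal.ofReal ((2 : ℝ) ^ (-(α * (j : ℝ)))) * c j ≠ ⊤ ∧
      ∑' j : ℕ, ENNReal.ofReal ((2 : ℝ) ^ (-(α * (j : ℝ)))) * m j ≠ ⊤ ∧
      (∀ (J : ℕ) (h : ℂ), shiftN Ω h ≤
        2 * (∑' i : ℕ, ENNReal.ofReal ((2 : ℝ) ^ (-((J + i : ℕ) : ℝ))) *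
        c (J + i)) + ENNReal.ofReal (2 * ‖h‖) * m J) := by
  obtain ⟨ψ, a₁, a₂, hψ, ha₁, ha₂, rψ, r₁, r₂, hint, hid⟩ := hB1
  refine ⟨fun j => 2 * lpN Ω a₁ j + 2 * lpN Ω a₂ j, fun j => lpN Ω ψ j, ?_, ?_, ?_⟩
  · exact weighted_ne_top α Ω a₁ a₂ (hN α k Ω a₁ hα hk hΩ ha₁ hA) (hN α k Ω a₂ hα hk hΩ ha₂ hA)
  · exact hN α k Ω ψ hα hk hΩ hψ hA
  · intro J h
    refine (hB3 ψ Ω hψ rψ hΩ J h).trans ?_
    gcongr
    exact hB2 ψ a₁ a₂ Ω hψ ha₁ ha₂ rψ r₁ r₂ hint hid hΩ J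

theorem main_finite (hB1 : StmtB1) (hB2 : StmtB2) (hB3 : StmtB3) (hB5 : StmtB5) (hN : StmtN)
    (Ω : Set ℂ) (hΩ : MeasurableSet Ω) (α : ℝ) (k : ℕ) (hα : 0 < α) (hα1 : α ≤ 1) (hk : α < k)
    (hA : Admissible α k Ω) : volume Ω < ⊤ ∨ volume Ωᶜ < ⊤ := by
  rw [admissible_iff α k Ω hα hk] at hA
  obtain ⟨c, m, hc, hm, hD⟩ := key_bound hB1 hB2 hB3 hN Ω hΩ α k hα hk hA
  obtain ⟨C, hC, hg⟩ := growth α hα1 _ c m hc hm hD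
  simpa only [lt_top_iff_ne_top] using hB5 Ω C hΩ hC hg

theorem main_frac (hB1 : StmtB1) (hB2 : StmtB2) (hB3 : StmtB3) (hB4 : StmtB4) (hB5 : StmtB5)
    (hB6 : StmtB6) (hAE : StmtAE) (hA1 : StmtA1) (hN : StmtN) (hS : StmtS)
    (Ω : Set ℂ) (hΩ : MeasurableSet Ω) (α : ℝ) (k : ℕ) (hα : 0 < α) (hα1 : α < 1) (hk : 1 ≤ k) :
    Admissible α k Ω ↔ fracPer α Ω < ⊤ := by
  have hk' : α < k := lt_of_lt_of_le hα1 (by exact_mod_cast hk)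
  rw [admissible_iff α k Ω hα hk', lt_top_iff_ne_top]
  constructor
  · intro hA
    obtain ⟨c, m, hc, hm, hD⟩ := key_bound hB1 hB2 hB3 hN Ω hΩ α k hα hk' hA
    obtain ⟨hE, C, hC, hg⟩ := hB4 α (shiftN Ω) c m hα hα1 hc hm hD
    have hfin := hB5 Ω C hΩ hC hg
    have hU := hB6 α Ω hα hα1 hΩ hE hfin
    rw [hAE α Ω hΩ] at hU
    intro htop
    rw [htop] at hU
    exact hU (by simp)
  · intro hF
    obtain ⟨ψ, a₁, a₂, hψ, -, -, -, -, -, hint, -⟩ := hB1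
    refine hS α k Ω ψ hα hk' hΩ hψ hint ?_
    refine hA1 α Ω ψ hα hα1 hΩ hψ ?_
    rw [hAE α Ω hΩ]
    exact ENNReal.mul_ne_top (by norm_num) hF

end

end Pool.Agent.R263.DB
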