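import Mathlib
import Pool.Agent.R263.DB.Defs

open MeasureTheory Complex Filter Topology
open scoped ContDiff ENNReal NNReal

namespace Pool.Agent.R263.DB

namespace B1Aux

noncomputable section

/-- tensor product -/
def tens (p q : ℝ → ℝ) (z : ℂ) : ℂ := ((p z.re * q z.im : ℝ) : ℂ)

theorem tens_real (p q : ℝ → ℝ) : RealV (tens p q) := fun z => Complex.ofReal_im _

theorem tens_test {p q : ℝ → ℝ} (hp : ContDiff ℝ ∞ p) (hq : ContDiff ℝ ∞ q)
    (hp0 : ∀ x, x < 0 ∨ 1 < x → p x = 0) (hq0 : ∀ x, x < 0 ∨ 1 < x → q x = 0) :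
    IsTest (tens p q) := by
  constructor
  · have h1 : ContDiff ℝ ∞ (fun z : ℂ => p z.re) := hp.comp Complex.reCLM.contDiff
    have h2 : ContDiff ℝ ∞ (fun z : ℂ => q z.im) := hq.comp Complex.imCLM.contDiff
    exact Complex.ofRealCLM.contDiff.comp (h1.mul h2)
  · refine HasCompactSupport.intro (isCompact_closedBall (0 : ℂ) 2) (fun z hz => ?_)
    rw [mem_closedBall_zero_iff, not_le] at hz
    have h := Complex.norm_le_abs_re_add_abs_im z
    unfold tens
    by_cases h1 : z.re < 0 ∨ 1 < z.re
    · rw [hp0 _ h1]; simp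
    · by_cases h2 : z.im < 0 ∨ 1 < z.im
      · rw [hq0 _ h2]; simp
      · push Not at h1 h2
        have h3 : |z.re| ≤ 1 := abs_le.2 ⟨by linarith [h1.1], h1.2⟩
        have h4 : |z.im| ≤ 1 := abs_le.2 ⟨by linarith [h2.1], h2.2⟩
        linarith

theorem tens_fderiv {p q : ℝ → ℝ} (hp : ContDiff ℝ ∞ p) (hq : ContDiff ℝ ∞ q) (z : ℂ) :
    fderiv ℝ (tens p q) z 1 = ((deriv p z.re * q z.im : ℝ) : ℂ) ∧
    fderiv ℝ (tens p q) z I = ((p z.re * deriv q z.im : ℝ) : ℂ) := by
  have d1 : HasDerivAt p (deriv p z.re) z.re :=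
    ((hp.differentiable (by norm_num)) z.re).hasDerivAt
  have d2 : HasDerivAt q (deriv q z.im) z.im :=
    ((hq.differentiable (by norm_num)) z.im).hasDerivAt
  have h1 : HasFDerivAt (fun z : ℂ => p z.re) (deriv p z.re • Complex.reCLM) z :=
    HasDerivAt.comp_hasFDerivAt (h₂ := p) z d1 Complex.reCLM.hasFDerivAt
  have h2 : HasFDerivAt (fun z : ℂ => q z.im) (deriv q z.im • Complex.imCLM) z :=
    HasDerivAt.comp_hasFDerivAt (h₂ := q) z d2 Complex.imCLM.hasFDerivAt
  have h3 := h1.mul h2
  have h4 := Complex.ofRealCLM.hasFDerivAt.comp z h3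
  have h5 : HasFDerivAt (tens p q) _ z := h4
  rw [h5.fderiv]
  constructor
  · simp
    ring
  · simp

/-- the smooth bump -/
def rho : ℝ → ℝ := deriv Real.smoothTransition

theorem S_smooth : ContDiff ℝ ∞ Real.smoothTransition := Real.smoothTransition.contDiff

theorem rho_smooth : ContDiff ℝ ∞ rho := (contDiff_infty_iff_deriv.1 S_smooth).2

theorem S_diff (x : ℝ) : HasDerivAt Real.smoothTransition (rho x) x :=
  ((S_smooth.differentiable (by norm_num)) x).hasDerivAt

theorem rho_zero (x : ℝ) (hx : x < 0 ∨ 1 < x) : rho x = 0 := by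
  unfold rho
  rcases hx with h | h
  · have h1 : Real.smoothTransition =ᶠ[𝓝 x] fun _ => 0 := by
      filter_upwards [gt_mem_nhds h] with y hy
      exact Real.smoothTransition.zero_of_nonpos hy.le
    rw [h1.deriv_eq]
    simp
  · have h1 : Real.smoothTransition =ᶠ[𝓝 x] fun _ => 1 := by
      filter_upwards [lt_mem_nhds h] with y hy
      exact Real.smoothTransition.one_of_one_le hy.le
    rw [h1.deriv_eq]
    simp

theorem rho_int : ∫ x, rho x = 1 := by
  have hint : Integrable rho := by
    apply rho_smooth.continuous.integrable_of_hasCompactSupport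
    refine HasCompactSupport.intro (isCompact_Icc (a := (0:ℝ)) (b := 1)) (fun x hx => ?_)
    apply rho_zero
    rw [Set.mem_Icc, not_and_or, not_le, not_le] at hx
    exact hx
  have h := integral_of_hasDerivAt_of_tendsto (f := Real.smoothTransition) (f' := rho)
    (m := 0) (n := 1) S_diff hint
    (tendsto_const_nhds.congr' (by
      filter_upwards [eventually_le_atBot 0] with y hy
      exact (Real.smoothTransition.zero_of_nonpos hy).symm))
    (tendsto_const_nhds.congr' (by
      filter_upwards [eventually_ge_atTop 1] with y hy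
      exact (Real.smoothTransition.one_of_one_le hy).symm))
  rw [h]
  norm_num

/-- `S(2x) - S(x)` -/
def A (x : ℝ) : ℝ := Real.smoothTransition (2 * x) - Real.smoothTransition x

theorem A_smooth : ContDiff ℝ ∞ A := by
  unfold A
  exact (S_smooth.comp (contDiff_const.mul contDiff_id)).sub S_smooth

theorem A_deriv (x : ℝ) : deriv A x = 2 * rho (2 * x) - rho x := by
  have h1 : HasDerivAt (fun x : ℝ => 2 * x) 2 x := by
    simpa using (hasDerivAt_id x).const_mul 2
  have h2 : HasDerivAt A (rho (2 * x) * 2 - rho x) x :=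
    ((S_diff (2 * x)).comp x h1).sub (S_diff x)
  rw [h2.deriv]
  ring

theorem A_zero (x : ℝ) (hx : x < 0 ∨ 1 < x) : A x = 0 := by
  unfold A
  rcases hx with h | h
  · rw [Real.smoothTransition.zero_of_nonpos (by linarith),
      Real.smoothTransition.zero_of_nonpos (by linarith), sub_zero]
  · rw [Real.smoothTransition.one_of_one_le (by linarith),
      Real.smoothTransition.one_of_one_le (by linarith), sub_self]

/-- `2 rho(2x)` -/
def B (x : ℝ) : ℝ := 2 * rho (2 * x)

theorem B_smooth : ContDiff ℝ ∞ B := by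
  unfold B
  exact contDiff_const.mul (rho_smooth.comp (contDiff_const.mul contDiff_id))

theorem B_zero (x : ℝ) (hx : x < 0 ∨ 1 < x) : B x = 0 := by
  unfold B
  rw [rho_zero (2 * x) (by rcases hx with h | h; · left; linarith
                           · right; linarith), mul_zero]

end

end B1Aux

open B1Aux in
theorem stmtB1 : StmtB1 := by
  refine ⟨tens rho rho, tens A B, tens rho A, tens_test rho_smooth rho_smooth rho_zero rho_zero,
    tens_test A_smooth B_smooth A_zero B_zero, tens_test rho_smooth A_smooth rho_zero A_zero,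
    tens_real _ _, tens_real _ _, tens_real _ _, ?_, ?_⟩
  · have h1 := Complex.volume_preserving_equiv_real_prod.integral_comp
      Complex.measurableEquivRealProd.measurableEmbedding (fun p : ℝ × ℝ => rho p.1 * rho p.2)
    have h2 : ∫ p : ℝ × ℝ, rho p.1 * rho p.2 = 1 := by
      have h3 := integral_prod_mul (μ := (volume : Measure ℝ)) (ν := (volume : Measure ℝ)) rho rho
      rw [rho_int, mul_one] at h3
      exact h3
    rw [h2] at h1
    have h4 : ∫ z : ℂ, rho z.re * rho z.im = 1 := h1
    unfold tens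
    rw [integral_complex_ofReal, h4]
    norm_num
  · intro z
    rw [(tens_fderiv A_smooth B_smooth z).1, (tens_fderiv rho_smooth A_smooth z).2, A_deriv, A_deriv]
    unfold dil tens B
    have h1 : ((2 : ℂ) ^ 1 * z).re = 2 * z.re := by simp
    have h2 : ((2 : ℂ) ^ 1 * z).im = 2 * z.im := by simp
    rw [h1, h2]
    push_cast
    ring

end Pool.Agent.R263.DB
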