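import Mathlib
import Pool.Agent.R263.DB.Defs

/-! # Piece B2: distance of the indicator to its mollification -/

open MeasureTheory Complex Filter Topology
open scoped ContDiff ENNReal NNReal

namespace Pool.Agent.R263.DB

noncomputable section

namespace PB2

theorem two_pow_ne (j : ℕ) : ((2 : ℂ) ^ j) ≠ 0 := pow_ne_zero _ two_ne_zero

theorem test_dil {a : ℂ → ℂ} (ha : IsTest a) (j : ℕ) : IsTest (dil j a) := by
  refine ⟨?_, ?_⟩
  · have : ContDiff ℝ ∞ (fun z : ℂ => (2 : ℂ) ^ j * z) := contDiff_const.mul contDiff_id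
    exact contDiff_const.mul (ha.1.comp this)
  · have h := ha.2.comp_isClosedEmbedding
      (Homeomorph.mulLeft₀ ((2 : ℂ) ^ j) (two_pow_ne j)).isClosedEmbedding
    exact h.mul_left

theorem real_dil {a : ℂ → ℂ} (ha : RealV a) (j : ℕ) : RealV (dil j a) := by
  intro z
  unfold dil
  have h : ((4 : ℂ) ^ j) = (((4 : ℝ) ^ j : ℝ) : ℂ) := by push_cast; rfl
  rw [h, Complex.mul_im, Complex.ofReal_re, Complex.ofReal_im, ha]
  simp

theorem has_fd {a : ℂ → ℂ} (ha : IsTest a) (z : ℂ) : HasFDerivAt a (fderiv ℝ a z) z :=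
  (ha.1.differentiable (by simp)).differentiableAt.hasFDerivAt

theorem fderiv_dil {a : ℂ → ℂ} (ha : IsTest a) (j : ℕ) (z v : ℂ) :
    fderiv ℝ (dil j a) z v = (8 : ℂ) ^ j * fderiv ℝ a ((2 : ℂ) ^ j * z) v := by
  have h1 := has_fd ha ((2 : ℂ) ^ j * z)
  have h2 : HasFDerivAt (fun z : ℂ => (2 : ℂ) ^ j * z) ((2 : ℂ) ^ j • (ContinuousLinearMap.id ℝ ℂ)) z :=
    (hasFDerivAt_id z).const_mul _
  have h3 : HasFDerivAt (dil j a) ((4 : ℂ) ^ j • ((fderiv ℝ a ((2 : ℂ) ^ j * z)).comp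
      ((2 : ℂ) ^ j • (ContinuousLinearMap.id ℝ ℂ)))) z := (h1.comp z h2).const_mul _
  rw [h3.fderiv]
  show (4 : ℂ) ^ j * (fderiv ℝ a ((2 : ℂ) ^ j * z)) ((2 : ℂ) ^ j * v) = _
  have h4 : (2 : ℂ) ^ j * v = ((2 : ℝ) ^ j) • v := by
    rw [Complex.real_smul]
    push_cast
    rfl
  rw [h4, map_smul, Complex.real_smul, ← mul_assoc]
  congr 1
  push_cast
  rw [← mul_pow]
  norm_num

theorem tele {ψ a₁ a₂ : ℂ → ℂ} (h1 : IsTest a₁) (h2 : IsTest a₂)
    (h : ∀ z, dil 1 ψ z - ψ z = fderiv ℝ a₁ z 1 + fderiv ℝ a₂ z I) (j : ℕ) (z : ℂ) :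
    dil (j + 1) ψ z - dil j ψ z =
      ((2 : ℂ) ^ j)⁻¹ * (fderiv ℝ (dil j a₁) z 1 + fderiv ℝ (dil j a₂) z I) := by
  rw [fderiv_dil h1, fderiv_dil h2, ← mul_add, ← h]
  unfold dil
  have e1 : (2 : ℂ) ^ (j + 1) * z = (2 : ℂ) ^ 1 * ((2 : ℂ) ^ j * z) := by ring
  rw [e1]
  have e2 : (8 : ℂ) ^ j = 2 ^ j * 4 ^ j := by
    rw [← mul_pow]
    norm_num
  rw [e2]
  have := two_pow_ne j
  field_simp
  ring

theorem fd_int {a : ℂ → ℂ} (ha : IsTest a) (z v : ℂ) :
    Integrable (fun w => fderiv ℝ a (z - w) v) := by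
  have h1 : Continuous (fun w => fderiv ℝ a w v) :=
    (ha.1.continuous_fderiv (by simp)).clm_apply continuous_const
  have h2 : HasCompactSupport (fun w => fderiv ℝ a w v) := ha.2.fderiv_apply (𝕜 := ℝ) v
  exact (h1.integrable_of_hasCompactSupport h2).comp_sub_left z

theorem tint {a : ℂ → ℂ} (ha : IsTest a) (z : ℂ) : Integrable (fun w => a (z - w)) :=
  (ha.1.continuous.integrable_of_hasCompactSupport ha.2).comp_sub_left z

theorem fd_im {a : ℂ → ℂ} (ha : IsTest a) (hr : RealV a) (z v : ℂ) : (fderiv ℝ a z v).im = 0 := by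
  have h1 := has_fd ha z
  have h2 : HasFDerivAt (fun w => imCLM (a w)) (imCLM.comp (fderiv ℝ a z)) z :=
    imCLM.hasFDerivAt.comp z h1
  have h3 : (fun w => imCLM (a w)) = fun _ => (0 : ℝ) := by
    funext w
    exact hr w
  rw [h3] at h2
  have h4 := h2.unique (hasFDerivAt_const (0 : ℝ) z)
  have h5 := congrArg (fun L : ℂ →L[ℝ] ℝ => L v) h4
  simpa using h5

/-- real and imaginary part of `blk` -/
theorem blk_parts {b : ℂ → ℂ} (hb : IsTest b) (hr : RealV b) (Ω : Set ℂ) (z : ℂ) :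
    ‖∫ w in Ω, fderiv ℝ b (z - w) 1‖ ≤ 2 * ‖blk Ω b z‖ ∧
    ‖∫ w in Ω, fderiv ℝ b (z - w) I‖ ≤ 2 * ‖blk Ω b z‖ := by
  set X := ∫ w in Ω, fderiv ℝ b (z - w) 1 with hX
  set Y := ∫ w in Ω, fderiv ℝ b (z - w) I with hY
  have i1 : IntegrableOn (fun w => fderiv ℝ b (z - w) 1) Ω := (fd_int hb z 1).integrableOn
  have i2 : IntegrableOn (fun w => fderiv ℝ b (z - w) I) Ω := (fd_int hb z I).integrableOn
  have hXi : X.im = 0 := by
    have := imCLM.integral_comp_comm i1
    simp only [imCLM_apply] at this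
    rw [← this]
    simp [fd_im hb hr]
  have hYi : Y.im = 0 := by
    have := imCLM.integral_comp_comm i2
    simp only [imCLM_apply] at this
    rw [← this]
    simp [fd_im hb hr]
  have hB : blk Ω b z = (1 / 2 : ℂ) * (X + I * Y) := by
    unfold blk dbar
    rw [integral_const_mul, integral_add i1 (i2.const_mul I), integral_const_mul]
  have hre : (blk Ω b z).re = X.re / 2 := by
    rw [hB]
    simp [Complex.mul_re, hYi]
    ring
  have him : (blk Ω b z).im = Y.re / 2 := by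
    rw [hB]
    simp [Complex.mul_im, hXi]
    ring
  have nX : ‖X‖ = |X.re| := by
    have : X = (X.re : ℂ) := Complex.ext rfl (by simp [hXi])
    rw [this, Complex.norm_real, Real.norm_eq_abs, Complex.ofReal_re]
  have nY : ‖Y‖ = |Y.re| := by
    have : Y = (Y.re : ℂ) := Complex.ext rfl (by simp [hYi])
    rw [this, Complex.norm_real, Real.norm_eq_abs, Complex.ofReal_re]
  constructor
  · rw [nX]
    have := Complex.abs_re_le_norm (blk Ω b z)
    rw [hre, abs_div, abs_two] at this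
    linarith
  · rw [nY]
    have := Complex.abs_im_le_norm (blk Ω b z)
    rw [him, abs_div, abs_two] at this
    linarith

/-- one step -/
theorem step {ψ a₁ a₂ : ℂ → ℂ} (hψ : IsTest ψ) (h1 : IsTest a₁) (h2 : IsTest a₂) (r1 : RealV a₁)
    (r2 : RealV a₂) (h : ∀ z, dil 1 ψ z - ψ z = fderiv ℝ a₁ z 1 + fderiv ℝ a₂ z I) (Ω : Set ℂ)
    (j : ℕ) (z : ℂ) :
    ‖smo Ω (dil (j + 1) ψ) z - smo Ω (dil j ψ) z‖ ≤
      (2 : ℝ) ^ (-(j : ℝ)) * (2 * ‖blk Ω (dil j a₁) z‖ + 2 * ‖blk Ω (dil j a₂) z‖) := by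
  have i1 : IntegrableOn (fun w => fderiv ℝ (dil j a₁) (z - w) 1) Ω :=
    (fd_int (test_dil h1 j) z 1).integrableOn
  have i2 : IntegrableOn (fun w => fderiv ℝ (dil j a₂) (z - w) I) Ω :=
    (fd_int (test_dil h2 j) z I).integrableOn
  have e1 : smo Ω (dil (j + 1) ψ) z - smo Ω (dil j ψ) z = ((2 : ℂ) ^ j)⁻¹ *
      ((∫ w in Ω, fderiv ℝ (dil j a₁) (z - w) 1) + ∫ w in Ω, fderiv ℝ (dil j a₂) (z - w) I) := by
    unfold smo
    rw [← integral_sub (tint (test_dil hψ _) z).integrableOn (tint (test_dil hψ _) z).integrableOn,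
      ← integral_add i1 i2, ← integral_const_mul]
    refine integral_congr_ae (Eventually.of_forall fun w => ?_)
    exact tele h1 h2 h j (z - w)
  rw [e1, norm_mul]
  have e2 : ‖((2 : ℂ) ^ j)⁻¹‖ = (2 : ℝ) ^ (-(j : ℝ)) := by
    rw [norm_inv, norm_pow, Real.rpow_neg (by norm_num), Real.rpow_natCast]
    simp
  rw [e2]
  refine mul_le_mul_of_nonneg_left ?_ (by positivity)
  refine (norm_add_le _ _).trans (add_le_add ?_ ?_)
  · exact (blk_parts (test_dil h1 j) (real_dil r1 j) Ω z).1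
  · exact (blk_parts (test_dil h2 j) (real_dil r2 j) Ω z).2

theorem dbar_cont {b : ℂ → ℂ} (hb : IsTest b) : Continuous (dbar b) := by
  unfold dbar
  have h1 : Continuous (fun w => fderiv ℝ b w 1) :=
    (hb.1.continuous_fderiv (by simp)).clm_apply continuous_const
  have h2 : Continuous (fun w => fderiv ℝ b w I) :=
    (hb.1.continuous_fderiv (by simp)).clm_apply continuous_const
  fun_prop

theorem blk_meas {b : ℂ → ℂ} (hb : IsTest b) (Ω : Set ℂ) : Measurable (blk Ω b) := by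
  have h1 : StronglyMeasurable (fun p : ℂ × ℂ => dbar b (p.1 - p.2)) :=
    ((dbar_cont hb).comp (continuous_fst.sub continuous_snd)).stronglyMeasurable
  exact (h1.integral_prod_right' (ν := volume.restrict Ω)).measurable

theorem dil_int {ψ : ℂ → ℂ} (h1 : ∫ z, ψ z = 1) (n : ℕ) : ∫ z, dil n ψ z = 1 := by
  unfold dil
  rw [integral_const_mul]
  have h2 : ∀ z : ℂ, ψ ((2 : ℂ) ^ n * z) = ψ (((2 : ℝ) ^ n) • z) := by
    intro z
    rw [Complex.real_smul]
    push_cast
    rfl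
  simp only [h2]
  rw [Measure.integral_comp_smul volume ψ, h1, Complex.finrank_real_complex]
  rw [abs_of_pos (by positivity), Complex.real_smul]
  push_cast
  rw [mul_one, ← pow_mul, mul_comm n 2, pow_mul]
  norm_num

theorem chi_meas {Ω : Set ℂ} (hΩ : MeasurableSet Ω) : Measurable (chi Ω) :=
  measurable_const.indicator hΩ

theorem chi_bd (Ω : Set ℂ) (w z : ℂ) : |chi Ω w - chi Ω z| ≤ 1 := by
  unfold chi
  by_cases h1 : w ∈ Ω <;> by_cases h2 : z ∈ Ω <;> simp [h1, h2]

theorem ball_real (z : ℂ) {r : ℝ} (hr : 0 ≤ r) :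
    volume.real (Metric.closedBall z r) = r ^ 2 * Real.pi := by
  rw [Measure.real, Complex.volume_closedBall, ENNReal.toReal_mul, ENNReal.toReal_pow,
    ENNReal.toReal_ofReal hr]
  rfl

/-- Lebesgue points -/
theorem ae_conv {ψ : ℂ → ℂ} (hψ : IsTest ψ) (h1 : ∫ z, ψ z = 1) {Ω : Set ℂ}
    (hΩ : MeasurableSet Ω) :
    ∀ᵐ z, Tendsto (fun n : ℕ => smo Ω (dil n ψ) z) atTop (𝓝 (chi Ω z : ℂ)) := by
  obtain ⟨K, hK⟩ := hψ.2.exists_bound_of_continuous hψ.1.continuous
  obtain ⟨R0, hR0⟩ := hψ.2.isCompact.isBounded.subset_closedBall 0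
  set R := max R0 1 with hR
  have hRpos : 0 < R := lt_of_lt_of_le one_pos (le_max_right _ _)
  have hK0 : 0 ≤ K := (norm_nonneg _).trans (hK 0)
  have hloc : LocallyIntegrable (chi Ω) volume := (locallyIntegrable_const (1 : ℝ)).indicator hΩ
  filter_upwards [IsUnifLocDoublingMeasure.ae_tendsto_average_norm_sub volume hloc 1] with z hz
  set δ : ℕ → ℝ := fun n => R / 2 ^ n with hδ
  have hδpos : ∀ n, 0 < δ n := fun n => by positivity
  have hδlim : Tendsto δ atTop (𝓝[>] 0) := by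
    rw [tendsto_nhdsWithin_iff]
    refine ⟨?_, Eventually.of_forall hδpos⟩
    have h2 : Tendsto (fun n : ℕ => R * ((1 : ℝ) / 2) ^ n) atTop (𝓝 (R * 0)) :=
      (tendsto_pow_atTop_nhds_zero_of_lt_one (by norm_num) (by norm_num)).const_mul R
    rw [mul_zero] at h2
    refine h2.congr fun n => ?_
    rw [hδ]
    simp only
    rw [one_div, inv_pow]
    rfl
  have hz' := hz (fun _ => z) δ hδlim (Eventually.of_forall fun n =>
    Metric.mem_closedBall_self (by have := hδpos n; positivity))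
  rw [tendsto_iff_norm_sub_tendsto_zero]
  have hlim : Tendsto (fun n : ℕ => K * Real.pi * R ^ 2 *
      (⨍ y in Metric.closedBall z (δ n), ‖chi Ω y - chi Ω z‖)) atTop (𝓝 0) := by
    have := hz'.const_mul (K * Real.pi * R ^ 2)
    rwa [mul_zero] at this
  refine squeeze_zero (fun n => norm_nonneg _) (fun n => ?_) hlim
  have e1 : smo Ω (dil n ψ) z - (chi Ω z : ℂ) =
      ∫ w, dil n ψ (z - w) * ((chi Ω w - chi Ω z : ℝ) : ℂ) := by
    have i0 : Integrable (fun w => dil n ψ (z - w)) := tint (test_dil hψ n) z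
    have i1 : Integrable (fun w => dil n ψ (z - w) * (chi Ω w : ℂ)) := by
      have h2 : (fun w => dil n ψ (z - w) * (chi Ω w : ℂ)) =
          Ω.indicator (fun w => dil n ψ (z - w)) := by
        funext w
        unfold chi
        by_cases h : w ∈ Ω <;> simp [h]
      rw [h2]
      exact i0.indicator hΩ
    have e2 : smo Ω (dil n ψ) z = ∫ w, dil n ψ (z - w) * (chi Ω w : ℂ) := by
      unfold smo
      rw [← integral_indicator hΩ]
      refine integral_congr_ae (Eventually.of_forall fun w => ?_)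
      show Ω.indicator (fun w => dil n ψ (z - w)) w = dil n ψ (z - w) * (chi Ω w : ℂ)
      unfold chi
      by_cases h : w ∈ Ω <;> simp [h]
    have e3 : (chi Ω z : ℂ) = ∫ w, dil n ψ (z - w) * (chi Ω z : ℂ) := by
      rw [integral_mul_const, integral_sub_left_eq_self (fun w => dil n ψ w), dil_int h1, one_mul]
    rw [e2]
    conv_lhs => rw [e3]
    rw [← integral_sub i1 (i0.mul_const _)]
    refine integral_congr_ae (Eventually.of_forall fun w => ?_)
    show dil n ψ (z - w) * (chi Ω w : ℂ) - dil n ψ (z - w) * (chi Ω z : ℂ) =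
      dil n ψ (z - w) * ((chi Ω w - chi Ω z : ℝ) : ℂ)
    push_cast
    ring
  rw [e1]
  set S := Metric.closedBall z (δ n) with hS
  have hSm : MeasurableSet S := Metric.isClosed_closedBall.measurableSet
  have hpt : ∀ w, ‖dil n ψ (z - w) * ((chi Ω w - chi Ω z : ℝ) : ℂ)‖ ≤
      S.indicator (fun w => 4 ^ n * K * ‖chi Ω w - chi Ω z‖) w := by
    intro w
    rw [norm_mul, Complex.norm_real]
    by_cases hw : w ∈ S
    · rw [Set.indicator_of_mem hw]
      refine mul_le_mul_of_nonneg_right ?_ (norm_nonneg _)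
      unfold dil
      rw [norm_mul, norm_pow]
      have h3 := hK ((2 : ℂ) ^ n * (z - w))
      have h4 : ‖(4 : ℂ)‖ = 4 := by simp
      rw [h4]
      gcongr
    · rw [Set.indicator_of_notMem hw]
      have h3 : dil n ψ (z - w) = 0 := by
        unfold dil
        have h4 : ψ ((2 : ℂ) ^ n * (z - w)) = 0 := by
          by_contra h5
          have h6 : (2 : ℂ) ^ n * (z - w) ∈ Metric.closedBall (0 : ℂ) R0 :=
            hR0 (subset_tsupport ψ (Function.mem_support.mpr h5))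
          rw [mem_closedBall_zero_iff, norm_mul, norm_pow, Complex.norm_ofNat] at h6
          apply hw
          rw [hS, Metric.mem_closedBall, dist_comm, dist_eq_norm]
          show ‖z - w‖ ≤ R / 2 ^ n
          rw [le_div_iff₀ (by positivity), mul_comm]
          exact h6.trans (le_max_left _ _)
        rw [h4, mul_zero]
      rw [h3, norm_zero, zero_mul]
  have hfin : volume S ≠ ⊤ := by
    rw [hS, Complex.volume_closedBall]
    exact ENNReal.mul_ne_top (ENNReal.pow_ne_top ENNReal.ofReal_ne_top) ENNReal.coe_ne_top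
  have hi : IntegrableOn (fun w => ‖chi Ω w - chi Ω z‖) S := by
    refine Measure.integrableOn_of_bounded (M := 1) hfin
      (((chi_meas hΩ).sub measurable_const).norm).aestronglyMeasurable ?_
    refine Eventually.of_forall fun w => ?_
    rw [norm_norm, Real.norm_eq_abs]
    exact chi_bd Ω w z
  have hi2 : Integrable (S.indicator (fun w => 4 ^ n * K * ‖chi Ω w - chi Ω z‖)) := by
    rw [integrable_indicator_iff hSm]
    exact hi.const_mul _
  refine (norm_integral_le_of_norm_le hi2 (Eventually.of_forall hpt)).trans (le_of_eq ?_)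
  rw [integral_indicator hSm, integral_const_mul, setAverage_eq, smul_eq_mul,
    hS, ball_real z (hδpos n).le]
  have h5 : (0 : ℝ) < 2 ^ n := by positivity
  have h6 : (4 : ℝ) ^ n = 2 ^ n * 2 ^ n := by
    rw [← mul_pow]
    norm_num
  rw [hδ]
  simp only
  rw [h6]
  have h7 := Real.pi_pos
  field_simp

end PB2

open PB2 in
theorem stmtB2 : StmtB2 := by
  intro ψ a₁ a₂ Ω hψ h1 h2 _ r1 r2 hint htel hΩ J
  have hpt : ∀ᵐ z, ‖(chi Ω z : ℂ) - smo Ω (dil J ψ) z‖ₑ ≤
      ∑' i : ℕ, ENNReal.ofReal ((2 : ℝ) ^ (-((J + i : ℕ) : ℝ))) *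
        (2 * ‖blk Ω (dil (J + i) a₁) z‖ₑ + 2 * ‖blk Ω (dil (J + i) a₂) z‖ₑ) := by
    filter_upwards [ae_conv hψ hint hΩ] with z hz
    have h3 : Tendsto (fun n : ℕ => smo Ω (dil (J + n) ψ) z) atTop (𝓝 (chi Ω z : ℂ)) := by
      have := hz.comp (tendsto_add_atTop_nat J)
      refine this.congr fun n => ?_
      rw [Function.comp_apply, add_comm]
    have h4 := edist_le_tsum_of_edist_le_of_tendsto₀
      (fun i : ℕ => ENNReal.ofReal ((2 : ℝ) ^ (-((J + i : ℕ) : ℝ))) *
        (2 * ‖blk Ω (dil (J + i) a₁) z‖ₑ + 2 * ‖blk Ω (dil (J + i) a₂) z‖ₑ)) (fun n => ?_) h3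
    · rw [add_zero] at h4
      rw [← edist_eq_enorm_sub, edist_comm]
      exact h4
    · show edist (smo Ω (dil (J + n) ψ) z) (smo Ω (dil (J + n + 1) ψ) z) ≤ _
      rw [edist_comm, edist_eq_enorm_sub]
      have h5 := step hψ h1 h2 r1 r2 htel Ω (J + n) z
      have h6 : ‖smo Ω (dil (J + n + 1) ψ) z - smo Ω (dil (J + n) ψ) z‖ₑ =
          ENNReal.ofReal ‖smo Ω (dil (J + n + 1) ψ) z - smo Ω (dil (J + n) ψ) z‖ := by
        rw [ofReal_norm]
      rw [h6]
      refine (ENNReal.ofReal_le_ofReal h5).trans (le_of_eq ?_)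
      rw [ENNReal.ofReal_mul (by positivity), ENNReal.ofReal_add (by positivity) (by positivity),
        ENNReal.ofReal_mul two_pos.le, ENNReal.ofReal_mul two_pos.le, ofReal_norm, ofReal_norm,
        ENNReal.ofReal_ofNat]
  refine (lintegral_mono_ae hpt).trans (le_of_eq ?_)
  have hm : ∀ (a : ℂ → ℂ), IsTest a → ∀ j, Measurable fun z => ‖blk Ω (dil j a) z‖ₑ := fun a ha j =>
    (blk_meas (test_dil ha j) Ω).enorm
  rw [lintegral_tsum]
  · refine tsum_congr fun i => ?_
    rw [lintegral_const_mul' _ _ ENNReal.ofReal_ne_top,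
      lintegral_add_left ((hm a₁ h1 _).const_mul _),
      lintegral_const_mul _ (hm a₁ h1 _), lintegral_const_mul _ (hm a₂ h2 _)]
    rfl
  · intro i
    exact ((((hm a₁ h1 _).const_mul _).add ((hm a₂ h2 _).const_mul _)).const_mul _).aemeasurable

end

end Pool.Agent.R263.DB
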