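import Mathlib
import Pool.Agent.R263.DB.Defs

open MeasureTheory Complex Filter Topology
open scoped ContDiff ENNReal NNReal

namespace Pool.Agent.R263.DB

noncomputable section

namespace B3

lemma dil_test {ψ : ℂ → ℂ} (h : IsTest ψ) (J : ℕ) : IsTest (dil J ψ) := by
  obtain ⟨h1, h2⟩ := h
  refine ⟨?_, ?_⟩
  · unfold dil
    exact contDiff_const.mul (h1.comp (contDiff_const.mul contDiff_id))
  · unfold dil
    have h3 : HasCompactSupport (fun z : ℂ => ψ ((2 : ℂ) ^ J * z)) := by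
      have h4 := h2.comp_homeomorph (Homeomorph.mulLeft₀ ((2 : ℂ) ^ J) (pow_ne_zero _ two_ne_zero))
      exact h4
    exact h3.mul_left

lemma dil_real {ψ : ℂ → ℂ} (h : RealV ψ) (J : ℕ) : RealV (dil J ψ) := by
  intro z
  unfold dil
  have h1 : ((4 : ℂ) ^ J) = (((4 : ℝ) ^ J : ℝ) : ℂ) := by push_cast; rfl
  rw [h1, Complex.im_ofReal_mul, h, mul_zero]

lemma fd_cont {ρ : ℂ → ℂ} (h : IsTest ρ) : Continuous (fderiv ℝ ρ) :=
  h.1.continuous_fderiv (by simp)

lemma fd_supp {ρ : ℂ → ℂ} (h : IsTest ρ) (v : ℂ) :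
    HasCompactSupport (fun z => fderiv ℝ ρ z v) :=
  (h.2.fderiv ℝ).comp_left (g := fun L : ℂ →L[ℝ] ℂ => L v) (by simp)

lemma fd_cont_apply {ρ : ℂ → ℂ} (h : IsTest ρ) (v : ℂ) :
    Continuous (fun z => fderiv ℝ ρ z v) :=
  (fd_cont h).clm_apply continuous_const

lemma int_sub {g : ℂ → ℂ} (hc : Continuous g) (hs : HasCompactSupport g) (Ω : Set ℂ) (z : ℂ) :
    Integrable (fun w => g (z - w)) (volume.restrict Ω) :=
  ((hc.integrable_of_hasCompactSupport hs).comp_sub_left z).restrict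

lemma grad_real {ρ : ℂ → ℂ} (h : IsTest ρ) (hr : RealV ρ) (p v : ℂ) :
    (fderiv ℝ ρ p v).im = 0 := by
  have hd : HasFDerivAt ρ (fderiv ℝ ρ p) p :=
    (h.1.differentiable (by simp)).differentiableAt.hasFDerivAt
  have h1 : HasFDerivAt (fun z => Complex.imCLM (ρ z)) (Complex.imCLM.comp (fderiv ℝ ρ p)) p :=
    Complex.imCLM.hasFDerivAt.comp p hd
  have h2 : (fun z => Complex.imCLM (ρ z)) = fun _ => (0 : ℝ) := by
    funext z
    exact hr z
  rw [h2] at h1
  have h3 := h1.unique (hasFDerivAt_const (0 : ℝ) p)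
  have h4 := congrArg (fun L : ℂ →L[ℝ] ℝ => L v) h3
  exact h4

lemma pt_bound {ρ : ℂ → ℂ} (hρ : IsTest ρ) (hr : RealV ρ) (Ω : Set ℂ) (z h : ℂ) :
    ‖∫ w in Ω, fderiv ℝ ρ (z - w) h‖ ≤ 2 * ‖h‖ * ‖blk Ω ρ z‖ := by
  set X := ∫ w in Ω, fderiv ℝ ρ (z - w) 1 with hX
  set Y := ∫ w in Ω, fderiv ℝ ρ (z - w) I with hY
  have i1 := int_sub (fd_cont_apply hρ 1) (fd_supp hρ 1) Ω z
  have i2 := int_sub (fd_cont_apply hρ I) (fd_supp hρ I) Ω z
  have e1 : ∫ w in Ω, fderiv ℝ ρ (z - w) h = (h.re : ℂ) * X + (h.im : ℂ) * Y := by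
    rw [hX, hY, ← integral_const_mul, ← integral_const_mul,
      ← integral_add (i1.const_mul _) (i2.const_mul _)]
    refine integral_congr_ae (Filter.Eventually.of_forall fun w => ?_)
    change fderiv ℝ ρ (z - w) h = (h.re : ℂ) * fderiv ℝ ρ (z - w) 1
      + (h.im : ℂ) * fderiv ℝ ρ (z - w) I
    have : h = h.re • (1 : ℂ) + h.im • I := by
      apply Complex.ext <;> simp
    conv_lhs => rw [this]
    rw [map_add, map_smul, map_smul]
    simp
  have e2 : blk Ω ρ z = (1 / 2 : ℂ) * (X + I * Y) := by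
    unfold blk dbar
    rw [hX, hY, ← integral_const_mul I, ← integral_add i1 (i2.const_mul _),
      ← integral_const_mul]
  have x0 : X.im = 0 := by
    have := Complex.imCLM.integral_comp_comm i1
    change _ = X.im at this
    rw [← this]
    simp only [Complex.imCLM_apply, grad_real hρ hr, integral_zero]
  have y0 : Y.im = 0 := by
    have := Complex.imCLM.integral_comp_comm i2
    change _ = Y.im at this
    rw [← this]
    simp only [Complex.imCLM_apply, grad_real hρ hr, integral_zero]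
  have x1 : X = (X.re : ℂ) := by apply Complex.ext <;> simp [x0]
  have y1 : Y = (Y.re : ℂ) := by apply Complex.ext <;> simp [y0]
  rw [e1, e2]
  generalize X.re = x at x1
  generalize Y.re = y at y1
  rw [x1, y1]
  have e3 : (h.re : ℂ) * (x : ℂ) + (h.im : ℂ) * (y : ℂ) = ((h.re * x + h.im * y : ℝ) : ℂ) := by
    push_cast; ring
  rw [e3, Complex.norm_real, Real.norm_eq_abs]
  have e4 : 2 * ‖h‖ * ‖(1 / 2 : ℂ) * ((x : ℂ) + I * (y : ℂ))‖ = ‖h‖ * ‖(x : ℂ) + I * (y : ℂ)‖ := by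
    rw [norm_mul]
    norm_num
    ring
  rw [e4]
  refine abs_le_of_sq_le_sq ?_ (by positivity)
  rw [mul_pow, Complex.sq_norm, Complex.sq_norm, Complex.normSq_apply, Complex.normSq_apply]
  simp only [add_re, ofReal_re, mul_re, I_re, zero_mul, I_im, ofReal_im, mul_zero, sub_zero,
    add_zero, add_im, mul_im, one_mul, zero_add]
  nlinarith [sq_nonneg (h.re * y - h.im * x)]

lemma blk_meas {ρ : ℂ → ℂ} (hρ : IsTest ρ) (Ω : Set ℂ) : Measurable (blk Ω ρ) := by
  have hc : Continuous (dbar ρ) := by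
    unfold dbar
    exact continuous_const.mul ((fd_cont_apply hρ 1).add
      (continuous_const.mul (fd_cont_apply hρ I)))
  have h1 : StronglyMeasurable (fun p : ℂ × ℂ => dbar ρ (p.1 - p.2)) :=
    (hc.comp (continuous_fst.sub continuous_snd)).stronglyMeasurable
  exact (h1.integral_prod_right' (ν := volume.restrict Ω)).measurable

lemma smo_meas {ρ : ℂ → ℂ} (hρ : IsTest ρ) (Ω : Set ℂ) : Measurable (smo Ω ρ) := by
  have h1 : StronglyMeasurable (fun p : ℂ × ℂ => ρ (p.1 - p.2)) :=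
    (hρ.1.continuous.comp (continuous_fst.sub continuous_snd)).stronglyMeasurable
  exact (h1.integral_prod_right' (ν := volume.restrict Ω)).measurable

lemma ftc {ρ : ℂ → ℂ} (hρ : IsTest ρ) (p h : ℂ) :
    ρ (p + h) - ρ p = ∫ t in Set.Ioc (0 : ℝ) 1, fderiv ℝ ρ (p + t * h) h := by
  rw [← intervalIntegral.integral_of_le (zero_le_one)]
  have hd : ∀ t : ℝ, HasDerivAt (fun t : ℝ => ρ (p + t * h)) (fderiv ℝ ρ (p + t * h) h) t := by
    intro t
    have h1 : HasFDerivAt ρ (fderiv ℝ ρ (p + t * h)) (p + t * h) :=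
      (hρ.1.differentiable (by simp)).differentiableAt.hasFDerivAt
    have h2 : HasDerivAt (fun t : ℝ => p + t * h) h t := by
      have h3 : HasDerivAt (fun t : ℝ => (t : ℂ)) 1 t := Complex.ofRealCLM.hasDerivAt
      have h4 := (h3.mul_const h).const_add p
      rwa [one_mul] at h4
    exact h1.comp_hasDerivAt t h2
  have hcont : Continuous (fun t : ℝ => fderiv ℝ ρ (p + t * h) h) :=
    (fd_cont_apply hρ h).comp (continuous_const.add (Complex.continuous_ofReal.mul continuous_const))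
  rw [intervalIntegral.integral_eq_sub_of_hasDerivAt (fun t _ => hd t)
    (hcont.intervalIntegrable _ _)]
  simp

lemma prod_int {ρ : ℂ → ℂ} (hρ : IsTest ρ) (Ω : Set ℂ) (z h : ℂ) :
    Integrable (Function.uncurry fun (w : ℂ) (t : ℝ) => fderiv ℝ ρ (z - w + t * h) h)
      ((volume.restrict Ω).prod (volume.restrict (Set.Ioc (0 : ℝ) 1))) := by
  have hcont : Continuous (Function.uncurry fun (w : ℂ) (t : ℝ) =>
      fderiv ℝ ρ (z - w + t * h) h) := by
    refine (fd_cont_apply hρ h).comp ?_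
    exact (continuous_const.sub continuous_fst).add
      ((Complex.continuous_ofReal.comp continuous_snd).mul continuous_const)
  refine ⟨hcont.aestronglyMeasurable, ?_⟩
  unfold HasFiniteIntegral
  rw [lintegral_prod_symm _ hcont.measurable.enorm.aemeasurable]
  have hb : ∀ t : ℝ, ∫⁻ w in Ω, ‖fderiv ℝ ρ (z - w + t * h) h‖ₑ ≤
      ∫⁻ w, ‖fderiv ℝ ρ w h‖ₑ := by
    intro t
    refine (lintegral_mono' Measure.restrict_le_self le_rfl).trans (le_of_eq ?_)
    have h1 := lintegral_sub_left_eq_self (μ := (volume : Measure ℂ))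
      (fun w => ‖fderiv ℝ ρ w h‖ₑ) (z + t * h)
    rw [← h1]
    refine lintegral_congr fun w => ?_
    congr 3
    ring
  have hfin : ∫⁻ w, ‖fderiv ℝ ρ w h‖ₑ < ⊤ :=
    ((fd_cont_apply hρ h).integrable_of_hasCompactSupport (fd_supp hρ h)).2
  refine lt_of_le_of_lt (lintegral_mono fun t => hb t) ?_
  rw [lintegral_const]
  simp only [MeasurableSet.univ, Measure.restrict_apply, Set.univ_inter, Real.volume_Ioc,
    sub_zero, ENNReal.ofReal_one, mul_one]
  exact hfin

lemma diff_le {ρ : ℂ → ℂ} (hρ : IsTest ρ) (hr : RealV ρ) (Ω : Set ℂ) (z h : ℂ) :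
    ‖smo Ω ρ z - smo Ω ρ (z - h)‖ₑ ≤ ∫⁻ t in Set.Ioc (0 : ℝ) 1,
      ENNReal.ofReal (2 * ‖h‖) * ‖blk Ω ρ (z - h + t * h)‖ₑ := by
  have i1 := int_sub hρ.1.continuous hρ.2 Ω z
  have i2 := int_sub hρ.1.continuous hρ.2 Ω (z - h)
  have e1 : smo Ω ρ z - smo Ω ρ (z - h) =
      ∫ w in Ω, ∫ t in Set.Ioc (0 : ℝ) 1, fderiv ℝ ρ ((z - h) - w + t * h) h := by
    unfold smo
    rw [← integral_sub i1 i2]
    refine integral_congr_ae (Filter.Eventually.of_forall fun w => ?_)
    change ρ (z - w) - ρ (z - h - w) =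
      ∫ t in Set.Ioc (0 : ℝ) 1, fderiv ℝ ρ ((z - h) - w + t * h) h
    rw [← ftc hρ (z - h - w) h]
    congr 2
    ring
  rw [e1, integral_integral_swap (prod_int hρ Ω (z - h) h)]
  refine (enorm_integral_le_lintegral_enorm _).trans (lintegral_mono fun t => ?_)
  have h1 := pt_bound hρ hr Ω (z - h + t * h) h
  have h2 : ∫ w in Ω, fderiv ℝ ρ ((z - h) - w + t * h) h =
      ∫ w in Ω, fderiv ℝ ρ ((z - h + t * h) - w) h := by
    refine integral_congr_ae (Filter.Eventually.of_forall fun w => ?_)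
    change fderiv ℝ ρ ((z - h) - w + t * h) h = fderiv ℝ ρ ((z - h + t * h) - w) h
    congr 2
    ring
  rw [h2]
  rw [← ofReal_norm, ← ofReal_norm, ← ENNReal.ofReal_mul (by positivity)]
  exact ENNReal.ofReal_le_ofReal h1

end B3

open B3 in
theorem stmtB3 : StmtB3 := by
  intro ψ Ω hψ hr hΩ J h
  have hρ := dil_test hψ J
  have hrr := dil_real hr J
  set ρ := dil J ψ with hρdef
  have hchi : Measurable (chi Ω) := by
    unfold chi
    exact measurable_const.indicator hΩ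
  have hchiC : Measurable (fun z => (chi Ω z : ℂ)) := Complex.measurable_ofReal.comp hchi
  have hsmo := smo_meas hρ Ω
  have hblk := blk_meas hρ Ω
  have m1 : Measurable (fun z => ‖(chi Ω z : ℂ) - smo Ω ρ z‖ₑ) := (hchiC.sub hsmo).enorm
  have m2 : Measurable (fun z => ‖smo Ω ρ z - smo Ω ρ (z - h)‖ₑ) :=
    (hsmo.sub (hsmo.comp (measurable_id.sub_const h))).enorm
  have step : shiftN Ω h ≤ ∫⁻ z, (‖(chi Ω z : ℂ) - smo Ω ρ z‖ₑ +
      (‖smo Ω ρ z - smo Ω ρ (z - h)‖ₑ + ‖(chi Ω (z - h) : ℂ) - smo Ω ρ (z - h)‖ₑ)) := by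
    unfold shiftN
    refine lintegral_mono fun z => ?_
    have e1 : ‖chi Ω z - chi Ω (z - h)‖ₑ = ‖(chi Ω z : ℂ) - (chi Ω (z - h) : ℂ)‖ₑ := by
      rw [← ofReal_norm, ← ofReal_norm, ← Complex.ofReal_sub,
        Complex.norm_real]
    have e2 : (chi Ω z : ℂ) - (chi Ω (z - h) : ℂ) = ((chi Ω z : ℂ) - smo Ω ρ z) +
        ((smo Ω ρ z - smo Ω ρ (z - h)) + -((chi Ω (z - h) : ℂ) - smo Ω ρ (z - h))) := by ring
    rw [e1, e2]
    refine (enorm_add_le _ _).trans (add_le_add le_rfl ?_)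
    refine (enorm_add_le _ _).trans (add_le_add le_rfl ?_)
    rw [enorm_neg]
  refine step.trans ?_
  rw [lintegral_add_left m1, lintegral_add_left m2]
  have t1 : ∫⁻ z, ‖(chi Ω (z - h) : ℂ) - smo Ω ρ (z - h)‖ₑ =
      ∫⁻ z, ‖(chi Ω z : ℂ) - smo Ω ρ z‖ₑ :=
    lintegral_sub_right_eq_self (μ := (volume : Measure ℂ))
      (fun z => ‖(chi Ω z : ℂ) - smo Ω ρ z‖ₑ) h
  have t2 : ∫⁻ z, ‖smo Ω ρ z - smo Ω ρ (z - h)‖ₑ ≤ ENNReal.ofReal (2 * ‖h‖) * lpN Ω ψ J := by
    refine (lintegral_mono fun z => diff_le hρ hrr Ω z h).trans ?_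
    rw [lintegral_lintegral_swap]
    · have : ∀ t : ℝ, ∫⁻ z, ENNReal.ofReal (2 * ‖h‖) * ‖blk Ω ρ (z - h + t * h)‖ₑ =
          ENNReal.ofReal (2 * ‖h‖) * lpN Ω ψ J := by
        intro t
        have hm : Measurable (fun z => ‖blk Ω ρ (z - h + t * h)‖ₑ) :=
          (hblk.comp ((measurable_id.sub_const h).add_const (t * h))).enorm
        rw [lintegral_const_mul _ hm]
        congr 1
        unfold lpN
        rw [← hρdef]
        have h1 := lintegral_add_right_eq_self (μ := (volume : Measure ℂ))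
          (fun w => ‖blk Ω ρ w‖ₑ) (t * h - h)
        rw [← h1]
        refine lintegral_congr fun w => ?_
        congr 2
        ring
      simp only [this]
      rw [lintegral_const]
      simp
    · refine Measurable.aemeasurable ?_
      refine Measurable.const_mul (Measurable.enorm (hblk.comp ?_)) _
      exact (measurable_fst.sub_const h).add
        ((Complex.measurable_ofReal.comp measurable_snd).mul_const h)
  rw [t1]
  calc _ ≤ (∫⁻ z, ‖(chi Ω z : ℂ) - smo Ω ρ z‖ₑ) +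
        (ENNReal.ofReal (2 * ‖h‖) * lpN Ω ψ J + ∫⁻ z, ‖(chi Ω z : ℂ) - smo Ω ρ z‖ₑ) := by gcongr
    _ = _ := by ring

end

end Pool.Agent.R263.DB

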