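import Mathlib
import Pool.Agent.R263.DB.Defs

open MeasureTheory Complex Filter Topology
open scoped ContDiff ENNReal NNReal

namespace Pool.Agent.R263.DB

namespace B4

/-- the annuli -/
def W (J : ℕ) : Set ℂ := {h | (2 : ℝ) ^ (-((J : ℝ) + 1)) < ‖h‖ ∧ ‖h‖ ≤ (2 : ℝ) ^ (-(J : ℝ))}

theorem W_meas (J : ℕ) : MeasurableSet (W J) :=
  (measurableSet_lt measurable_const measurable_norm).inter
    (measurableSet_le measurable_norm measurable_const)

theorem W_vol (J : ℕ) : volume (W J) ≤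
    ENNReal.ofReal (Real.pi * (2 : ℝ) ^ (-(2 * (J : ℝ)))) := by
  have h1 : W J ⊆ Metric.closedBall (0 : ℂ) ((2 : ℝ) ^ (-(J : ℝ))) := by
    intro h hh
    rw [mem_closedBall_zero_iff]
    exact hh.2
  refine (measure_mono h1).trans (le_of_eq ?_)
  rw [Complex.volume_closedBall]
  have h2 : (0 : ℝ) ≤ (2 : ℝ) ^ (-(J : ℝ)) := by positivity
  rw [← ENNReal.ofReal_pow h2, mul_comm Real.pi, ENNReal.ofReal_mul (by positivity)]
  congr 1
  · congr 1
    rw [← Real.rpow_natCast, ← Real.rpow_mul (by norm_num)]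
    congr 1
    push_cast
    ring
  · rw [← NNReal.coe_real_pi, ENNReal.ofReal_coe_nnreal]

theorem W_cover (h : ℂ) (h0 : h ≠ 0) (h1 : ‖h‖ ≤ 1) : ∃ J, h ∈ W J := by
  have hp : 0 < ‖h‖ := norm_pos_iff.2 h0
  have hl : 0 ≤ -Real.logb 2 ‖h‖ := by
    have := Real.logb_nonpos (b := 2) (by norm_num) hp.le h1
    linarith
  refine ⟨⌊-Real.logb 2 ‖h‖⌋₊, ?_, ?_⟩
  · have h2 := Nat.lt_floor_add_one (-Real.logb 2 ‖h‖)
    rw [← Real.lt_logb_iff_rpow_lt (by norm_num) hp]
    linarith
  · have h3 := Nat.floor_le hl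
    rw [← Real.logb_le_iff_le_rpow (by norm_num) hp]
    linarith

/-- real powers of `2` in `ℝ≥0∞` -/
noncomputable def e (x : ℝ) : ℝ≥0∞ := ENNReal.ofReal ((2 : ℝ) ^ x)

theorem e_add (x y : ℝ) : e x * e y = e (x + y) := by
  unfold e
  rw [← ENNReal.ofReal_mul (by positivity), ← Real.rpow_add (by norm_num)]

theorem e_pow (x : ℝ) (n : ℕ) : e (x * n) = e x ^ n := by
  unfold e
  rw [← ENNReal.ofReal_pow (by positivity), ← Real.rpow_natCast, ← Real.rpow_mul (by norm_num)]

theorem geo {β : ℝ} (hβ : 0 < β) : ∑' i : ℕ, e (-β * i) ≠ ⊤ := by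
  simp only [e_pow]
  rw [ENNReal.tsum_geometric]
  refine ENNReal.inv_ne_top.2 ?_
  have h1 : e (-β) < 1 := by
    unfold e
    rw [ENNReal.ofReal_lt_one]
    exact Real.rpow_lt_one_of_one_lt_of_neg (by norm_num) (by linarith)
  exact (tsub_pos_of_lt h1).ne'

end B4

open B4 in
/-- Piece B4. -/
theorem stmtB4 : StmtB4 := by
  intro α D c m hα0 hα1 hc hm hD
  set S : ℕ → ℝ≥0∞ := fun J => ∑' i : ℕ, ENNReal.ofReal ((2 : ℝ) ^ (-((J + i : ℕ) : ℝ))) *
      c (J + i) with hS
  set Ac : ℝ≥0∞ := ∑' j : ℕ, ENNReal.ofReal ((2 : ℝ) ^ (-(α * (j : ℝ)))) * c j with hAc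
  set Am : ℝ≥0∞ := ∑' j : ℕ, ENNReal.ofReal ((2 : ℝ) ^ (-(α * (j : ℝ)))) * m j with hAm
  constructor
  · set B : ℕ → ℝ≥0∞ := fun J => e (((J : ℝ) + 1) * (3 - α)) *
      (2 * S J + 2 * (e (-(J : ℝ)) * m J)) with hB
    have hpt : ∀ h ∈ Metric.closedBall (0 : ℂ) 1, ENNReal.ofReal (‖h‖ ^ (α - 3)) * D h ≤
        ∑' J, (W J).indicator (fun _ => B J) h := by
      intro h hh
      by_cases h0 : h = 0
      · rw [h0, norm_zero, Real.zero_rpow (by linarith), ENNReal.ofReal_zero, zero_mul]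
        exact zero_le
      · obtain ⟨J, hJ⟩ := W_cover h h0 (mem_closedBall_zero_iff.1 hh)
        refine le_trans ?_ (ENNReal.le_tsum J)
        rw [Set.indicator_of_mem hJ]
        refine mul_le_mul' ?_ ?_
        · unfold e
          refine ENNReal.ofReal_le_ofReal ?_
          refine (Real.rpow_le_rpow_of_nonpos (by positivity) hJ.1.le (by linarith)).trans
            (le_of_eq ?_)
          rw [← Real.rpow_mul (by norm_num)]
          congr 1
          ring
        · refine (hD J h).trans (add_le_add le_rfl ?_)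
          rw [← mul_assoc]
          refine mul_le_mul' ?_ le_rfl
          unfold e
          rw [ENNReal.ofReal_mul (by norm_num)]
          refine mul_le_mul' (by simp) (ENNReal.ofReal_le_ofReal hJ.2)
    have hK : ∀ J, B J * volume (W J) ≤ ENNReal.ofReal (Real.pi * (2 : ℝ) ^ (3 - α)) *
        (2 * (e ((1 - α) * J) * S J) +
          2 * (ENNReal.ofReal ((2 : ℝ) ^ (-(α * (J : ℝ)))) * m J)) := by
      intro J
      refine (mul_le_mul' le_rfl (W_vol J)).trans (le_of_eq ?_)
      have h1 : ENNReal.ofReal (Real.pi * (2 : ℝ) ^ (-(2 * (J : ℝ)))) =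
          ENNReal.ofReal Real.pi * e (-(2 * (J : ℝ))) :=
        ENNReal.ofReal_mul Real.pi_pos.le
      have h2 : ENNReal.ofReal (Real.pi * (2 : ℝ) ^ (3 - α)) =
          ENNReal.ofReal Real.pi * e (3 - α) := ENNReal.ofReal_mul Real.pi_pos.le
      have h3 : ENNReal.ofReal ((2 : ℝ) ^ (-(α * (J : ℝ)))) = e ((1 - α) * J) * e (-(J : ℝ)) := by
        rw [e_add]
        unfold e
        congr 2
        ring
      have h4 : e (((J : ℝ) + 1) * (3 - α)) * e (-(2 * (J : ℝ))) = e (3 - α) * e ((1 - α) * J) := by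
        rw [e_add, e_add]
        congr 1
        ring
      rw [h1, h2, h3, hB]
      simp only
      calc e (((J : ℝ) + 1) * (3 - α)) * (2 * S J + 2 * (e (-(J : ℝ)) * m J)) *
          (ENNReal.ofReal Real.pi * e (-(2 * (J : ℝ)))) =
          (e (((J : ℝ) + 1) * (3 - α)) * e (-(2 * (J : ℝ)))) * (ENNReal.ofReal Real.pi *
            (2 * S J + 2 * (e (-(J : ℝ)) * m J))) := by ring
        _ = ENNReal.ofReal Real.pi * e (3 - α) * (2 * (e ((1 - α) * J) * S J) +
            2 * (e ((1 - α) * J) * e (-(J : ℝ)) * m J)) := by rw [h4]; ring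
    have hsum : ∑' J, e ((1 - α) * (J : ℕ)) * S J ≤ (∑' i : ℕ, e (-(1 - α) * i)) * Ac := by
      have h1 : ∀ J : ℕ, e ((1 - α) * (J : ℕ)) * S J = ∑' i : ℕ, e (-(1 - α) * i) *
          (ENNReal.ofReal ((2 : ℝ) ^ (-(α * ((J + i : ℕ) : ℝ)))) * c (J + i)) := by
        intro J
        rw [hS]
        simp only
        rw [← ENNReal.tsum_mul_left]
        refine tsum_congr fun i => ?_
        rw [← mul_assoc, ← mul_assoc]
        congr 1
        show e _ * e _ = e _ * e _
        rw [e_add, e_add]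
        congr 1
        push_cast
        ring
      simp only [h1]
      rw [ENNReal.tsum_comm]
      rw [← ENNReal.tsum_mul_right]
      refine ENNReal.tsum_le_tsum fun i => ?_
      rw [ENNReal.tsum_mul_left]
      refine mul_le_mul' le_rfl ?_
      exact ENNReal.tsum_comp_le_tsum_of_injective (f := fun J : ℕ => J + i)
        (fun a b h => by simpa using h)
        (fun j => ENNReal.ofReal ((2 : ℝ) ^ (-(α * (j : ℝ)))) * c j)
    have hfin : ∫⁻ h in Metric.closedBall (0 : ℂ) 1, ENNReal.ofReal (‖h‖ ^ (α - 3)) * D h ≤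
        ENNReal.ofReal (Real.pi * (2 : ℝ) ^ (3 - α)) *
          (2 * ((∑' i : ℕ, e (-(1 - α) * i)) * Ac) + 2 * Am) := by
      calc ∫⁻ h in Metric.closedBall (0 : ℂ) 1, ENNReal.ofReal (‖h‖ ^ (α - 3)) * D h ≤
          ∫⁻ h in Metric.closedBall (0 : ℂ) 1, ∑' J, (W J).indicator (fun _ => B J) h :=
            setLIntegral_mono' Metric.isClosed_closedBall.measurableSet hpt
        _ ≤ ∫⁻ h, ∑' J, (W J).indicator (fun _ => B J) h := setLIntegral_le_lintegral _ _
        _ = ∑' J, B J * volume (W J) := by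
            rw [lintegral_tsum]
            · refine tsum_congr fun J => ?_
              rw [lintegral_indicator_const (W_meas J)]
            · intro J
              exact (measurable_const.indicator (W_meas J)).aemeasurable
        _ ≤ ∑' J : ℕ, ENNReal.ofReal (Real.pi * (2 : ℝ) ^ (3 - α)) *
            (2 * (e ((1 - α) * J) * S J) +
              2 * (ENNReal.ofReal ((2 : ℝ) ^ (-(α * (J : ℝ)))) * m J)) :=
            ENNReal.tsum_le_tsum hK
        _ = ENNReal.ofReal (Real.pi * (2 : ℝ) ^ (3 - α)) *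
            (2 * (∑' J : ℕ, e ((1 - α) * J) * S J) + 2 * Am) := by
            rw [ENNReal.tsum_mul_left, ENNReal.tsum_add, ENNReal.tsum_mul_left,
              ENNReal.tsum_mul_left]
        _ ≤ _ := by
            refine mul_le_mul' le_rfl (add_le_add (mul_le_mul' le_rfl hsum) le_rfl)
    refine ne_top_of_le_ne_top ?_ hfin
    refine ENNReal.mul_ne_top ENNReal.ofReal_ne_top (ENNReal.add_ne_top.2 ⟨?_, ?_⟩)
    · exact ENNReal.mul_ne_top ENNReal.ofNat_ne_top
        (ENNReal.mul_ne_top (geo (by linarith)) hc)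
    · exact ENNReal.mul_ne_top ENNReal.ofNat_ne_top hm
  · have hS0 : S 0 ≠ ⊤ := by
      refine ne_top_of_le_ne_top hc ?_
      rw [hS]
      simp only
      refine ENNReal.tsum_le_tsum fun i => ?_
      rw [zero_add]
      refine mul_le_mul' (ENNReal.ofReal_le_ofReal ?_) le_rfl
      refine Real.rpow_le_rpow_of_exponent_le (by norm_num) ?_
      have hi : (0 : ℝ) ≤ i := Nat.cast_nonneg i
      nlinarith
    have hm0 : m 0 ≠ ⊤ := by
      refine ne_top_of_le_ne_top hm ?_
      refine le_trans ?_ (ENNReal.le_tsum 0)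
      simp
    refine ⟨2 * (S 0).toReal + 2 * (m 0).toReal, by positivity, fun h => ?_⟩
    refine (hD 0 h).trans ?_
    have h1 : 2 * S 0 + ENNReal.ofReal (2 * ‖h‖) * m 0 =
        ENNReal.ofReal (2 * (S 0).toReal + 2 * ‖h‖ * (m 0).toReal) := by
      have h5 : ENNReal.ofReal (2 * (S 0).toReal) = 2 * S 0 := by
        rw [ENNReal.ofReal_mul (by norm_num), ENNReal.ofReal_toReal hS0]
        simp
      have h6 : ENNReal.ofReal (2 * ‖h‖ * (m 0).toReal) = ENNReal.ofReal (2 * ‖h‖) * m 0 := by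
        rw [ENNReal.ofReal_mul (by positivity), ENNReal.ofReal_toReal hm0]
      rw [ENNReal.ofReal_add (by positivity) (by positivity), h5, h6]
    refine (le_of_eq h1).trans (ENNReal.ofReal_le_ofReal ?_)
    have h2 : 0 ≤ (S 0).toReal := ENNReal.toReal_nonneg
    have h3 : 0 ≤ (m 0).toReal := ENNReal.toReal_nonneg
    have h4 := norm_nonneg h
    nlinarith [mul_nonneg h2 h4, mul_nonneg h3 h4]

end Pool.Agent.R263.DB
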