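import Mathlib
import Pool.Agent.R263.DB.Defs

/-!
# Piece B5
-/

open MeasureTheory Complex Filter Topology
open scoped ContDiff ENNReal NNReal

namespace Pool.Agent.R263.DB

noncomputable section

namespace BFive

/-- indicator with values in `ℝ≥0∞` -/
def ind (Ω : Set ℂ) (z : ℂ) : ℝ≥0∞ := Ω.indicator (fun _ => (1 : ℝ≥0∞)) z

lemma ind_meas {Ω : Set ℂ} (h : MeasurableSet Ω) : Measurable (ind Ω) :=
  measurable_const.indicator h

lemma vol_eq {Ω : Set ℂ} (h : MeasurableSet Ω) : volume Ω = ∫⁻ z, ind Ω z := by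
  unfold ind
  rw [lintegral_indicator h]
  simp

lemma vol_ball (Ω : Set ℂ) (h : MeasurableSet Ω) (z : ℂ) (ρ : ℝ) :
    volume (Ω ∩ Metric.ball z ρ) = ∫⁻ h in Metric.ball (0 : ℂ) ρ, ind Ω (z - h) := by
  rw [vol_eq (h.inter measurableSet_ball), ← lintegral_sub_left_eq_self _ z,
    ← lintegral_indicator measurableSet_ball]
  refine lintegral_congr fun x => ?_
  unfold ind
  by_cases hx : x ∈ Metric.ball (0 : ℂ) ρ
  · have h2 : z - x ∈ Metric.ball z ρ := by
      simpa [Metric.mem_ball, dist_eq_norm] using hx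
    rw [Set.indicator_of_mem hx]
    by_cases h3 : z - x ∈ Ω
    · rw [Set.indicator_of_mem (show z - x ∈ Ω ∩ Metric.ball z ρ from ⟨h3, h2⟩),
        Set.indicator_of_mem h3]
    · rw [Set.indicator_of_notMem (fun hh => h3 hh.1), Set.indicator_of_notMem h3]
  · have h2 : z - x ∉ Metric.ball z ρ := by
      simpa [Metric.mem_ball, dist_eq_norm] using hx
    rw [Set.indicator_of_notMem hx, Set.indicator_of_notMem (fun hh => h2 hh.2)]

lemma compl_le (Ω : Set ℂ) (z w : ℂ) (hz : z ∈ Ω) :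
    ind Ωᶜ w ≤ ‖chi Ω z - chi Ω w‖ₑ := by
  unfold ind chi
  rw [Set.indicator_of_mem hz]
  by_cases h : w ∈ Ω
  · rw [Set.indicator_of_notMem (by simpa using h)]
    exact zero_le
  · rw [Set.indicator_of_mem (by simpa using h), Set.indicator_of_notMem h]
    simp

lemma ind_le (Ω : Set ℂ) (z w : ℂ) : ind Ω w ≤ ind Ω z + ‖chi Ω z - chi Ω w‖ₑ := by
  unfold ind chi
  by_cases h : w ∈ Ω <;> by_cases h' : z ∈ Ω <;> simp [h, h']

lemma L1 (Ω : Set ℂ) (hΩ : MeasurableSet Ω) (ρ : ℝ) :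
    ∫⁻ z in Ω, volume (Ωᶜ ∩ Metric.ball z ρ) ≤ ∫⁻ h in Metric.ball (0 : ℂ) ρ, shiftN Ω h := by
  simp_rw [vol_ball Ωᶜ hΩ.compl]
  rw [lintegral_lintegral_swap]
  · refine lintegral_mono fun h => ?_
    unfold shiftN
    calc ∫⁻ z in Ω, ind Ωᶜ (z - h) ≤ ∫⁻ z in Ω, ‖chi Ω z - chi Ω (z - h)‖ₑ :=
          setLIntegral_mono' hΩ fun z hz => compl_le Ω z (z - h) hz
      _ ≤ ∫⁻ z, ‖chi Ω z - chi Ω (z - h)‖ₑ := setLIntegral_le_lintegral _ _
  · exact ((ind_meas hΩ.compl).comp (measurable_fst.sub measurable_snd)).aemeasurable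

lemma L2 (Ω : Set ℂ) (hΩ : MeasurableSet Ω) (C ρ : ℝ) (hC : 0 ≤ C)
    (h : ∀ h, shiftN Ω h ≤ ENNReal.ofReal (C * (1 + ‖h‖))) :
    ∫⁻ z in Ω, volume (Ωᶜ ∩ Metric.ball z ρ) ≤
      ENNReal.ofReal (C * (1 + ρ)) * volume (Metric.ball (0 : ℂ) ρ) := by
  refine (L1 Ω hΩ ρ).trans ?_
  calc ∫⁻ h in Metric.ball (0 : ℂ) ρ, shiftN Ω h
      ≤ ∫⁻ _ in Metric.ball (0 : ℂ) ρ, ENNReal.ofReal (C * (1 + ρ)) := by
        refine setLIntegral_mono' measurableSet_ball fun x hx => (h x).trans ?_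
        refine ENNReal.ofReal_le_ofReal (mul_le_mul_of_nonneg_left ?_ hC)
        have : ‖x‖ < ρ := by simpa using hx
        linarith
    _ = _ := by rw [setLIntegral_const]

lemma shift_compl (Ω : Set ℂ) (h : ℂ) : shiftN Ωᶜ h = shiftN Ω h := by
  unfold shiftN
  refine lintegral_congr fun z => ?_
  have h1 : ∀ w, chi Ωᶜ w = 1 - chi Ω w := by
    intro w
    unfold chi
    by_cases hw : w ∈ Ω <;> simp [hw]
  rw [h1, h1, show (1 - chi Ω z - (1 - chi Ω (z - h))) = -(chi Ω z - chi Ω (z - h)) by ring,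
    enorm_neg]

lemma fin_ball (Ω : Set ℂ) (a : ℂ) (R : ℝ) : volume (Ω ∩ Metric.ball a R) ≠ ⊤ :=
  ((measure_mono Set.inter_subset_right).trans_lt measure_ball_lt_top).ne

lemma prod_le (Ω : Set ℂ) (hΩ : MeasurableSet Ω) (C R : ℝ) (hC : 0 ≤ C) (hR : 0 < R)
    (h : ∀ h, shiftN Ω h ≤ ENNReal.ofReal (C * (1 + ‖h‖))) (a : ℂ) :
    volume.real (Ω ∩ Metric.ball a R) * volume.real (Ωᶜ ∩ Metric.ball a R) ≤
      C * (1 + 2 * R) * ((2 * R) ^ 2 * Real.pi) := by
  have h1 : volume (Ω ∩ Metric.ball a R) * volume (Ωᶜ ∩ Metric.ball a R) ≤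
      ENNReal.ofReal (C * (1 + 2 * R)) * volume (Metric.ball (0 : ℂ) (2 * R)) := by
    refine le_trans ?_ (L2 Ω hΩ C (2 * R) hC h)
    calc volume (Ω ∩ Metric.ball a R) * volume (Ωᶜ ∩ Metric.ball a R)
        = ∫⁻ _ in Ω ∩ Metric.ball a R, volume (Ωᶜ ∩ Metric.ball a R) := by
          rw [setLIntegral_const, mul_comm]
      _ ≤ ∫⁻ z in Ω ∩ Metric.ball a R, volume (Ωᶜ ∩ Metric.ball z (2 * R)) := by
          refine setLIntegral_mono' (hΩ.inter measurableSet_ball) fun z hz => ?_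
          refine measure_mono (Set.inter_subset_inter_right _ ?_)
          refine Metric.ball_subset_ball' ?_
          have : dist z a < R := hz.2
          rw [dist_comm] at this
          linarith
      _ ≤ ∫⁻ z in Ω, volume (Ωᶜ ∩ Metric.ball z (2 * R)) :=
          lintegral_mono_set Set.inter_subset_left
  have h2 := ENNReal.toReal_mono (by
    refine ENNReal.mul_ne_top ENNReal.ofReal_ne_top measure_ball_lt_top.ne) h1
  rw [ENNReal.toReal_mul, ENNReal.toReal_mul, ENNReal.toReal_ofReal (by positivity),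
    Complex.volume_ball] at h2
  rw [ENNReal.toReal_mul, ENNReal.toReal_pow, ENNReal.toReal_ofReal (by positivity)] at h2
  simpa [Measure.real] using h2

lemma shift_le (Ω : Set ℂ) (hΩ : MeasurableSet Ω) (C R : ℝ) (hC : 0 ≤ C)
    (h : ∀ h, shiftN Ω h ≤ ENNReal.ofReal (C * (1 + ‖h‖))) (a b : ℂ) (hab : dist a b ≤ 1) :
    volume.real (Ω ∩ Metric.ball a R) ≤ volume.real (Ω ∩ Metric.ball b R) + 2 * C := by
  have h1 : volume (Ω ∩ Metric.ball a R) ≤
      volume (Ω ∩ Metric.ball b R) + ENNReal.ofReal (2 * C) := by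
    rw [vol_ball Ω hΩ, vol_ball Ω hΩ]
    calc ∫⁻ x in Metric.ball (0 : ℂ) R, ind Ω (a - x)
        ≤ ∫⁻ x in Metric.ball (0 : ℂ) R,
            (ind Ω (b - x) + ‖chi Ω (b - x) - chi Ω (a - x)‖ₑ) :=
          lintegral_mono fun x => ind_le Ω _ _
      _ = (∫⁻ x in Metric.ball (0 : ℂ) R, ind Ω (b - x)) +
            ∫⁻ x in Metric.ball (0 : ℂ) R, ‖chi Ω (b - x) - chi Ω (a - x)‖ₑ := by
          rw [lintegral_add_left]
          exact (ind_meas hΩ).comp (measurable_const.sub measurable_id)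
      _ ≤ _ := by
          refine add_le_add le_rfl ?_
          calc ∫⁻ x in Metric.ball (0 : ℂ) R, ‖chi Ω (b - x) - chi Ω (a - x)‖ₑ
              ≤ ∫⁻ x, ‖chi Ω (b - x) - chi Ω (a - x)‖ₑ := setLIntegral_le_lintegral _ _
            _ = shiftN Ω (b - a) := by
                unfold shiftN
                rw [← lintegral_sub_left_eq_self (fun z => ‖chi Ω z - chi Ω (z - (b - a))‖ₑ) b]
                refine lintegral_congr fun x => ?_
                rw [show b - x - (b - a) = a - x by ring]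
            _ ≤ ENNReal.ofReal (C * (1 + ‖b - a‖)) := h _
            _ ≤ ENNReal.ofReal (2 * C) := by
                refine ENNReal.ofReal_le_ofReal ?_
                rw [dist_comm, dist_eq_norm] at hab
                nlinarith
  have h2 := ENNReal.toReal_mono (ENNReal.add_ne_top.2 ⟨fin_ball Ω b R, ENNReal.ofReal_ne_top⟩) h1
  rw [ENNReal.toReal_add (fin_ball Ω b R) ENNReal.ofReal_ne_top,
    ENNReal.toReal_ofReal (by positivity)] at h2
  exact h2

/-- If the complement occupies a fixed part of every ball then `Ω` has finite measure. -/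
lemma finite_of (Ω : Set ℂ) (hΩ : MeasurableSet Ω) (C R : ℝ) (hC : 0 ≤ C)
    (h : ∀ h, shiftN Ω h ≤ ENNReal.ofReal (C * (1 + ‖h‖))) (v : ℝ) (hv : 0 < v)
    (hb : ∀ a, v ≤ volume.real (Ωᶜ ∩ Metric.ball a R)) : volume Ω ≠ ⊤ := by
  intro htop
  have h1 : ∫⁻ z in Ω, ENNReal.ofReal v ≤ ∫⁻ z in Ω, volume (Ωᶜ ∩ Metric.ball z R) := by
    refine lintegral_mono fun z => ?_
    rw [ENNReal.ofReal_le_iff_le_toReal (fin_ball Ωᶜ z R)]
    exact hb z
  have h2 := h1.trans (L2 Ω hΩ C R hC h)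
  rw [setLIntegral_const, htop, ENNReal.mul_top (by simpa using hv)] at h2
  exact (ENNReal.mul_ne_top ENNReal.ofReal_ne_top measure_ball_lt_top.ne) (top_le_iff.1 h2)

end BFive

open BFive in
theorem stmtB5 : StmtB5 := by
  intro Ω C hΩ hC h
  set R : ℝ := 64 * C + 1 with hR
  have hR1 : 1 ≤ R := by linarith
  have hR0 : 0 < R := by linarith
  set V : ℝ := R ^ 2 * Real.pi with hV
  have hpi := Real.pi_gt_three
  have hV3 : 3 * R ^ 2 < V := by
    have : 0 < R ^ 2 := by positivity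
    nlinarith
  have hV8 : 8 * C ≤ V := by nlinarith
  have hV0 : 0 < V := by positivity
  have hsum : ∀ a, volume.real (Ω ∩ Metric.ball a R) + volume.real (Ωᶜ ∩ Metric.ball a R) = V := by
    intro a
    have h1 : volume (Ω ∩ Metric.ball a R) + volume (Ωᶜ ∩ Metric.ball a R) =
        volume (Metric.ball a R) := by
      rw [Set.inter_comm Ω, Set.inter_comm Ωᶜ, ← Set.sdiff_eq]
      exact measure_inter_add_sdiff _ hΩ
    have h2 := congrArg ENNReal.toReal h1
    rw [ENNReal.toReal_add (fin_ball Ω a R) (fin_ball Ωᶜ a R), Complex.volume_ball,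
      ENNReal.toReal_mul, ENNReal.toReal_pow, ENNReal.toReal_ofReal hR0.le] at h2
    simpa [Measure.real, hV] using h2
  have hdich : ∀ a, volume.real (Ω ∩ Metric.ball a R) < V / 2 →
      volume.real (Ω ∩ Metric.ball a R) < V / 4 := by
    intro a ha
    by_contra hcon
    push Not at hcon
    have h1 := prod_le Ω hΩ C R hC hR0 h a
    have h2 := hsum a
    have h3 : V / 2 < volume.real (Ωᶜ ∩ Metric.ball a R) := by linarith
    have h4 : V / 4 * (V / 2) ≤ C * (1 + 2 * R) * ((2 * R) ^ 2 * Real.pi) :=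
      (mul_le_mul hcon h3.le (by positivity) (by linarith)).trans h1
    have h5 : C * (1 + 2 * R) * ((2 * R) ^ 2 * Real.pi) = 4 * C * (1 + 2 * R) * V := by
      rw [hV]; ring
    rw [h5] at h4
    have h6 : V * (V / 8) ≤ V * (4 * C * (1 + 2 * R)) := by nlinarith
    have h7 : V / 8 ≤ 4 * C * (1 + 2 * R) := le_of_mul_le_mul_left h6 hV0
    nlinarith
  have hstep : ∀ a b, dist a b ≤ 1 → volume.real (Ω ∩ Metric.ball a R) < V / 2 →
      volume.real (Ω ∩ Metric.ball b R) < V / 2 := by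
    intro a b hab ha
    have h1 := hdich a ha
    have h2 := shift_le Ω hΩ C R hC h b a (by rwa [dist_comm])
    linarith
  have hlc : IsLocallyConstant (fun a => volume.real (Ω ∩ Metric.ball a R) < V / 2) := by
    rw [IsLocallyConstant.iff_eventually_eq]
    intro a
    filter_upwards [Metric.ball_mem_nhds a one_pos] with b hb
    have hb' : dist b a ≤ 1 := le_of_lt hb
    exact propext ⟨hstep b a hb', hstep a b (by rwa [dist_comm])⟩
  have hall : ∀ a, (volume.real (Ω ∩ Metric.ball a R) < V / 2) =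
      (volume.real (Ω ∩ Metric.ball 0 R) < V / 2) := fun a =>
    hlc.apply_eq_of_preconnectedSpace a 0
  by_cases h0 : volume.real (Ω ∩ Metric.ball 0 R) < V / 2
  · left
    refine finite_of Ω hΩ C R hC h (V / 2) (by positivity) fun a => ?_
    have h1 := hsum a
    have h2 : volume.real (Ω ∩ Metric.ball a R) < V / 2 := by rw [hall a]; exact h0
    linarith
  · right
    refine finite_of Ωᶜ hΩ.compl C R hC (fun x => by rw [shift_compl]; exact h x) (V / 2)
      (by positivity) fun a => ?_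
    rw [compl_compl]
    by_contra hcon
    push Not at hcon
    rw [hall a] at hcon
    exact h0 hcon

end

end Pool.Agent.R263.DB
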