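import Mathlib
import Pool.Agent.R263.DB.Defs

open MeasureTheory Complex Filter Topology
open scoped ContDiff ENNReal NNReal

namespace Pool.Agent.R263.DB

noncomputable section

lemma b6_shift {Ω S : Set ℂ} (hS : MeasurableSet S)
    (h : ∀ z w, ‖chi Ω z - chi Ω w‖ₑ ≤ S.indicator (fun _ => (1 : ℝ≥0∞)) z
      + S.indicator (fun _ => (1 : ℝ≥0∞)) w) (t : ℂ) :
    shiftN Ω t ≤ volume S + volume S := by
  unfold shiftN
  have hm : Measurable (S.indicator (fun _ => (1 : ℝ≥0∞))) := measurable_const.indicator hS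
  calc ∫⁻ z, ‖chi Ω z - chi Ω (z - t)‖ₑ
      ≤ ∫⁻ z, (S.indicator (fun _ => (1 : ℝ≥0∞)) z
        + S.indicator (fun _ => (1 : ℝ≥0∞)) (z - t)) := lintegral_mono (fun z => h z (z - t))
    _ = (∫⁻ z, S.indicator (fun _ => (1 : ℝ≥0∞)) z)
        + ∫⁻ z, S.indicator (fun _ => (1 : ℝ≥0∞)) (z - t) := lintegral_add_left hm _
    _ = (∫⁻ z, S.indicator (fun _ => (1 : ℝ≥0∞)) z)
        + ∫⁻ z, S.indicator (fun _ => (1 : ℝ≥0∞)) z := by
          rw [lintegral_sub_right_eq_self (fun z => S.indicator (fun _ => (1 : ℝ≥0∞)) z) t]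
    _ = volume S + volume S := by
          rw [lintegral_indicator hS]; simp

theorem stmtB6 : StmtB6 := by
  intro α Ω hα0 hα1 hΩ hE hV
  obtain ⟨V, hVt, hVb⟩ : ∃ V : ℝ≥0∞, V ≠ ⊤ ∧ ∀ t, shiftN Ω t ≤ V := by
    rcases hV with hV | hV
    · refine ⟨volume Ω + volume Ω, ENNReal.add_ne_top.2 ⟨hV, hV⟩, b6_shift hΩ ?_⟩
      intro z w
      by_cases hz : z ∈ Ω <;> by_cases hw : w ∈ Ω <;> simp [chi, hz, hw]
    · refine ⟨volume Ωᶜ + volume Ωᶜ, ENNReal.add_ne_top.2 ⟨hV, hV⟩, b6_shift hΩ.compl ?_⟩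
      intro z w
      by_cases hz : z ∈ Ω <;> by_cases hw : w ∈ Ω <;> simp [chi, hz, hw]
  have hsplit : shiftEnergy α Ω Set.univ =
      shiftEnergy α Ω (Metric.closedBall (0 : ℂ) 1)
        + shiftEnergy α Ω (Metric.closedBall (0 : ℂ) 1)ᶜ := by
    unfold shiftEnergy
    rw [setLIntegral_univ, lintegral_add_compl _ Metric.isClosed_closedBall.measurableSet]
  rw [hsplit]
  refine ENNReal.add_ne_top.2 ⟨hE, ?_⟩
  have hfin : ∫⁻ x : ℂ, ENNReal.ofReal ((1 + ‖x‖) ^ (-(3 - α))) < ⊤ := by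
    apply finite_integral_one_add_norm
    rw [Complex.finrank_real_complex]
    push_cast
    linarith
  have hle : shiftEnergy α Ω (Metric.closedBall (0 : ℂ) 1)ᶜ ≤
      ENNReal.ofReal ((2 : ℝ) ^ (3 - α)) * (∫⁻ x : ℂ, ENNReal.ofReal ((1 + ‖x‖) ^ (-(3 - α))))
        * V := by
    unfold shiftEnergy
    calc ∫⁻ h in (Metric.closedBall (0 : ℂ) 1)ᶜ, ENNReal.ofReal (‖h‖ ^ (α - 3)) * shiftN Ω h
        ≤ ∫⁻ h in (Metric.closedBall (0 : ℂ) 1)ᶜ,
          ENNReal.ofReal ((2 : ℝ) ^ (3 - α)) * ENNReal.ofReal ((1 + ‖h‖) ^ (-(3 - α))) * V := by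
          apply setLIntegral_mono' Metric.isClosed_closedBall.measurableSet.compl
          intro h hh
          refine mul_le_mul' ?_ (hVb h)
          rw [← ENNReal.ofReal_mul (by positivity)]
          apply ENNReal.ofReal_le_ofReal
          have h1 : 1 < ‖h‖ := by
            simpa [Metric.mem_closedBall, dist_zero_right] using hh
          have h2 : (1 + ‖h‖) ≤ 2 * ‖h‖ := by linarith
          have h3 : (2 * ‖h‖) ^ (-(3 - α)) ≤ (1 + ‖h‖) ^ (-(3 - α)) :=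
            Real.rpow_le_rpow_of_nonpos (by positivity) h2 (by linarith)
          rw [Real.mul_rpow (by norm_num) (by positivity)] at h3
          have h4 : (2 : ℝ) ^ (3 - α) * ((2 : ℝ) ^ (-(3 - α)) * ‖h‖ ^ (-(3 - α)))
              ≤ (2 : ℝ) ^ (3 - α) * (1 + ‖h‖) ^ (-(3 - α)) :=
            mul_le_mul_of_nonneg_left h3 (by positivity)
          rw [← mul_assoc, ← Real.rpow_add (by norm_num : (0:ℝ) < 2)] at h4
          rw [show (3 - α) + -(3 - α) = 0 by ring, Real.rpow_zero, one_mul] at h4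
          rw [show α - 3 = -(3 - α) by ring]
          exact h4
      _ ≤ ∫⁻ h : ℂ,
          ENNReal.ofReal ((2 : ℝ) ^ (3 - α)) * ENNReal.ofReal ((1 + ‖h‖) ^ (-(3 - α))) * V :=
          setLIntegral_le_lintegral _ _
      _ = ENNReal.ofReal ((2 : ℝ) ^ (3 - α))
            * (∫⁻ x : ℂ, ENNReal.ofReal ((1 + ‖x‖) ^ (-(3 - α)))) * V := by
          rw [lintegral_mul_const' _ _ hVt, lintegral_const_mul' _ _ ENNReal.ofReal_ne_top]
  refine ne_top_of_le_ne_top ?_ hle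
  exact ENNReal.mul_ne_top (ENNReal.mul_ne_top ENNReal.ofReal_ne_top hfin.ne) hVt

end

end Pool.Agent.R263.DB
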