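import Mathlib
import Pool.Agent.R263.DB.Defs

/-!
Piece C1 of the project on Hoelder bounds for the d-bar derivative of the indicator of a set:
correlation of a bounded compactly supported function with a test function.
-/

open MeasureTheory Complex Filter Topology
open scoped ContDiff ENNReal NNReal Convolution

namespace Pool.Agent.R263.DB

noncomputable section

namespace CC

/-- the multiplication of `ℂ` as a real bilinear map -/
abbrev mulL : ℂ →L[ℝ] ℂ →L[ℝ] ℂ := ContinuousLinearMap.mul ℝ ℂ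

/-- `ρ(-z)` -/
def rfl' (ρ : ℂ → ℂ) : ℂ → ℂ := fun z => ρ (-z)

lemma rfl'_test {ρ : ℂ → ℂ} (h : IsTest ρ) : IsTest (rfl' ρ) := by
  refine ⟨h.1.comp contDiff_neg, ?_⟩
  exact h.2.comp_homeomorph (Homeomorph.neg ℂ)

lemma corr_eq (ρ g : ℂ → ℂ) : corr ρ g = (g ⋆[mulL, volume] (rfl' ρ)) := by
  funext z
  simp only [corr, convolution, rfl', mulL, ContinuousLinearMap.mul_apply']
  refine integral_congr_ae (ae_of_all _ fun w => ?_)
  simp only [neg_sub]
  ring

lemma test_cont {ρ : ℂ → ℂ} (h : IsTest ρ) : Continuous ρ := h.1.continuous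

lemma test_int {ρ : ℂ → ℂ} (h : IsTest ρ) : Integrable ρ :=
  h.1.continuous.integrable_of_hasCompactSupport h.2

lemma fderiv_rfl' {ρ : ℂ → ℂ} (h : IsTest ρ) (z v : ℂ) :
    fderiv ℝ (rfl' ρ) z v = - fderiv ℝ ρ (-z) v := by
  have hd : DifferentiableAt ℝ ρ (-z) := (h.1.differentiable (by simp)) (-z)
  have h2 : HasFDerivAt (rfl' ρ) ((fderiv ℝ ρ (-z)).comp (-(ContinuousLinearMap.id ℝ ℂ))) z := by
    have := hd.hasFDerivAt
    exact this.comp z ((hasFDerivAt_id z).neg)
  rw [h2.fderiv]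
  simp

lemma dbar_test {f : ℂ → ℂ} (h : IsTest f) : IsTest (dbar f) := by
  have h1 : ContDiff ℝ ∞ (fderiv ℝ f) := h.1.fderiv_right (by simp)
  refine ⟨?_, ?_⟩
  · have h2 : ContDiff ℝ ∞ (fun z => fderiv ℝ f z 1) := h1.clm_apply contDiff_const
    have h3 : ContDiff ℝ ∞ (fun z => fderiv ℝ f z I) := h1.clm_apply contDiff_const
    exact contDiff_const.mul (h2.add (contDiff_const.mul h3))
  · have h2 := h.2.fderiv_apply ℝ (v := (1 : ℂ))
    have h3 := h.2.fderiv_apply ℝ (v := I)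
    have h4 : HasCompactSupport (fun z => I * fderiv ℝ f z I) := h3.mul_left
    have h5 : HasCompactSupport (fun z => fderiv ℝ f z 1 + I * fderiv ℝ f z I) := h2.add h4
    exact h5.mul_left

lemma int_of_bdd {g : ℂ → ℂ} {B : ℝ} (hg : Measurable g) (hc : HasCompactSupport g)
    (hb : ∀ z, ‖g z‖ ≤ B) : Integrable g := by
  have hK : IsCompact (tsupport g) := hc
  have h1 : IntegrableOn g (tsupport g) := by
    refine IntegrableOn.of_bound hK.measure_lt_top hg.aestronglyMeasurable.restrict B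
      (ae_of_all _ hb)
  rw [integrableOn_iff_integrable_of_support_subset (subset_tsupport g)] at h1
  exact h1

lemma corr_test {ρ g : ℂ → ℂ} {B : ℝ} (hρ : IsTest ρ) (hg : Measurable g)
    (hc : HasCompactSupport g) (hb : ∀ z, ‖g z‖ ≤ B) : IsTest (corr ρ g) := by
  have hi := int_of_bdd hg hc hb
  rw [corr_eq]
  refine ⟨?_, ?_⟩
  · exact (rfl'_test hρ).2.contDiff_convolution_right mulL hi.locallyIntegrable (n := ⊤)
      (rfl'_test hρ).1
  · exact HasCompactSupport.convolution mulL hc (rfl'_test hρ).2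

lemma shift_int {ρ : ℂ → ℂ} (hρ : Integrable ρ) (z : ℂ) : Integrable (fun w => ρ (w - z)) :=
  hρ.comp_sub_right z

lemma corr_int {ρ g : ℂ → ℂ} {B : ℝ} (hρ : Integrable ρ) (hg : Measurable g)
    (hb : ∀ z, ‖g z‖ ≤ B) (z : ℂ) : Integrable (fun w => ρ (w - z) * g w) :=
  (shift_int hρ z).mul_bdd hg.aestronglyMeasurable (ae_of_all _ hb)

lemma corr_bd {ρ g : ℂ → ℂ} {B : ℝ} (hρ : Integrable ρ) (hg : Measurable g)
    (hb : ∀ z, ‖g z‖ ≤ B) (z : ℂ) : ‖corr ρ g z‖ ≤ B * ∫ w, ‖ρ w‖ := by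
  have h1 : ‖corr ρ g z‖ ≤ ∫ w, ‖ρ (w - z) * g w‖ := norm_integral_le_integral_norm _
  have h2 : ∫ w, ‖ρ (w - z) * g w‖ ≤ ∫ w, B * ‖ρ (w - z)‖ := by
    refine integral_mono (corr_int hρ hg hb z).norm ((shift_int hρ z).norm.const_mul B) ?_
    intro w
    simp only [norm_mul]
    nlinarith [hb w, norm_nonneg (ρ (w - z))]
  have h3 : ∫ w, B * ‖ρ (w - z)‖ = B * ∫ w, ‖ρ w‖ := by
    rw [integral_const_mul]
    congr 1
    exact integral_sub_right_eq_self (fun w => ‖ρ w‖) z
  linarith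

lemma fderiv_corr {ρ g : ℂ → ℂ} {B : ℝ} (hρ : IsTest ρ) (hg : Measurable g)
    (hc : HasCompactSupport g) (hb : ∀ z, ‖g z‖ ≤ B) (z v : ℂ) :
    fderiv ℝ (corr ρ g) z v = - ∫ w, fderiv ℝ ρ (w - z) v * g w := by
  have hi := int_of_bdd hg hc hb
  have hr := rfl'_test hρ
  have hr1 : ContDiff ℝ 1 (rfl' ρ) := hr.1.of_le (by simp)
  have h1 := HasCompactSupport.hasFDerivAt_convolution_right mulL (μ := volume) hr.2
    hi.locallyIntegrable hr1 z
  rw [corr_eq, h1.fderiv]
  rw [convolution_precompR_apply mulL hi.locallyIntegrable (hr.2.fderiv ℝ)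
    (hr1.continuous_fderiv (by simp)) z v]
  simp only [convolution, mulL, ContinuousLinearMap.mul_apply']
  rw [← integral_neg]
  refine integral_congr_ae (ae_of_all _ fun w => ?_)
  simp only [fderiv_rfl' hρ, neg_sub]
  ring

lemma fderiv_apply_int {ρ : ℂ → ℂ} (hρ : IsTest ρ) (v : ℂ) :
    Integrable (fun z => fderiv ℝ ρ z v) := by
  have h1 : ContDiff ℝ ∞ (fderiv ℝ ρ) := hρ.1.fderiv_right (by simp)
  have h2 : ContDiff ℝ ∞ (fun z => fderiv ℝ ρ z v) := h1.clm_apply contDiff_const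
  exact h2.continuous.integrable_of_hasCompactSupport (hρ.2.fderiv_apply ℝ (v := v))

lemma dbar_corr {ρ g : ℂ → ℂ} {B : ℝ} (hρ : IsTest ρ) (hg : Measurable g)
    (hc : HasCompactSupport g) (hb : ∀ z, ‖g z‖ ≤ B) (z : ℂ) :
    dbar (corr ρ g) z = - corr (dbar ρ) g z := by
  have i1 := corr_int (fderiv_apply_int hρ 1) hg hb z
  have i2 := corr_int (fderiv_apply_int hρ I) hg hb z
  have e : corr (dbar ρ) g z = (1 / 2 : ℂ) * ((∫ w, fderiv ℝ ρ (w - z) 1 * g w) +
      I * ∫ w, fderiv ℝ ρ (w - z) I * g w) := by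
    rw [← integral_const_mul, ← integral_add i1 (i2.const_mul I), ← integral_const_mul]
    refine integral_congr_ae (ae_of_all _ fun w => ?_)
    simp only [dbar]
    ring
  rw [e]
  simp only [dbar]
  rw [fderiv_corr hρ hg hc hb z 1, fderiv_corr hρ hg hc hb z I]
  ring

lemma diff_test {ρ : ℂ → ℂ} (h : ℂ) (hρ : Integrable ρ) : Integrable (diffOp h ρ) := by
  have h1 : Integrable (fun z => ρ (z + h)) := hρ.comp_add_right h
  exact h1.sub hρ

lemma diff_iter_int {ρ : ℂ → ℂ} (h : ℂ) (hρ : Integrable ρ) (k : ℕ) :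
    Integrable ((diffOp h)^[k] ρ) := by
  induction k generalizing ρ with
  | zero => simpa using hρ
  | succ n ih =>
    rw [Function.iterate_succ]
    exact ih (diff_test h hρ)

lemma diff_corr {ρ g : ℂ → ℂ} {B : ℝ} (hρ : Integrable ρ) (hg : Measurable g)
    (hb : ∀ z, ‖g z‖ ≤ B) (h : ℂ) : diffOp h (corr ρ g) = corr (diffOp (-h) ρ) g := by
  funext z
  simp only [diffOp, corr]
  rw [← integral_sub (corr_int hρ hg hb (z + h)) (corr_int hρ hg hb z)]
  refine integral_congr_ae (ae_of_all _ fun w => ?_)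
  simp only
  rw [show w - (z + h) = w - z + -h by ring]
  ring

lemma diff_iter_corr {ρ g : ℂ → ℂ} {B : ℝ} (hρ : Integrable ρ) (hg : Measurable g)
    (hb : ∀ z, ‖g z‖ ≤ B) (h : ℂ) (k : ℕ) :
    (diffOp h)^[k] (corr ρ g) = corr ((diffOp (-h))^[k] ρ) g := by
  induction k generalizing ρ with
  | zero => simp
  | succ n ih =>
    rw [Function.iterate_succ, Function.iterate_succ, Function.comp_apply, Function.comp_apply,
      diff_corr hρ hg hb h]
    exact ih (diff_test (-h) hρ)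

lemma fubini {ρ g : ℂ → ℂ} {B : ℝ} (hρ : IsTest ρ) (hg : Measurable g)
    (hc : HasCompactSupport g) (hb : ∀ z, ‖g z‖ ≤ B) (Ω : Set ℂ) (_hΩ : MeasurableSet Ω) :
    ∫ z in Ω, dbar (corr ρ g) z = - ∫ w, g w * blk Ω ρ w := by
  have hi := int_of_bdd hg hc hb
  have hd := dbar_test hρ
  have hI : Integrable (fun p : ℂ × ℂ => dbar ρ (p.2 - p.1) * g p.2) (volume.prod volume) := by
    have h := Integrable.convolution_integrand mulL (μ := volume) (ν := volume) hi
      (test_int (rfl'_test hd))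
    refine h.congr (ae_of_all _ fun p => ?_)
    simp only [mulL, rfl', ContinuousLinearMap.mul_apply', neg_sub]
    ring
  have hI2 : Integrable (Function.uncurry fun z w : ℂ => dbar ρ (w - z) * g w)
      ((volume.restrict Ω).prod volume) := by
    have h1 : (volume.restrict Ω).prod (volume : Measure ℂ) =
        ((volume : Measure ℂ).prod volume).restrict (Ω ×ˢ Set.univ) := by
      rw [← Measure.prod_restrict, Measure.restrict_univ]
    rw [h1]
    exact hI.restrict
  calc ∫ z in Ω, dbar (corr ρ g) z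
      = ∫ z in Ω, - ∫ w, dbar ρ (w - z) * g w := by
        refine integral_congr_ae (ae_of_all _ fun z => ?_)
        exact dbar_corr hρ hg hc hb z
    _ = - ∫ z in Ω, ∫ w, dbar ρ (w - z) * g w := by rw [integral_neg]
    _ = - ∫ w, ∫ z in Ω, dbar ρ (w - z) * g w := by rw [integral_integral_swap hI2]
    _ = - ∫ w, g w * blk Ω ρ w := by
        congr 1
        refine integral_congr_ae (ae_of_all _ fun w => ?_)
        simp only [blk]
        rw [integral_mul_const]
        ring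

end CC

theorem stmtC1 : StmtC1 := by
  intro ρ g B hρ hg hc hb
  refine ⟨CC.corr_test hρ hg hc hb, CC.corr_bd (CC.test_int hρ) hg hb,
    fun Ω hΩ => CC.fubini hρ hg hc hb Ω hΩ, ?_, fun z => CC.dbar_corr hρ hg hc hb z⟩
  intro h k z
  rw [CC.diff_iter_corr (CC.test_int hρ) hg hb h k]
  exact CC.corr_bd (CC.diff_iter_int (-h) (CC.test_int hρ) k) hg hb z

end

end Pool.Agent.R263.DB
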