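import Mathlib
import Pool.Agent.R263.DB.Defs

/-!
Piece C2 of the project on Hoelder bounds for the d-bar derivative of the indicator of a set:
commutation of the correlation operators on test functions.
-/

open MeasureTheory Complex Filter Topology
open scoped ContDiff ENNReal NNReal Convolution

namespace Pool.Agent.R263.DB

noncomputable section

namespace CD

/-- the multiplication of `ℂ` as a real bilinear map -/
abbrev mulL : ℂ →L[ℝ] ℂ →L[ℝ] ℂ := ContinuousLinearMap.mul ℝ ℂ

/-- `ρ(-z)` -/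
def rfl' (ρ : ℂ → ℂ) : ℂ → ℂ := fun z => ρ (-z)

lemma rfl'_test {ρ : ℂ → ℂ} (h : IsTest ρ) : IsTest (rfl' ρ) := by
  refine ⟨h.1.comp contDiff_neg, ?_⟩
  exact h.2.comp_homeomorph (Homeomorph.neg ℂ)

lemma test_int {ρ : ℂ → ℂ} (h : IsTest ρ) : Integrable ρ :=
  h.1.continuous.integrable_of_hasCompactSupport h.2

lemma test_bdd {ρ : ℂ → ℂ} (h : IsTest ρ) : ∃ C, ∀ z, ‖ρ z‖ ≤ C :=
  h.1.continuous.bounded_above_of_compact_support h.2

lemma dbar_test {f : ℂ → ℂ} (h : IsTest f) : IsTest (dbar f) := by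
  have h1 : ContDiff ℝ ∞ (fderiv ℝ f) := h.1.fderiv_right (by simp)
  refine ⟨?_, ?_⟩
  · have h2 : ContDiff ℝ ∞ (fun z => fderiv ℝ f z 1) := h1.clm_apply contDiff_const
    have h3 : ContDiff ℝ ∞ (fun z => fderiv ℝ f z I) := h1.clm_apply contDiff_const
    exact contDiff_const.mul (h2.add (contDiff_const.mul h3))
  · have h2 := h.2.fderiv_apply ℝ (v := (1 : ℂ))
    have h3 := h.2.fderiv_apply ℝ (v := I)
    have h4 : HasCompactSupport (fun z => I * fderiv ℝ f z I) := h3.mul_left
    have h5 : HasCompactSupport (fun z => fderiv ℝ f z 1 + I * fderiv ℝ f z I) := h2.add h4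
    exact h5.mul_left

lemma corr_shift (φ f : ℂ → ℂ) (z : ℂ) : corr φ f z = ∫ a, φ a * f (z + a) := by
  rw [corr, ← integral_sub_right_eq_self (fun a => φ a * f (z + a)) z]
  refine integral_congr_ae (ae_of_all _ fun w => ?_)
  simp only [add_sub_cancel]

lemma corr_conv (φ f : ℂ → ℂ) : corr φ f = ((rfl' φ) ⋆[mulL, volume] f) := by
  funext z
  rw [corr_shift]
  simp only [convolution, rfl', mulL, ContinuousLinearMap.mul_apply']
  rw [← integral_neg_eq_self (fun a => φ a * f (z + a)) volume]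
  refine integral_congr_ae (ae_of_all _ fun w => ?_)
  simp only [sub_eq_add_neg]

lemma comm {φ ψ f : ℂ → ℂ} (hφ : IsTest φ) (hψ : IsTest ψ) (hf : IsTest f) (z : ℂ) :
    corr φ (corr ψ f) z = corr ψ (corr φ f) z := by
  have hI : Integrable (Function.uncurry fun a b : ℂ => φ a * ψ b * f (z + a + b))
      (volume.prod volume) := by
    obtain ⟨C, hC⟩ := test_bdd hf
    have h1 : Integrable (fun p : ℂ × ℂ => φ p.1 * ψ p.2) (volume.prod volume) :=
      (test_int hφ).mul_prod (test_int hψ)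
    have h2 : Continuous (fun p : ℂ × ℂ => f (z + p.1 + p.2)) :=
      hf.1.continuous.comp (by fun_prop)
    exact h1.mul_bdd h2.aestronglyMeasurable (c := C) (ae_of_all _ fun p => hC _)
  have e1 : corr φ (corr ψ f) z = ∫ a, ∫ b, φ a * ψ b * f (z + a + b) := by
    rw [corr_shift]
    refine integral_congr_ae (ae_of_all _ fun a => ?_)
    simp only
    rw [corr_shift, ← integral_const_mul]
    refine integral_congr_ae (ae_of_all _ fun b => ?_)
    simp only
    ring
  have e2 : corr ψ (corr φ f) z = ∫ b, ∫ a, φ a * ψ b * f (z + a + b) := by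
    rw [corr_shift]
    refine integral_congr_ae (ae_of_all _ fun b => ?_)
    simp only
    rw [corr_shift, ← integral_const_mul]
    refine integral_congr_ae (ae_of_all _ fun a => ?_)
    simp only
    rw [show z + b + a = z + a + b by ring]
    ring
  rw [e1, e2, integral_integral_swap hI]

lemma fderiv_corr {φ f : ℂ → ℂ} (hφ : IsTest φ) (hf : IsTest f) (z v : ℂ) :
    fderiv ℝ (corr φ f) z v = corr φ (fun w => fderiv ℝ f w v) z := by
  have hi := (test_int (rfl'_test hφ)).locallyIntegrable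
  have hf1 : ContDiff ℝ 1 f := hf.1.of_le (by simp)
  have h1 := HasCompactSupport.hasFDerivAt_convolution_right mulL (μ := volume) hf.2 hi hf1 z
  rw [corr_conv, h1.fderiv, convolution_precompR_apply mulL hi (hf.2.fderiv ℝ)
    (hf1.continuous_fderiv (by simp)) z v, corr_conv]

lemma fderiv_apply_test {ρ : ℂ → ℂ} (hρ : IsTest ρ) (v : ℂ) :
    IsTest (fun z => fderiv ℝ ρ z v) := by
  have h1 : ContDiff ℝ ∞ (fderiv ℝ ρ) := hρ.1.fderiv_right (by simp)
  have h2 : ContDiff ℝ ∞ (fun z => fderiv ℝ ρ z v) := h1.clm_apply contDiff_const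
  exact ⟨h2, hρ.2.fderiv_apply ℝ (v := v)⟩

lemma corr_int {φ f : ℂ → ℂ} (hφ : IsTest φ) (hf : IsTest f) (z : ℂ) :
    Integrable (fun a => φ a * f (z + a)) := by
  obtain ⟨C, hC⟩ := test_bdd hf
  have h2 : Continuous (fun a : ℂ => f (z + a)) := hf.1.continuous.comp (by fun_prop)
  exact (test_int hφ).mul_bdd h2.aestronglyMeasurable (c := C) (ae_of_all _ fun p => hC _)

lemma dbar_corr {φ f : ℂ → ℂ} (hφ : IsTest φ) (hf : IsTest f) (z : ℂ) :
    dbar (corr φ f) z = corr φ (dbar f) z := by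
  have i1 := corr_int hφ (fderiv_apply_test hf 1) z
  have i2 := corr_int hφ (fderiv_apply_test hf I) z
  have e : corr φ (dbar f) z = (1 / 2 : ℂ) * ((∫ a, φ a * fderiv ℝ f (z + a) 1) +
      I * ∫ a, φ a * fderiv ℝ f (z + a) I) := by
    rw [← integral_const_mul, ← integral_add i1 (i2.const_mul I), ← integral_const_mul,
      corr_shift]
    refine integral_congr_ae (ae_of_all _ fun w => ?_)
    simp only [dbar]
    ring
  rw [e]
  simp only [dbar]
  rw [fderiv_corr hφ hf z 1, fderiv_corr hφ hf z I, corr_shift, corr_shift]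

end CD

theorem stmtC2 : StmtC2 := by
  intro φ ψ f hφ hψ hf
  refine ⟨funext fun z => CD.comm hφ hψ hf z, CD.corr_shift φ f,
    fun z => CD.dbar_corr hφ hf z, CD.dbar_test hf⟩

end

end Pool.Agent.R263.DB
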