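import Mathlib
import Pool.Agent.R263.DB.Defs

open MeasureTheory Complex Filter Topology
open scoped ContDiff ENNReal NNReal

namespace Pool.Agent.R263.DB

noncomputable section

namespace Nec

lemma isTest_dil (L : ℕ) {φ : ℂ → ℂ} (hφ : IsTest φ) : IsTest (dil L φ) := by
  obtain ⟨h1, h2⟩ := hφ
  refine ⟨?_, ?_⟩
  · unfold dil
    exact contDiff_const.mul (h1.comp (contDiff_const.mul contDiff_id))
  · have hne : (2 : ℂ) ^ L ≠ 0 := pow_ne_zero _ two_ne_zero
    have h3 : HasCompactSupport (φ ∘ (Homeomorph.mulLeft₀ ((2 : ℂ) ^ L) hne)) :=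
      h2.comp_homeomorph _
    unfold dil
    exact h3.mul_left

lemma isTest_zero : IsTest (fun _ : ℂ => (0 : ℂ)) :=
  ⟨contDiff_const, HasCompactSupport.zero⟩

lemma isTest_smul (c : ℂ) {f : ℂ → ℂ} (hf : IsTest f) : IsTest (fun z => c * f z) :=
  ⟨contDiff_const.mul hf.1, hf.2.mul_left⟩

lemma isTest_add {f g : ℂ → ℂ} (hf : IsTest f) (hg : IsTest g) :
    IsTest (fun z => f z + g z) := ⟨hf.1.add hg.1, hf.2.add hg.2⟩

lemma isTest_sum (F : ℕ → ℂ → ℂ) (hF : ∀ j, IsTest (F j)) (J : ℕ) :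
    IsTest (fun z => ∑ j ∈ Finset.range J, F j z) := by
  induction J with
  | zero => simpa using isTest_zero
  | succ J ih =>
    simp_rw [Finset.sum_range_succ]
    exact isTest_add ih (hF J)

lemma dbar_add {f g : ℂ → ℂ} (hf : IsTest f) (hg : IsTest g) (z : ℂ) :
    dbar (fun z => f z + g z) z = dbar f z + dbar g z := by
  have d1 : DifferentiableAt ℝ f z := hf.1.differentiable (by simp) z
  have d2 : DifferentiableAt ℝ g z := hg.1.differentiable (by simp) z
  unfold dbar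
  rw [fderiv_fun_add d1 d2]
  simp only [_root_.add_apply]
  ring

lemma dbar_smul (c : ℂ) {f : ℂ → ℂ} (hf : IsTest f) (z : ℂ) :
    dbar (fun z => c * f z) z = c * dbar f z := by
  have d1 : DifferentiableAt ℝ f z := hf.1.differentiable (by simp) z
  unfold dbar
  rw [fderiv_const_mul d1]
  simp only [_root_.smul_apply, smul_eq_mul]
  ring

lemma dbar_sum (F : ℕ → ℂ → ℂ) (hF : ∀ j, IsTest (F j)) (J : ℕ) (z : ℂ) :
    dbar (fun z => ∑ j ∈ Finset.range J, F j z) z = ∑ j ∈ Finset.range J, dbar (F j) z := by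
  induction J with
  | zero => simp [dbar]
  | succ J ih =>
    simp_rw [Finset.sum_range_succ]
    rw [dbar_add (isTest_sum F hF J) (hF J), ih]

lemma continuous_dbar {f : ℂ → ℂ} (hf : IsTest f) : Continuous (dbar f) := by
  have h1 : Continuous (fderiv ℝ f) := hf.1.continuous_fderiv (by simp)
  unfold dbar
  fun_prop

lemma compact_dbar {f : ℂ → ℂ} (hf : IsTest f) : HasCompactSupport (dbar f) := by
  have h1 : HasCompactSupport (fderiv ℝ f) := hf.2.fderiv (𝕜 := ℝ)
  refine h1.mono ?_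
  intro z hz
  rw [Function.mem_support] at hz ⊢
  intro h0
  apply hz
  unfold dbar
  rw [h0]
  simp

lemma integrable_dbar {f : ℂ → ℂ} (hf : IsTest f) : Integrable (dbar f) :=
  (continuous_dbar hf).integrable_of_hasCompactSupport (compact_dbar hf)

lemma diffOp_iter_sum (F : ℕ → ℂ → ℂ) (J : ℕ) (h : ℂ) (k : ℕ) :
    (diffOp h)^[k] (fun z => ∑ j ∈ Finset.range J, F j z) =
      fun z => ∑ j ∈ Finset.range J, (diffOp h)^[k] (F j) z := by
  induction k with
  | zero => rfl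
  | succ k ih =>
    rw [Function.iterate_succ_apply', ih]
    ext z
    simp only [Function.iterate_succ_apply']
    unfold diffOp
    rw [← Finset.sum_sub_distrib]

lemma diffOp_iter_smul (c : ℂ) (f : ℂ → ℂ) (h : ℂ) (k : ℕ) :
    (diffOp h)^[k] (fun z => c * f z) = fun z => c * (diffOp h)^[k] f z := by
  induction k with
  | zero => rfl
  | succ k ih =>
    rw [Function.iterate_succ_apply', ih]
    ext z
    simp only [Function.iterate_succ_apply']
    unfold diffOp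
    ring

lemma measurable_blk (Ω : Set ℂ) {ρ : ℂ → ℂ} (hρ : IsTest ρ) : StronglyMeasurable (blk Ω ρ) := by
  have hc : Continuous (Function.uncurry fun (z w : ℂ) => dbar ρ (z - w)) := by
    have := continuous_dbar hρ
    exact this.comp (by fun_prop)
  exact StronglyMeasurable.integral_prod_right (ν := volume.restrict Ω)
    (f := fun (z w : ℂ) => dbar ρ (z - w)) hc.stronglyMeasurable

lemma bound_blk (Ω : Set ℂ) {ρ : ℂ → ℂ} (hρ : IsTest ρ) (z : ℂ) :
    ‖blk Ω ρ z‖ ≤ ∫ w, ‖dbar ρ w‖ := by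
  have hi : Integrable (fun w => dbar ρ (z - w)) := (integrable_dbar hρ).comp_sub_left z
  unfold blk
  calc ‖∫ w in Ω, dbar ρ (z - w)‖ ≤ ∫ w in Ω, ‖dbar ρ (z - w)‖ := norm_integral_le_integral_norm _
    _ ≤ ∫ w, ‖dbar ρ (z - w)‖ :=
      setIntegral_le_integral hi.norm (Filter.Eventually.of_forall fun _ => norm_nonneg _)
    _ = ∫ w, ‖dbar ρ w‖ := integral_sub_left_eq_self (fun w => ‖dbar ρ w‖) volume z

/-- the unimodular weight -/
def gw (Ω : Set ℂ) (ρ : ℂ → ℂ) (R : ℝ) : ℂ → ℂ :=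
  (Metric.closedBall (0 : ℂ) R).indicator
    (fun w => (starRingEnd ℂ) (blk Ω ρ w) / (‖blk Ω ρ w‖ : ℂ))

lemma measurable_gw (Ω : Set ℂ) {ρ : ℂ → ℂ} (hρ : IsTest ρ) (R : ℝ) : Measurable (gw Ω ρ R) := by
  have h := (measurable_blk Ω hρ).measurable
  unfold gw
  refine Measurable.indicator ?_ measurableSet_closedBall
  refine Measurable.div ?_ ?_
  · exact Complex.continuous_conj.measurable.comp h
  · exact Complex.measurable_ofReal.comp h.norm

lemma compact_gw (Ω : Set ℂ) (ρ : ℂ → ℂ) (R : ℝ) : HasCompactSupport (gw Ω ρ R) := by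
  refine HasCompactSupport.intro (isCompact_closedBall (0 : ℂ) R) ?_
  intro x hx
  exact Set.indicator_of_notMem hx _

lemma norm_gw (Ω : Set ℂ) (ρ : ℂ → ℂ) (R : ℝ) (z : ℂ) : ‖gw Ω ρ R z‖ ≤ 1 := by
  unfold gw
  by_cases hz : z ∈ Metric.closedBall (0 : ℂ) R
  · rw [Set.indicator_of_mem hz, norm_div, RCLike.norm_conj, Complex.norm_real, norm_norm]
    exact div_self_le_one _
  · rw [Set.indicator_of_notMem hz]; simp

lemma gw_mul (Ω : Set ℂ) (ρ : ℂ → ℂ) (R : ℝ) (z : ℂ) :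
    gw Ω ρ R z * blk Ω ρ z =
      (Metric.closedBall (0 : ℂ) R).indicator (fun w => ((‖blk Ω ρ w‖ : ℝ) : ℂ)) z := by
  unfold gw
  by_cases hz : z ∈ Metric.closedBall (0 : ℂ) R
  · rw [Set.indicator_of_mem hz, Set.indicator_of_mem hz]
    by_cases h0 : blk Ω ρ z = 0
    · simp [h0]
    · have : ((‖blk Ω ρ z‖ : ℝ) : ℂ) ≠ 0 := by
        rw [Ne, Complex.ofReal_eq_zero, norm_eq_zero]; exact h0
      rw [div_mul_eq_mul_div, mul_comm, Complex.mul_conj, Complex.normSq_eq_norm_sq]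
      rw [div_eq_iff this]
      push_cast
      ring
  · rw [Set.indicator_of_notMem hz, Set.indicator_of_notMem hz]; simp

lemma integral_gw_mul (Ω : Set ℂ) (ρ : ℂ → ℂ) (R : ℝ) :
    ∫ w, gw Ω ρ R w * blk Ω ρ w =
      ((∫ w in Metric.closedBall (0 : ℂ) R, ‖blk Ω ρ w‖ : ℝ) : ℂ) := by
  simp_rw [gw_mul]
  rw [integral_indicator measurableSet_closedBall]
  exact integral_ofReal

end Nec

open Nec in
theorem stmtN (hC : StmtC1) (h1 : StmtN1) (h2 : StmtN2) : StmtN := by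
  intro α k Ω ρ hα hαk hΩ hρ hAdm
  obtain ⟨C0, hC0, hA⟩ := hAdm
  obtain ⟨C1, hC1, hN1⟩ := h1 ρ k hρ
  obtain ⟨C1', hC1', hN1'⟩ := h1 ρ 0 hρ
  obtain ⟨C2, hC2, hN2⟩ := h2 α k hα hαk
  have hw0 : ∀ j : ℕ, (0 : ℝ) ≤ (2 : ℝ) ^ (-(α * (j : ℝ))) := fun j => by positivity
  -- sum of weights
  have hsumw : ∀ J : ℕ, ∑ j ∈ Finset.range J, (2 : ℝ) ^ (-(α * (j : ℝ))) ≤ C2 := by
    intro J
    have := hN2 J 1 zero_le_one
    rw [Real.one_rpow, mul_one] at this
    refine le_trans (le_of_eq ?_) this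
    refine Finset.sum_congr rfl fun j _ => ?_
    rw [mul_one, min_eq_left (one_le_pow₀ (one_le_pow₀ (by norm_num))), mul_one]
  have hρ1 : ∀ j : ℕ, ∫ z, ‖dil j ρ z‖ ≤ C1' := by
    intro j
    have := hN1' j 0
    simpa using this
  -- main estimate
  have main : ∀ (J : ℕ) (R : ℝ), ∑ j ∈ Finset.range J, (2 : ℝ) ^ (-(α * (j : ℝ))) *
      ∫ w in Metric.closedBall (0 : ℂ) R, ‖blk Ω (dil j ρ) w‖ ≤ C0 * (C1' * C2 + C1 * C2) := by
    intro J R
    set F : ℕ → ℂ → ℂ := fun j z =>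
      (((2 : ℝ) ^ (-(α * (j : ℝ))) : ℝ) : ℂ) * corr (dil j ρ) (gw Ω (dil j ρ) R) z with hF
    have hCj : ∀ j : ℕ, _ := fun j => hC (dil j ρ) (gw Ω (dil j ρ) R) 1 (isTest_dil j hρ)
      (measurable_gw Ω (isTest_dil j hρ) R) (compact_gw Ω _ R) (norm_gw Ω _ R)
    have hFt : ∀ j, IsTest (F j) := fun j => isTest_smul _ (hCj j).1
    have hf := isTest_sum F hFt J
    have hLip : LipBd α k (fun z => ∑ j ∈ Finset.range J, F j z) (C1' * C2) (C1 * C2) := by
      refine ⟨fun z => ?_, fun h z => ?_⟩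
      · calc ‖∑ j ∈ Finset.range J, F j z‖ ≤ ∑ j ∈ Finset.range J, ‖F j z‖ := norm_sum_le _ _
          _ ≤ ∑ j ∈ Finset.range J, (2 : ℝ) ^ (-(α * (j : ℝ))) * C1' := by
            refine Finset.sum_le_sum fun j _ => ?_
            rw [hF]
            simp only
            rw [norm_mul, Complex.norm_real, Real.norm_of_nonneg (hw0 j)]
            refine mul_le_mul_of_nonneg_left ?_ (hw0 j)
            refine ((hCj j).2.1 z).trans ?_
            rw [one_mul]
            exact hρ1 j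
          _ = (∑ j ∈ Finset.range J, (2 : ℝ) ^ (-(α * (j : ℝ)))) * C1' := by
            rw [Finset.sum_mul]
          _ ≤ C2 * C1' := mul_le_mul_of_nonneg_right (hsumw J) hC1'
          _ = _ := by ring
      · rw [diffOp_iter_sum]
        simp only
        calc ‖∑ j ∈ Finset.range J, (diffOp h)^[k] (F j) z‖
            ≤ ∑ j ∈ Finset.range J, ‖(diffOp h)^[k] (F j) z‖ := norm_sum_le _ _
          _ ≤ ∑ j ∈ Finset.range J, C1 * ((2 : ℝ) ^ (-(α * (j : ℝ))) *
                min 1 (((2 : ℝ) ^ j * ‖h‖) ^ k)) := by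
            refine Finset.sum_le_sum fun j _ => ?_
            have e : (diffOp h)^[k] (F j) = fun z => (((2 : ℝ) ^ (-(α * (j : ℝ))) : ℝ) : ℂ) *
              (diffOp h)^[k] (corr (dil j ρ) (gw Ω (dil j ρ) R)) z := diffOp_iter_smul _ _ _ _
            rw [e]
            simp only
            rw [norm_mul, Complex.norm_real, Real.norm_of_nonneg (hw0 j)]
            have h3 := (hCj j).2.2.2.1 h k z
            rw [one_mul] at h3
            have h4 := hN1 j (-h)
            rw [norm_neg] at h4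
            calc _ ≤ (2 : ℝ) ^ (-(α * (j : ℝ))) * (C1 * min 1 (((2 : ℝ) ^ j * ‖h‖) ^ k)) :=
                  mul_le_mul_of_nonneg_left (h3.trans h4) (hw0 j)
              _ = _ := by ring
          _ = C1 * ∑ j ∈ Finset.range J, ((2 : ℝ) ^ (-(α * (j : ℝ))) *
                min 1 (((2 : ℝ) ^ j * ‖h‖) ^ k)) := by rw [Finset.mul_sum]
          _ ≤ C1 * (C2 * ‖h‖ ^ α) := mul_le_mul_of_nonneg_left (hN2 J ‖h‖ (norm_nonneg _)) hC1
          _ = _ := by ring
    have h5 := hA _ _ _ hf hLip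
    have h6 : ∫ z in Ω, dbar (fun z => ∑ j ∈ Finset.range J, F j z) z =
        - ((∑ j ∈ Finset.range J, (2 : ℝ) ^ (-(α * (j : ℝ))) *
          ∫ w in Metric.closedBall (0 : ℂ) R, ‖blk Ω (dil j ρ) w‖ : ℝ) : ℂ) := by
      have e1 : ∀ z, dbar (fun z => ∑ j ∈ Finset.range J, F j z) z =
          ∑ j ∈ Finset.range J, dbar (F j) z := fun z => dbar_sum F hFt J z
      simp_rw [e1]
      rw [integral_finsetSum _ (fun j _ => (integrable_dbar (hFt j)).integrableOn)]
      rw [Complex.ofReal_sum, ← Finset.sum_neg_distrib]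
      refine Finset.sum_congr rfl fun j _ => ?_
      have e2 : ∀ z, dbar (F j) z = (((2 : ℝ) ^ (-(α * (j : ℝ))) : ℝ) : ℂ) *
          dbar (corr (dil j ρ) (gw Ω (dil j ρ) R)) z := fun z => dbar_smul _ (hCj j).1 z
      simp_rw [e2]
      rw [integral_const_mul, (hCj j).2.2.1 Ω hΩ, integral_gw_mul]
      push_cast
      ring
    rw [h6, norm_neg, Complex.norm_real, Real.norm_of_nonneg] at h5
    · exact h5
    · exact Finset.sum_nonneg fun j _ => mul_nonneg (hw0 j) (integral_nonneg fun _ => norm_nonneg _)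
  -- passage to ENNReal
  have main2 : ∀ (J : ℕ) (R : ℝ), ∑ j ∈ Finset.range J,
      ENNReal.ofReal ((2 : ℝ) ^ (-(α * (j : ℝ)))) *
      ∫⁻ w in Metric.closedBall (0 : ℂ) R, ‖blk Ω (dil j ρ) w‖ₑ ≤
        ENNReal.ofReal (C0 * (C1' * C2 + C1 * C2)) := by
    intro J R
    refine le_trans (le_of_eq ?_) (ENNReal.ofReal_le_ofReal (main J R))
    rw [ENNReal.ofReal_sum_of_nonneg
      (fun j _ => mul_nonneg (hw0 j) (integral_nonneg fun _ => norm_nonneg _))]
    refine Finset.sum_congr rfl fun j _ => ?_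
    rw [ENNReal.ofReal_mul (hw0 j)]
    congr 1
    rw [ofReal_integral_norm_eq_lintegral_enorm]
    refine Measure.integrableOn_of_bounded (M := ∫ w, ‖dbar (dil j ρ) w‖) ?_ ?_ ?_
    · exact measure_closedBall_lt_top.ne
    · exact (measurable_blk Ω (isTest_dil j hρ)).aestronglyMeasurable
    · exact Filter.Eventually.of_forall fun z => bound_blk Ω (isTest_dil j hρ) z
  have hsup : ∀ j : ℕ, lpN Ω ρ j =
      ⨆ R : ℕ, ∫⁻ w in Metric.closedBall (0 : ℂ) (R : ℝ), ‖blk Ω (dil j ρ) w‖ₑ := by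
    intro j
    unfold lpN
    have hdir : Directed (· ⊆ ·) (fun R : ℕ => Metric.closedBall (0 : ℂ) (R : ℝ)) := by
      refine Monotone.directed_le ?_
      intro a b hab
      exact Metric.closedBall_subset_closedBall (by exact_mod_cast hab)
    rw [← setLIntegral_iUnion_of_directed _ hdir, Metric.iUnion_closedBall_nat,
      setLIntegral_univ]
  have hfin : lpSum α Ω ρ ≤ ENNReal.ofReal (C0 * (C1' * C2 + C1 * C2)) := by
    unfold lpSum
    refine ENNReal.tsum_le_of_sum_range_le fun J => ?_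
    have e : ∀ j : ℕ, ENNReal.ofReal ((2 : ℝ) ^ (-(α * (j : ℝ)))) * lpN Ω ρ j =
        ⨆ R : ℕ, ENNReal.ofReal ((2 : ℝ) ^ (-(α * (j : ℝ)))) *
          ∫⁻ w in Metric.closedBall (0 : ℂ) (R : ℝ), ‖blk Ω (dil j ρ) w‖ₑ := by
      intro j
      rw [hsup j, ENNReal.mul_iSup]
    simp_rw [e]
    rw [ENNReal.finsetSum_iSup_of_monotone]
    · exact iSup_le fun R => main2 J R
    · intro j a b hab
      simp only
      gcongr
  exact ne_top_of_le_ne_top ENNReal.ofReal_ne_top hfin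

end

end Pool.Agent.R263.DB
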