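import Mathlib
import Pool.Agent.R263.DB.Defs

/-!
Project DB (MP_d3add2_an), piece N1 (helper711): the L¹ norm of the `k`-th differences of dilated
test functions.
-/

open MeasureTheory Complex Filter Topology
open scoped ContDiff ENNReal NNReal

namespace Pool.Agent.R263.DB

noncomputable section

namespace N1

/-- differences of functions with values in a group -/
def dO {F : Type} [AddCommGroup F] (h : ℂ) (f : ℂ → F) : ℂ → F := fun z => f (z + h) - f z

theorem dO_contDiff {F : Type} [NormedAddCommGroup F] [NormedSpace ℝ F] {f : ℂ → F} {h : ℂ}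
    (hf : ContDiff ℝ ∞ f) : ContDiff ℝ ∞ (dO h f) :=
  (hf.comp (contDiff_id.add contDiff_const)).sub hf

theorem dO_iter_contDiff {F : Type} [NormedAddCommGroup F] [NormedSpace ℝ F] {f : ℂ → F} {h : ℂ}
    (hf : ContDiff ℝ ∞ f) (k : ℕ) : ContDiff ℝ ∞ ((dO h)^[k] f) := by
  induction k with
  | zero => exact hf
  | succ k ih => rw [Function.iterate_succ_apply']; exact dO_contDiff ih

theorem fderiv_dO {F : Type} [NormedAddCommGroup F] [NormedSpace ℝ F] {f : ℂ → F} {h : ℂ}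
    (hf : ContDiff ℝ ∞ f) : fderiv ℝ (dO h f) = dO h (fderiv ℝ f) := by
  have hd : Differentiable ℝ f := hf.differentiable (by simp)
  have hd2 : Differentiable ℝ fun z => f (z + h) :=
    hd.comp (differentiable_id.add (differentiable_const h))
  funext z
  have h1 : dO h f = fun z => f (z + h) - f z := rfl
  rw [h1, fderiv_fun_sub (hd2 z) (hd z), fderiv_comp_add_right]
  rfl

theorem fderiv_iter {F : Type} [NormedAddCommGroup F] [NormedSpace ℝ F] {f : ℂ → F} {h : ℂ}
    (hf : ContDiff ℝ ∞ f) (k : ℕ) :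
    fderiv ℝ ((dO h)^[k] f) = (dO h)^[k] (fderiv ℝ f) := by
  induction k with
  | zero => rfl
  | succ k ih =>
    rw [Function.iterate_succ_apply', Function.iterate_succ_apply',
      fderiv_dO (dO_iter_contDiff hf k), ih]

theorem sup_bd (k : ℕ) : ∀ (F : Type) [NormedAddCommGroup F] [NormedSpace ℝ F] (f : ℂ → F),
    ContDiff ℝ ∞ f → HasCompactSupport f →
    ∃ C : ℝ, 0 ≤ C ∧ ∀ h z, ‖(dO h)^[k] f z‖ ≤ C * ‖h‖ ^ k := by
  induction k with
  | zero =>
    intro F _ _ f hf hc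
    obtain ⟨C, hC⟩ := hc.exists_bound_of_continuous hf.continuous
    refine ⟨C, (norm_nonneg _).trans (hC 0), fun h z => ?_⟩
    rw [pow_zero, mul_one]
    exact hC z
  | succ k ih =>
    intro F _ _ f hf hc
    obtain ⟨C, hC0, hC⟩ := ih (ℂ →L[ℝ] F) (fderiv ℝ f) (hf.fderiv_right (by simp)) (hc.fderiv ℝ)
    refine ⟨C, hC0, fun h z => ?_⟩
    rw [Function.iterate_succ_apply']
    have hG : Differentiable ℝ ((dO h)^[k] f) := (dO_iter_contDiff hf k).differentiable (by simp)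
    have h1 : ‖(dO h)^[k] f (z + h) - (dO h)^[k] f z‖ ≤ (C * ‖h‖ ^ k) * ‖z + h - z‖ := by
      refine Convex.norm_image_sub_le_of_norm_fderiv_le (𝕜 := ℝ) (s := Set.univ)
        (fun x _ => hG x) (fun x _ => ?_) convex_univ (Set.mem_univ _) (Set.mem_univ _)
      rw [fderiv_iter hf]
      exact hC h x
    rw [add_sub_cancel_left, mul_assoc, ← pow_succ] at h1
    exact h1

theorem diffOp_eq (h : ℂ) : (diffOp h : (ℂ → ℂ) → ℂ → ℂ) = dO h := rfl

theorem iter_dil (j : ℕ) (ρ : ℂ → ℂ) (h : ℂ) (k : ℕ) (z : ℂ) :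
    (diffOp h)^[k] (dil j ρ) z = (4 : ℂ) ^ j * (diffOp ((2 : ℂ) ^ j * h))^[k] ρ ((2 : ℂ) ^ j * z) := by
  induction k generalizing z with
  | zero => rfl
  | succ k ih =>
    rw [Function.iterate_succ_apply', Function.iterate_succ_apply', diffOp, diffOp, ih, ih, mul_add,
      mul_sub]

theorem supp {f : ℂ → ℂ} {R : ℝ} (hf : ∀ z, R < ‖z‖ → f z = 0) {h : ℂ} (hh : ‖h‖ ≤ 1) (k : ℕ) :
    ∀ z, R + k < ‖z‖ → (diffOp h)^[k] f z = 0 := by
  induction k with
  | zero => intro z hz; exact hf z (by simpa using hz)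
  | succ k ih =>
    intro z hz
    rw [Function.iterate_succ_apply', diffOp]
    push_cast at hz
    have h1 : R + k < ‖z + h‖ := by
      have h2 : ‖z‖ ≤ ‖z + h‖ + ‖h‖ := by
        have h3 := norm_sub_le (z + h) h
        rwa [add_sub_cancel_right] at h3
      linarith
    rw [ih _ h1, ih _ (by linarith), sub_zero]

theorem cont_iter {f : ℂ → ℂ} (hf : Continuous f) (h : ℂ) (k : ℕ) :
    Continuous ((diffOp h)^[k] f) := by
  induction k with
  | zero => exact hf
  | succ k ih =>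
    rw [Function.iterate_succ_apply']
    exact (ih.comp (continuous_id.add continuous_const)).sub ih

theorem intg_iter {f : ℂ → ℂ} (hf : Integrable f) (h : ℂ) (k : ℕ) :
    Integrable ((diffOp h)^[k] f) ∧ ∫ z, ‖(diffOp h)^[k] f z‖ ≤ 2 ^ k * ∫ z, ‖f z‖ := by
  induction k with
  | zero => exact ⟨hf, by simp⟩
  | succ k ih =>
    obtain ⟨h1, h2⟩ := ih
    rw [Function.iterate_succ_apply']
    have h3 : Integrable fun z => (diffOp h)^[k] f (z + h) := h1.comp_add_right h
    refine ⟨h3.sub h1, ?_⟩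
    have h4 : ∫ z, ‖diffOp h ((diffOp h)^[k] f) z‖ ≤
        ∫ z, (‖(diffOp h)^[k] f (z + h)‖ + ‖(diffOp h)^[k] f z‖) :=
      integral_mono (h3.sub h1).norm (h3.norm.add h1.norm) fun z => norm_sub_le _ _
    rw [integral_add h3.norm h1.norm,
      integral_add_right_eq_self (fun z => ‖(diffOp h)^[k] f z‖) h] at h4
    rw [pow_succ]
    linarith

end N1

open N1 in
theorem stmtN1 : StmtN1 := by
  intro ρ k hρ
  obtain ⟨C, hC0, hC⟩ := sup_bd k ℂ ρ hρ.1 hρ.2
  have hρi : Integrable ρ := hρ.1.continuous.integrable_of_hasCompactSupport hρ.2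
  obtain ⟨R, hR⟩ : ∃ R : ℝ, ∀ z, R < ‖z‖ → ρ z = 0 := by
    obtain ⟨R, hR⟩ := hρ.2.isCompact.isBounded.subset_closedBall (0 : ℂ)
    refine ⟨R, fun z hz => ?_⟩
    by_contra h0
    have := hR (subset_tsupport _ (Function.mem_support.2 h0))
    rw [mem_closedBall_zero_iff] at this
    linarith
  set W : ℝ := volume.real (Metric.closedBall (0 : ℂ) (R + k)) with hW
  have hW0 : 0 ≤ W := measureReal_nonneg
  have hn0 : 0 ≤ ∫ z, ‖ρ z‖ := integral_nonneg fun z => norm_nonneg _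
  -- small steps
  have hsmall : ∀ h : ℂ, ‖h‖ ≤ 1 → ∫ z, ‖(diffOp h)^[k] ρ z‖ ≤ C * W * ‖h‖ ^ k := by
    intro h hh
    have h1 : ∫ z, ‖(diffOp h)^[k] ρ z‖ ≤
        ∫ z, (Metric.closedBall (0 : ℂ) (R + k)).indicator (fun _ => C * ‖h‖ ^ k) z := by
      refine integral_mono (intg_iter hρi h k).1.norm ?_ fun z => ?_
      · refine (integrable_indicator_iff measurableSet_closedBall).2 ?_
        exact integrableOn_const (measure_closedBall_lt_top.ne)
      · by_cases hz : z ∈ Metric.closedBall (0 : ℂ) (R + k)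
        · rw [Set.indicator_of_mem hz]
          exact hC h z
        · rw [Set.indicator_of_notMem hz]
          rw [mem_closedBall_zero_iff] at hz
          have h0 := supp hR hh k z (not_le.1 hz)
          simp only [h0, norm_zero, le_refl]
    rw [integral_indicator measurableSet_closedBall, setIntegral_const, smul_eq_mul] at h1
    calc _ ≤ _ := h1
      _ = _ := by rw [← hW]; ring
  refine ⟨C * W + 2 ^ k * ∫ z, ‖ρ z‖, by positivity, fun j h => ?_⟩
  have h1 : ∫ z, ‖(diffOp h)^[k] (dil j ρ) z‖ = ∫ z, ‖(diffOp ((2 : ℂ) ^ j * h))^[k] ρ z‖ := by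
    have h2 : ∀ z : ℂ, ‖(diffOp h)^[k] (dil j ρ) z‖ = (4 : ℝ) ^ j *
        (fun w => ‖(diffOp ((2 : ℂ) ^ j * h))^[k] ρ w‖) (((2 : ℝ) ^ j) • z) := by
      intro z
      rw [iter_dil, norm_mul, norm_pow]
      congr 2
      · norm_num
      · rw [Complex.real_smul]
        push_cast
        rfl
    rw [integral_congr_ae (Eventually.of_forall h2), integral_const_mul,
      Measure.integral_comp_smul volume (fun w => ‖(diffOp ((2 : ℂ) ^ j * h))^[k] ρ w‖)
        ((2 : ℝ) ^ j), Complex.finrank_real_complex, smul_eq_mul,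
      abs_of_pos (by positivity), ← mul_assoc, ← pow_mul, mul_comm j 2, pow_mul]
    have h9 : ((4 : ℝ) ^ j * ((2 ^ 2) ^ j)⁻¹) = 1 := by
      norm_num
    rw [h9, one_mul]
  have h3 : ‖(2 : ℂ) ^ j * h‖ = (2 : ℝ) ^ j * ‖h‖ := by
    rw [norm_mul, norm_pow]
    norm_num
  rw [h1]
  rcases le_or_gt ((2 : ℝ) ^ j * ‖h‖) 1 with h4 | h4
  · have h5 : ((2 : ℝ) ^ j * ‖h‖) ^ k ≤ 1 := pow_le_one₀ (by positivity) h4
    rw [min_eq_right h5]
    have h6 := hsmall ((2 : ℂ) ^ j * h) (by rw [h3]; exact h4)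
    rw [h3] at h6
    refine h6.trans ?_
    have h7 : 0 ≤ ((2 : ℝ) ^ j * ‖h‖) ^ k := by positivity
    have h8 : 0 ≤ 2 ^ k * ∫ z, ‖ρ z‖ := by positivity
    nlinarith
  · have h5 : 1 ≤ ((2 : ℝ) ^ j * ‖h‖) ^ k := one_le_pow₀ h4.le
    rw [min_eq_left h5, mul_one]
    have h6 := (intg_iter hρi ((2 : ℂ) ^ j * h) k).2
    have h8 : 0 ≤ C * W := by positivity
    linarith

end

end Pool.Agent.R263.DB
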