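import Pool.Agent.R263.DB.Defs

/-!
# DB-N2: an elementary sum
-/

set_option autoImplicit false

namespace Pool.Agent.R263.DB

namespace N2

/-- the sum -/
noncomputable def SJ (α : ℝ) (k J : ℕ) (t : ℝ) : ℝ :=
  ∑ j ∈ Finset.range J, (2 : ℝ) ^ (-(α * (j : ℝ))) * min 1 (((2 : ℝ) ^ j * t) ^ k)

theorem SJ_succ (α : ℝ) (k J : ℕ) (t : ℝ) :
    SJ α k (J + 1) t = min 1 (t ^ k) + (2 : ℝ) ^ (-α) * SJ α k J (2 * t) := by
  unfold SJ
  rw [Finset.sum_range_succ', add_comm, Finset.mul_sum]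
  congr 1
  · simp
  · apply Finset.sum_congr rfl
    intro j _
    have h1 : (2 : ℝ) ^ (-(α * ((j + 1 : ℕ) : ℝ))) = (2 : ℝ) ^ (-α) * (2 : ℝ) ^ (-(α * (j : ℝ))) := by
      rw [← Real.rpow_add (by norm_num)]
      congr 1
      push_cast; ring
    have h2 : (2 : ℝ) ^ (j + 1) * t = (2 : ℝ) ^ j * (2 * t) := by ring
    rw [h1, h2]
    ring

theorem SJ_le (α : ℝ) (k : ℕ) (hα : 0 < α) (J : ℕ) : ∀ t : ℝ,
    SJ α k J t ≤ 1 / (1 - (2 : ℝ) ^ (-α)) := by
  have ha1 : (2 : ℝ) ^ (-α) < 1 := Real.rpow_lt_one_of_one_lt_of_neg (by norm_num) (by linarith)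
  have ha0 : 0 < (2 : ℝ) ^ (-α) := Real.rpow_pos_of_pos (by norm_num) _
  have h1 : 0 < 1 - (2 : ℝ) ^ (-α) := by linarith
  induction J with
  | zero => intro t; simp only [SJ, Finset.range_zero, Finset.sum_empty]; positivity
  | succ J ih =>
    intro t
    rw [SJ_succ]
    have h2 := mul_le_mul_of_nonneg_left (ih (2 * t)) ha0.le
    have h3 : min 1 (t ^ k) ≤ 1 := min_le_left _ _
    have h4 : 1 + (2 : ℝ) ^ (-α) * (1 / (1 - (2 : ℝ) ^ (-α))) = 1 / (1 - (2 : ℝ) ^ (-α)) := by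
      field_simp
      ring
    linarith

theorem SJ_le2 (α : ℝ) (k : ℕ) (hα : 0 < α) (hk : α < k) (J : ℕ) : ∀ t : ℝ, 0 ≤ t → t < 2 →
    SJ α k J t ≤ (1 / (1 - (2 : ℝ) ^ (-α)) + 1 / ((2 : ℝ) ^ (k - α) - 1) * 2 ^ k) * t ^ α -
      1 / ((2 : ℝ) ^ (k - α) - 1) * t ^ k := by
  have ha1 : (2 : ℝ) ^ (-α) < 1 := Real.rpow_lt_one_of_one_lt_of_neg (by norm_num) (by linarith)
  have ha0 : 0 < (2 : ℝ) ^ (-α) := Real.rpow_pos_of_pos (by norm_num) _
  have h1 : 0 < 1 - (2 : ℝ) ^ (-α) := by linarith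
  have hb1 : 1 < (2 : ℝ) ^ (k - α) := Real.one_lt_rpow (by norm_num) (by linarith)
  have h2 : 0 < (2 : ℝ) ^ (k - α) - 1 := by linarith
  have hb2 : (2 : ℝ) ^ (k - α) = 2 ^ k * (2 : ℝ) ^ (-α) := by
    rw [sub_eq_add_neg, Real.rpow_add (by norm_num), Real.rpow_natCast]
  set A := 1 / (1 - (2 : ℝ) ^ (-α)) with hA
  set D := 1 / ((2 : ℝ) ^ (k - α) - 1) with hD
  have hA0 : 0 < A := by positivity
  have hD0 : 0 < D := by positivity
  have hD1 : D * (2 : ℝ) ^ (k - α) = 1 + D := by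
    rw [hD]; field_simp; ring
  have htk : ∀ t : ℝ, 0 ≤ t → t < 2 → t ^ k ≤ 2 ^ k * t ^ α := by
    intro t h0 h2
    rcases h0.eq_or_lt with h | h
    · rw [← h, Real.zero_rpow hα.ne']
      have : k ≠ 0 := by
        rintro rfl
        simp at hk
        linarith
      simp [this]
    · have e1 : t ^ k = t ^ ((k : ℝ) - α) * t ^ α := by
        rw [← Real.rpow_add h, sub_add_cancel, Real.rpow_natCast]
      rw [e1]
      apply mul_le_mul_of_nonneg_right _ (Real.rpow_nonneg h0 _)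
      calc t ^ ((k : ℝ) - α) ≤ 2 ^ ((k : ℝ) - α) := Real.rpow_le_rpow h0 h2.le (by linarith)
        _ = 2 ^ k * (2 : ℝ) ^ (-α) := hb2
        _ ≤ 2 ^ k * 1 := mul_le_mul_of_nonneg_left ha1.le (by positivity)
        _ = 2 ^ k := mul_one _
  induction J with
  | zero =>
    intro t h0 h2
    simp only [SJ, Finset.range_zero, Finset.sum_empty]
    have h3 := mul_le_mul_of_nonneg_left (htk t h0 h2) hD0.le
    have h4 : 0 ≤ A * t ^ α := mul_nonneg hA0.le (Real.rpow_nonneg h0 _)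
    nlinarith
  | succ J ih =>
    intro t h0 h2
    rcases lt_or_ge t 1 with ht | ht
    · rw [SJ_succ]
      have h3 := mul_le_mul_of_nonneg_left (ih (2 * t) (by linarith) (by linarith)) ha0.le
      have h4 : min 1 (t ^ k) ≤ t ^ k := min_le_right _ _
      have h5 : (2 * t) ^ α = (2 : ℝ) ^ α * t ^ α := Real.mul_rpow (by norm_num) h0
      have h6 : (2 : ℝ) ^ (-α) * (2 : ℝ) ^ α = 1 := by
        rw [← Real.rpow_add (by norm_num)]; simp
      have h7 : (2 * t) ^ k = 2 ^ k * t ^ k := mul_pow _ _ _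
      rw [h5, h7] at h3
      have h8 : (2 : ℝ) ^ (-α) * ((A + D * 2 ^ k) * ((2 : ℝ) ^ α * t ^ α) - D * (2 ^ k * t ^ k)) =
          (A + D * 2 ^ k) * t ^ α - (1 + D) * t ^ k := by
        rw [← hD1, hb2]
        linear_combination ((A + D * 2 ^ k) * t ^ α) * h6
      rw [h8] at h3
      linarith
    · have h3 := SJ_le α k hα (J + 1) t
      have h4 : 1 ≤ t ^ α := Real.one_le_rpow ht hα.le
      have h5 : t ^ k ≤ 2 ^ k := pow_le_pow_left₀ h0 h2.le k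
      have h6 : A ≤ A * t ^ α := le_mul_of_one_le_right hA0.le h4
      have h7 : D * t ^ k ≤ D * 2 ^ k * t ^ α := by
        calc D * t ^ k ≤ D * 2 ^ k := mul_le_mul_of_nonneg_left h5 hD0.le
          _ ≤ D * 2 ^ k * t ^ α := le_mul_of_one_le_right (by positivity) h4
      rw [add_mul]
      linarith

end N2

/-- Piece N2. -/
theorem stmtN2 : StmtN2 := by
  intro α k hα hk
  have ha1 : (2 : ℝ) ^ (-α) < 1 := Real.rpow_lt_one_of_one_lt_of_neg (by norm_num) (by linarith)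
  have h1 : 0 < 1 - (2 : ℝ) ^ (-α) := by linarith
  have hb1 : 1 < (2 : ℝ) ^ (k - α) := Real.one_lt_rpow (by norm_num) (by linarith)
  have h2 : 0 < (2 : ℝ) ^ (k - α) - 1 := by linarith
  refine ⟨1 / (1 - (2 : ℝ) ^ (-α)) + 1 / ((2 : ℝ) ^ (k - α) - 1) * 2 ^ k, by positivity, ?_⟩
  intro J t ht
  rcases lt_or_ge t 1 with h | h
  · have h3 := N2.SJ_le2 α k hα hk J t ht (by linarith)
    have h4 : 0 ≤ 1 / ((2 : ℝ) ^ (k - α) - 1) * t ^ k := by positivity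
    unfold N2.SJ at h3
    linarith
  · have h3 := N2.SJ_le α k hα J t
    have h4 : 1 ≤ t ^ α := Real.one_le_rpow h hα.le
    unfold N2.SJ at h3
    refine h3.trans ?_
    rw [add_mul]
    have h5 : 1 / (1 - (2 : ℝ) ^ (-α)) ≤ 1 / (1 - (2 : ℝ) ^ (-α)) * t ^ α :=
      le_mul_of_one_le_right (by positivity) h4
    have h6 : 0 ≤ 1 / ((2 : ℝ) ^ (k - α) - 1) * 2 ^ k * t ^ α := by positivity
    linarith

end Pool.Agent.R263.DB
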