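import Mathlib
import Pool.Agent.R263.DB.Defs

open MeasureTheory Complex Filter Topology
open scoped ContDiff ENNReal NNReal

namespace Pool.Agent.R263.DB

noncomputable section

namespace Rem

lemma isTest_dil (L : ℕ) {φ : ℂ → ℂ} (hφ : IsTest φ) : IsTest (dil L φ) := by
  obtain ⟨h1, h2⟩ := hφ
  refine ⟨?_, ?_⟩
  · unfold dil
    exact contDiff_const.mul (h1.comp (contDiff_const.mul contDiff_id))
  · have hne : (2 : ℂ) ^ L ≠ 0 := pow_ne_zero _ two_ne_zero
    have h3 : HasCompactSupport (φ ∘ (Homeomorph.mulLeft₀ ((2 : ℂ) ^ L) hne)) :=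
      h2.comp_homeomorph _
    unfold dil
    exact h3.mul_left

lemma integral_comp_dil (L : ℕ) {E : Type*} [NormedAddCommGroup E] [NormedSpace ℝ E]
    (G : ℂ → E) :
    ∫ z, ((4 : ℝ) ^ L) • G ((2 : ℂ) ^ L * z) = ∫ z, G z := by
  have h : ∀ z : ℂ, (2 : ℂ) ^ L * z = ((2 : ℝ) ^ L) • z := by
    intro z
    rw [Complex.real_smul]
    push_cast
    ring
  rw [integral_smul]
  simp_rw [h]
  rw [Measure.integral_comp_smul]
  rw [Complex.finrank_real_complex, smul_smul]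
  have : (4 : ℝ) ^ L * |(((2 : ℝ) ^ L) ^ 2)⁻¹| = 1 := by
    rw [abs_of_pos (by positivity), ← pow_mul, mul_comm L 2, pow_mul]
    norm_num
  rw [this, one_smul]

lemma integral_dil (L : ℕ) (φ : ℂ → ℂ) : ∫ z, dil L φ z = ∫ z, φ z := by
  rw [← integral_comp_dil L φ]
  congr 1
  ext z
  unfold dil
  rw [Complex.real_smul]
  push_cast
  rfl

lemma integral_norm_dil (L : ℕ) (φ : ℂ → ℂ) : ∫ z, ‖dil L φ z‖ = ∫ z, ‖φ z‖ := by
  rw [← integral_comp_dil L (fun z => ‖φ z‖)]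
  congr 1
  ext z
  unfold dil
  rw [norm_mul, norm_pow, smul_eq_mul]
  norm_num

lemma IsTest.exists_radius {φ : ℂ → ℂ} (hφ : IsTest φ) :
    ∃ R : ℝ, 0 ≤ R ∧ ∀ z, R < ‖z‖ → φ z = 0 := by
  obtain ⟨R, hR⟩ := hφ.2.isCompact.isBounded.subset_closedBall (0 : ℂ)
  refine ⟨max R 0, le_max_right _ _, fun z hz => ?_⟩
  by_contra hne
  have h1 : z ∈ tsupport φ := subset_tsupport _ hne
  have h2 := hR h1
  rw [mem_closedBall_zero_iff] at h2
  have := le_max_left R 0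
  linarith

lemma dil_eq_zero {φ : ℂ → ℂ} {R : ℝ} (hR : ∀ z, R < ‖z‖ → φ z = 0) (L : ℕ) (z : ℂ)
    (hz : R * ((2 : ℝ) ^ L)⁻¹ < ‖z‖) : dil L φ z = 0 := by
  unfold dil
  rw [hR, mul_zero]
  rw [norm_mul, norm_pow]
  have h2 : (0 : ℝ) < (2 : ℝ) ^ L := by positivity
  have : R * ((2 : ℝ) ^ L)⁻¹ * (2 : ℝ) ^ L = R := by
    field_simp
  have h3 : ‖(2 : ℂ)‖ = 2 := by norm_num
  rw [h3]
  calc R = R * ((2 : ℝ) ^ L)⁻¹ * (2 : ℝ) ^ L := this.symm
    _ < ‖z‖ * (2 : ℝ) ^ L := by gcongr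
    _ = 2 ^ L * ‖z‖ := by ring

lemma IsTest.integrable {φ : ℂ → ℂ} (hφ : IsTest φ) : Integrable φ :=
  hφ.1.continuous.integrable_of_hasCompactSupport hφ.2

lemma IsTest.bounded {φ : ℂ → ℂ} (hφ : IsTest φ) : ∃ K : ℝ, 0 ≤ K ∧ ∀ z, ‖φ z‖ ≤ K := by
  obtain ⟨K, hK⟩ := hφ.1.continuous.bounded_above_of_compact_support hφ.2
  exact ⟨K, (norm_nonneg _).trans (hK 0), hK⟩

lemma IsTest.sub {f g : ℂ → ℂ} (hf : IsTest f) (hg : IsTest g) :
    IsTest (fun z => f z - g z) := ⟨hf.1.sub hg.1, hf.2.sub hg.2⟩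

lemma IsTest.lipschitz {g : ℂ → ℂ} (hg : IsTest g) :
    ∃ K : ℝ, 0 ≤ K ∧ ∀ z w, ‖g z - g w‖ ≤ K * ‖z - w‖ := by
  obtain ⟨K, hK⟩ := (hg.1.of_le (m := 1) (by norm_cast)).lipschitzWith_of_hasCompactSupport hg.2 (by norm_num)
  refine ⟨K, K.2, fun z w => ?_⟩
  have := hK.dist_le_mul z w
  rwa [dist_eq_norm, dist_eq_norm] at this

lemma isTest_corr (h1 : StmtC1) {φ f : ℂ → ℂ} (hφ : IsTest φ) (hf : IsTest f) :
    IsTest (corr φ f) := by
  obtain ⟨K, hK0, hK⟩ := IsTest.bounded hf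
  exact (h1 φ f K hφ hf.1.continuous.measurable hf.2 hK).1

lemma isTest_Aop (h1 : StmtC1) {φ f : ℂ → ℂ} (hφ : IsTest φ) (hf : IsTest f) :
    IsTest (Aop φ f) := IsTest.sub hf (isTest_corr h1 hφ hf)

lemma dbar_Aop (h1 : StmtC1) (h2 : StmtC2) {φ f : ℂ → ℂ} (hφ : IsTest φ) (hf : IsTest f) :
    dbar (Aop φ f) = Aop φ (dbar f) := by
  ext z
  have hc := isTest_corr h1 hφ hf
  have e := (h2 φ φ f hφ hφ hf).2.2.1 z
  have d1 : DifferentiableAt ℝ f z := hf.1.differentiable (by simp) z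
  have d2 : DifferentiableAt ℝ (corr φ f) z := hc.1.differentiable (by simp) z
  have e2 : fderiv ℝ (Aop φ f) z = fderiv ℝ f z - fderiv ℝ (corr φ f) z := by
    have : Aop φ f = fun z => f z - corr φ f z := rfl
    rw [this]
    exact fderiv_fun_sub d1 d2
  have e3 : dbar (Aop φ f) z = dbar f z - dbar (corr φ f) z := by
    unfold dbar
    rw [e2]
    simp only [_root_.sub_apply]
    ring
  rw [e3, e]
  rfl

lemma iter_facts (h1 : StmtC1) (h2 : StmtC2) {φ : ℂ → ℂ} (hφ : IsTest φ) (m : ℕ) :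
    ∀ f : ℂ → ℂ, IsTest f → IsTest ((Aop φ)^[m] f) ∧
      dbar ((Aop φ)^[m] f) = (Aop φ)^[m] (dbar f) := by
  induction m with
  | zero => intro f hf; exact ⟨hf, rfl⟩
  | succ m ih =>
    intro f hf
    rw [Function.iterate_succ_apply, Function.iterate_succ_apply]
    have h3 := ih (Aop φ f) (isTest_Aop h1 hφ hf)
    refine ⟨h3.1, ?_⟩
    rw [h3.2, dbar_Aop h1 h2 hφ hf]

lemma iter_bound (h1 : StmtC1) {φ : ℂ → ℂ} (hφ : IsTest φ) (m : ℕ) :
    ∀ (g : ℂ → ℂ) (K : ℝ), IsTest g → (∀ z, ‖g z‖ ≤ K) →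
      ∀ z, ‖(Aop φ)^[m] g z‖ ≤ (1 + ∫ w, ‖φ w‖) ^ m * K := by
  induction m with
  | zero => intro g K hg hK z; simpa using hK z
  | succ m ih =>
    intro g K hg hK z
    rw [Function.iterate_succ_apply]
    have h3 := ih (Aop φ g) ((1 + ∫ w, ‖φ w‖) * K) (isTest_Aop h1 hφ hg) ?_ z
    · calc _ ≤ _ := h3
        _ = _ := by ring
    · intro w
      have h4 := (h1 φ g K hφ hg.1.continuous.measurable hg.2 hK).2.1 w
      unfold Aop
      calc ‖g w - corr φ g w‖ ≤ ‖g w‖ + ‖corr φ g w‖ := norm_sub_le _ _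
        _ ≤ K + K * ∫ w, ‖φ w‖ := add_le_add (hK w) h4
        _ = _ := by ring

lemma iter_support (h1 : StmtC1) (h2 : StmtC2) {φ : ℂ → ℂ} (hφ : IsTest φ) {R : ℝ}
    (hR : ∀ z, R < ‖z‖ → φ z = 0) (m : ℕ) :
    ∀ (g : ℂ → ℂ) (S : ℝ), IsTest g → (∀ z, S < ‖z‖ → g z = 0) → 
      ∀ z, S + m * R < ‖z‖ → 0 ≤ R → (Aop φ)^[m] g z = 0 := by
  induction m with
  | zero => intro g S hg hS z hz _; simp at hz; simpa using hS z hz
  | succ m ih =>
    intro g S hg hS z hz hR0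
    rw [Function.iterate_succ_apply]
    refine ih (Aop φ g) (S + R) (isTest_Aop h1 hφ hg) ?_ z (by push_cast at hz; linarith) hR0
    intro w hw
    unfold Aop
    rw [hS w (by linarith), (h2 φ φ g hφ hφ hg).2.1 w]
    have : ∀ a, φ a * g (w + a) = 0 := by
      intro a
      by_cases ha : R < ‖a‖
      · rw [hR a ha, zero_mul]
      · rw [hS (w + a), mul_zero]
        push Not at ha
        have : ‖w‖ ≤ ‖w + a‖ + ‖a‖ := by
          calc ‖w‖ = ‖(w + a) - a‖ := by ring_nf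
            _ ≤ _ := norm_sub_le _ _
        linarith
    simp [this]

lemma Aop_small (h2 : StmtC2) {φ : ℂ → ℂ} (hφ : IsTest φ) (hint : ∫ z, φ z = 1) {r : ℝ}

    (hR : ∀ z, r < ‖z‖ → φ z = 0) {g : ℂ → ℂ} (hg : IsTest g) {K : ℝ} (hK0 : 0 ≤ K)
    (hK : ∀ z w, ‖g z - g w‖ ≤ K * ‖z - w‖) (z : ℂ) :
    ‖Aop φ g z‖ ≤ (K * r) * ∫ w, ‖φ w‖ := by
  obtain ⟨Kg, hKg0, hKg⟩ := IsTest.bounded hg
  have i1 : Integrable (fun a => φ a * g z) := (IsTest.integrable hφ).mul_const _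
  have i2 : Integrable (fun a => φ a * g (z + a)) := by
    refine (IsTest.integrable hφ).mul_bdd (c := Kg) ?_ ?_
    · exact (hg.1.continuous.comp (by fun_prop)).aestronglyMeasurable
    · exact Filter.Eventually.of_forall fun a => hKg _
  have e : Aop φ g z = ∫ a, φ a * (g z - g (z + a)) := by
    unfold Aop
    rw [(h2 φ φ g hφ hφ hg).2.1 z]
    have : g z = ∫ a, φ a * g z := by
      rw [integral_mul_const, hint, one_mul]
    conv_lhs => rw [this]
    rw [← integral_sub i1 i2]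
    congr 1
    ext a
    ring
  rw [e]
  calc ‖∫ a, φ a * (g z - g (z + a))‖ ≤ ∫ a, ‖φ a * (g z - g (z + a))‖ :=
        norm_integral_le_integral_norm _
    _ ≤ ∫ a, (K * r) * ‖φ a‖ := by
        refine integral_mono_of_nonneg (Filter.Eventually.of_forall fun a => norm_nonneg _)
          ((IsTest.integrable hφ).norm.const_mul _) (Filter.Eventually.of_forall fun a => ?_)
        simp only
        rw [norm_mul]
        by_cases ha : r < ‖a‖
        · rw [hR a ha]; simp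
        · push Not at ha
          have h3 := hK z (z + a)
          have h4 : ‖z - (z + a)‖ = ‖a‖ := by
            rw [← norm_neg]; congr 1; ring
          rw [h4] at h3
          have h5 : ‖g z - g (z + a)‖ ≤ K * r := h3.trans (by gcongr)
          calc ‖φ a‖ * ‖g z - g (z + a)‖ ≤ ‖φ a‖ * (K * r) := by gcongr
            _ = _ := by ring
    _ = _ := by rw [integral_const_mul]

end Rem

open Rem in
theorem stmtRem (h1 : StmtC1) (h2 : StmtC2) : StmtRem := by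
  intro φ f M Ω hφ hint hf hM hΩ
  obtain ⟨R, hR0, hR⟩ := IsTest.exists_radius hφ
  have hg : IsTest (dbar f) := (h2 φ φ f hφ hφ hf).2.2.2
  obtain ⟨S, hS0, hS⟩ := IsTest.exists_radius hg
  obtain ⟨K, hK0, hK⟩ := IsTest.lipschitz hg
  set B := ∫ w, ‖φ w‖ with hB
  have hB0 : 0 ≤ B := integral_nonneg fun _ => norm_nonneg _
  set D : Set ℂ := Metric.closedBall (0 : ℂ) (S + M * R) with hD
  have key : ∀ L : ℕ, ‖∫ z in Ω, dbar ((Aop (dil L φ))^[M] f) z‖ ≤
      (((1 + B) ^ (M - 1) * (K * R * B)) * (volume : Measure ℂ).real D) * ((1 / 2 : ℝ) ^ L) := by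
    intro L
    have hL := isTest_dil L hφ
    have hLint : ∫ z, dil L φ z = 1 := by rw [integral_dil, hint]
    have hLnorm : ∫ z, ‖dil L φ z‖ = B := integral_norm_dil L φ
    rw [(iter_facts h1 h2 hL M f hf).2]
    have hrad : ∀ z, R * ((2 : ℝ) ^ L)⁻¹ < ‖z‖ → dil L φ z = 0 := dil_eq_zero hR L
    have hsmall : ∀ z, ‖Aop (dil L φ) (dbar f) z‖ ≤ (K * (R * ((2 : ℝ) ^ L)⁻¹)) * B := by
      intro z
      have := Aop_small h2 hL hLint hrad hg hK0 hK z
      rwa [hLnorm] at this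
    have hb : ∀ z, ‖(Aop (dil L φ))^[M] (dbar f) z‖ ≤
        (1 + B) ^ (M - 1) * ((K * (R * ((2 : ℝ) ^ L)⁻¹)) * B) := by
      intro z
      obtain ⟨m, rfl⟩ : ∃ m, M = m + 1 := ⟨M - 1, by omega⟩
      rw [Function.iterate_succ_apply]
      have := iter_bound h1 hL m (Aop (dil L φ) (dbar f)) _ (isTest_Aop h1 hL hg) hsmall z
      rw [hLnorm] at this
      simpa using this
    have hsupp : ∀ z, z ∉ D → (Aop (dil L φ))^[M] (dbar f) z = 0 := by
      intro z hz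
      rw [hD, mem_closedBall_zero_iff, not_le] at hz
      refine iter_support h1 h2 hL (R := R) ?_ M (dbar f) S hg hS z hz hR0
      intro z hz
      refine hrad z (lt_of_le_of_lt ?_ hz)
      have : ((2 : ℝ) ^ L)⁻¹ ≤ 1 := inv_le_one_of_one_le₀ (one_le_pow₀ (by norm_num))
      nlinarith
    have htest : IsTest ((Aop (dil L φ))^[M] (dbar f)) := (iter_facts h1 h2 hL M _ hg).1
    have hi : Integrable ((Aop (dil L φ))^[M] (dbar f)) := IsTest.integrable htest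
    calc ‖∫ z in Ω, (Aop (dil L φ))^[M] (dbar f) z‖
        ≤ ∫ z in Ω, ‖(Aop (dil L φ))^[M] (dbar f) z‖ := norm_integral_le_integral_norm _
      _ ≤ ∫ z, ‖(Aop (dil L φ))^[M] (dbar f) z‖ :=
          setIntegral_le_integral hi.norm (Filter.Eventually.of_forall fun _ => norm_nonneg _)
      _ = ∫ z in D, ‖(Aop (dil L φ))^[M] (dbar f) z‖ := by
          rw [setIntegral_eq_integral_of_forall_compl_eq_zero]
          intro z hz
          rw [hsupp z hz, norm_zero]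
      _ ≤ ‖∫ z in D, ‖(Aop (dil L φ))^[M] (dbar f) z‖‖ := le_abs_self _
      _ ≤ ((1 + B) ^ (M - 1) * ((K * (R * ((2 : ℝ) ^ L)⁻¹)) * B)) * (volume : Measure ℂ).real D := by
          refine norm_setIntegral_le_of_norm_le_const ?_ ?_
          · exact measure_closedBall_lt_top
          · intro z _
            rw [norm_norm]
            exact hb z
      _ = _ := by
          rw [one_div, inv_pow]
          ring
  rw [tendsto_zero_iff_norm_tendsto_zero]
  refine squeeze_zero (fun _ => norm_nonneg _) key ?_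
  have : Tendsto (fun L : ℕ => (1 / 2 : ℝ) ^ L) atTop (𝓝 0) :=
    tendsto_pow_atTop_nhds_zero_of_lt_one (by norm_num) (by norm_num)
  simpa using this.const_mul (((1 + B) ^ (M - 1) * (K * R * B)) * (volume : Measure ℂ).real D)

end

end Pool.Agent.R263.DB
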