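import Mathlib
import Pool.Agent.R263.DB.Defs

/-! # Piece S: sufficiency of the Littlewood-Paley condition -/

set_option autoImplicit false

open MeasureTheory Complex Filter Topology
open scoped ContDiff ENNReal NNReal

namespace Pool.Agent.R263.DB

noncomputable section

namespace PS

/-! ## test functions -/

theorem test_dil {φ : ℂ → ℂ} (hφ : IsTest φ) (j : ℕ) : IsTest (dil j φ) := by
  refine ⟨contDiff_const.mul (hφ.1.comp (contDiff_const.mul contDiff_id)), ?_⟩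
  have h := hφ.2.comp_homeomorph (Homeomorph.mulLeft₀ ((2 : ℂ) ^ j) (pow_ne_zero _ two_ne_zero))
  exact h.mul_left

theorem test_integrable {f : ℂ → ℂ} (hf : IsTest f) : Integrable f :=
  hf.1.continuous.integrable_of_hasCompactSupport hf.2

theorem test_bdd {f : ℂ → ℂ} (hf : IsTest f) : ∃ B : ℝ, ∀ z, ‖f z‖ ≤ B :=
  hf.2.exists_bound_of_continuous hf.1.continuous

theorem test_corr (h1 : StmtC1) {φ f : ℂ → ℂ} (hφ : IsTest φ) (hf : IsTest f) :
    IsTest (corr φ f) := by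
  obtain ⟨B, hB⟩ := test_bdd hf
  exact (h1 φ f B hφ hf.1.continuous.measurable hf.2 hB).1

theorem corr_integrable {φ f : ℂ → ℂ} (hφ : IsTest φ) (hf : IsTest f) (z : ℂ) :
    Integrable (fun w => φ (w - z) * f w) := by
  refine Continuous.integrable_of_hasCompactSupport ?_ ?_
  · exact (hφ.1.continuous.comp (continuous_id.sub continuous_const)).mul hf.1.continuous
  · exact hf.2.mul_left

/-- the space of test functions -/
def T : Submodule ℂ (ℂ → ℂ) where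
  carrier := {f | IsTest f}
  add_mem' := fun {f g} hf hg => ⟨hf.1.add hg.1, hf.2.add hg.2⟩
  zero_mem' := ⟨contDiff_const, HasCompactSupport.zero⟩
  smul_mem' := fun c f hf => by
    refine ⟨contDiff_const.mul hf.1, ?_⟩
    exact (hf.2.mul_left (f := fun _ => c))

theorem T_test (f : T) : IsTest (f : ℂ → ℂ) := f.2

/-- `corr φ` on test functions -/
def co (h1 : StmtC1) (φ : ℂ → ℂ) (hφ : IsTest φ) : Module.End ℂ T where
  toFun := fun f => ⟨corr φ f, test_corr h1 hφ f.2⟩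
  map_add' := fun f g => by
    apply Subtype.ext
    funext z
    change ∫ w, φ (w - z) * ((f : ℂ → ℂ) w + (g : ℂ → ℂ) w) =
      (∫ w, φ (w - z) * (f : ℂ → ℂ) w) + ∫ w, φ (w - z) * (g : ℂ → ℂ) w
    rw [← integral_add (corr_integrable hφ f.2 z) (corr_integrable hφ g.2 z)]
    refine integral_congr_ae (Filter.Eventually.of_forall fun w => ?_)
    change φ (w - z) * ((f : ℂ → ℂ) w + (g : ℂ → ℂ) w) = _
    ring
  map_smul' := fun c f => by
    apply Subtype.ext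
    funext z
    change ∫ w, φ (w - z) * (c * (f : ℂ → ℂ) w) = c * ∫ w, φ (w - z) * (f : ℂ → ℂ) w
    rw [← integral_const_mul]
    refine integral_congr_ae (Filter.Eventually.of_forall fun w => ?_)
    change φ (w - z) * (c * (f : ℂ → ℂ) w) = _
    ring

theorem co_apply (h1 : StmtC1) {φ : ℂ → ℂ} (hφ : IsTest φ) (f : T) :
    ((co h1 φ hφ f : T) : ℂ → ℂ) = corr φ f := rfl

/-- `Aop φ` on test functions -/
def aa (h1 : StmtC1) (φ : ℂ → ℂ) (hφ : IsTest φ) : Module.End ℂ T := 1 - co h1 φ hφ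

theorem aa_apply (h1 : StmtC1) {φ : ℂ → ℂ} (hφ : IsTest φ) (f : T) :
    ((aa h1 φ hφ f : T) : ℂ → ℂ) = Aop φ f := rfl

theorem co_comm' (h1 : StmtC1) (h2 : StmtC2) {φ ψ : ℂ → ℂ} (hφ : IsTest φ) (hψ : IsTest ψ)
    (f : T) : co h1 φ hφ (co h1 ψ hψ f) = co h1 ψ hψ (co h1 φ hφ f) := by
  refine Subtype.ext ?_
  exact (h2 φ ψ f hφ hψ f.2).1

theorem aa_pow (h1 : StmtC1) {φ : ℂ → ℂ} (hφ : IsTest φ) (i : ℕ) (f : T) :
    (((aa h1 φ hφ ^ i) f : T) : ℂ → ℂ) = (Aop φ)^[i] f := by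
  induction i generalizing f with
  | zero => rfl
  | succ i ih =>
    rw [pow_succ, Module.End.mul_apply, ih, Function.iterate_succ_apply, aa_apply]

theorem Aop_bound (h1 : StmtC1) {φ : ℂ → ℂ} (hφ : IsTest φ) (f : T) (S : ℝ)
    (hS : ∀ z, ‖(f : ℂ → ℂ) z‖ ≤ S) (z : ℂ) :
    ‖((aa h1 φ hφ f : T) : ℂ → ℂ) z‖ ≤ (1 + ∫ w, ‖φ w‖) * S := by
  rw [aa_apply]
  have h := (h1 φ f S hφ f.2.1.continuous.measurable f.2.2 hS).2.1 z
  unfold Aop
  calc ‖(f : ℂ → ℂ) z - corr φ f z‖ ≤ ‖(f : ℂ → ℂ) z‖ + ‖corr φ f z‖ := norm_sub_le _ _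
    _ ≤ S + S * ∫ w, ‖φ w‖ := add_le_add (hS z) h
    _ = (1 + ∫ w, ‖φ w‖) * S := by ring

theorem aa_pow_bound (h1 : StmtC1) {φ : ℂ → ℂ} (hφ : IsTest φ) (f : T) (S : ℝ)
    (hS : ∀ z, ‖(f : ℂ → ℂ) z‖ ≤ S) (i : ℕ) (z : ℂ) :
    ‖(((aa h1 φ hφ ^ i) f : T) : ℂ → ℂ) z‖ ≤ (1 + ∫ w, ‖φ w‖) ^ i * S := by
  induction i generalizing z with
  | zero => rw [pow_zero, pow_zero, one_mul]; exact hS z
  | succ i ih =>
    rw [pow_succ', Module.End.mul_apply]
    refine (Aop_bound h1 hφ _ _ ih z).trans (le_of_eq ?_)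
    rw [pow_succ]; ring

/-! ## the functional -/

theorem dbar_add {f g : ℂ → ℂ} (hf : IsTest f) (hg : IsTest g) (z : ℂ) :
    dbar (f + g) z = dbar f z + dbar g z := by
  have hf' : DifferentiableAt ℝ f z := (hf.1.differentiable (by simp)) z
  have hg' : DifferentiableAt ℝ g z := (hg.1.differentiable (by simp)) z
  unfold dbar
  rw [fderiv_add hf' hg']
  simp only [add_apply]
  ring

/-- `f ↦ ∫_Ω ∂̄ f` -/
def JJ (h2 : StmtC2) (Ω : Set ℂ) : T →+ ℂ :=
  AddMonoidHom.mk' (fun f => ∫ z in Ω, dbar f z) fun f g => by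
    have e : ∀ f : T, IntegrableOn (dbar (f : ℂ → ℂ)) Ω := fun f =>
      (test_integrable (h2 f f f f.2 f.2 f.2).2.2.2).integrableOn
    rw [← integral_add (e f) (e g)]
    refine integral_congr_ae (Filter.Eventually.of_forall fun z => ?_)
    exact dbar_add f.2 g.2 z

theorem JJ_apply (h2 : StmtC2) (Ω : Set ℂ) (f : T) :
    JJ h2 Ω f = ∫ z in Ω, dbar (f : ℂ → ℂ) z := rfl

theorem JJ_co (h1 : StmtC1) (h2 : StmtC2) {Ω : Set ℂ} (hΩ : MeasurableSet Ω) {φ : ℂ → ℂ}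
    (hφ : IsTest φ) (j : ℕ) (hfin : lpN Ω φ j ≠ ⊤) (g : T) (S : ℝ) (hS0 : 0 ≤ S)
    (hS : ∀ z, ‖(g : ℂ → ℂ) z‖ ≤ S) :
    ‖JJ h2 Ω (co h1 (dil j φ) (test_dil hφ j) g)‖ ≤ S * (lpN Ω φ j).toReal := by
  rw [JJ_apply, co_apply]
  rw [(h1 (dil j φ) g S (test_dil hφ j) g.2.1.continuous.measurable g.2.2 hS).2.2.1 Ω hΩ,
    norm_neg, ← toReal_enorm]
  have e1 : ‖∫ w, (g : ℂ → ℂ) w * blk Ω (dil j φ) w‖ₑ ≤ ENNReal.ofReal S * lpN Ω φ j := by
    refine (enorm_integral_le_lintegral_enorm _).trans ?_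
    unfold lpN
    rw [← lintegral_const_mul' _ _ ENNReal.ofReal_ne_top]
    refine lintegral_mono fun w => ?_
    rw [enorm_mul]
    gcongr
    rw [← ofReal_norm]
    exact ENNReal.ofReal_le_ofReal (hS w)
  have e2 := ENNReal.toReal_mono (ENNReal.mul_ne_top ENNReal.ofReal_ne_top hfin) e1
  rwa [ENNReal.toReal_mul, ENNReal.toReal_ofReal hS0] at e2

/-! ## the decomposition -/

theorem decomp_abs {V : Type*} [AddCommGroup V] [Module ℂ V] (a c : ℕ → Module.End ℂ V)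
    (hac : ∀ l f, a l f = f - c l f) (hcomm : ∀ l m f, c l (c m f) = c m (c l f)) (M L : ℕ)
    (f : V) :
    f = c 0 ((∑ i ∈ Finset.range M, a 0 ^ i) f) +
      ∑ l ∈ Finset.range L,
        (c (l + 1) ((∑ i ∈ Finset.range M, a l ^ i * a (l + 1) ^ (M - 1 - i)) f) -
        c l ((∑ i ∈ Finset.range M, a l ^ i * a (l + 1) ^ (M - 1 - i)) f)) +
      (a L ^ M) f := by
  have hac' : ∀ l, a l = 1 - c l := fun l => by
    refine LinearMap.ext fun f => ?_
    rw [hac]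
    rfl
  have hac2 : ∀ l, c l = 1 - a l := fun l => by
    rw [hac', sub_sub_cancel]
  have hc : ∀ l m, Commute (c l) (c m) := fun l m => LinearMap.ext fun f => hcomm l m f
  have ha : ∀ l m, Commute (a l) (a m) := fun l m => by
    rw [hac', hac']
    exact (Commute.one_left _).sub_left (((Commute.one_right _)).sub_right (hc l m))
  have e0 : c 0 * (∑ i ∈ Finset.range M, a 0 ^ i) = 1 - a 0 ^ M := by
    rw [hac2, mul_neg_geom_sum]
  have e1 : ∀ l, (c (l + 1) - c l) * (∑ i ∈ Finset.range M, a l ^ i * a (l + 1) ^ (M - 1 - i)) =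
      a l ^ M - a (l + 1) ^ M := by
    intro l
    rw [hac2, hac2, show (1 : Module.End ℂ V) - a (l + 1) - (1 - a l) = a l - a (l + 1) by abel]
    exact (ha l (l + 1)).mul_geom_sum₂ M
  have e2 : (1 : Module.End ℂ V) = c 0 * (∑ i ∈ Finset.range M, a 0 ^ i) +
      ∑ l ∈ Finset.range L,
        (c (l + 1) - c l) * (∑ i ∈ Finset.range M, a l ^ i * a (l + 1) ^ (M - 1 - i)) +
      a L ^ M := by
    rw [e0]
    simp only [e1]
    rw [Finset.sum_range_sub']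
    abel
  have e3 := congrArg (fun A : Module.End ℂ V => A f) e2
  simp only [Module.End.one_apply, LinearMap.add_apply, LinearMap.sum_apply,
    Module.End.mul_apply, LinearMap.sub_apply] at e3
  simp only [LinearMap.sum_apply, Module.End.mul_apply]
  exact e3

theorem decomp (h1 : StmtC1) (h2 : StmtC2) {φ : ℂ → ℂ} (hφ : IsTest φ) (M L : ℕ) (f : T) :
    f = co h1 (dil 0 φ) (test_dil hφ 0)
        ((∑ i ∈ Finset.range M, aa h1 (dil 0 φ) (test_dil hφ 0) ^ i) f) +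
      ∑ l ∈ Finset.range L,
        (co h1 (dil (l + 1) φ) (test_dil hφ (l + 1))
          ((∑ i ∈ Finset.range M, aa h1 (dil l φ) (test_dil hφ l) ^ i *
            aa h1 (dil (l + 1) φ) (test_dil hφ (l + 1)) ^ (M - 1 - i)) f) -
        co h1 (dil l φ) (test_dil hφ l)
          ((∑ i ∈ Finset.range M, aa h1 (dil l φ) (test_dil hφ l) ^ i *
            aa h1 (dil (l + 1) φ) (test_dil hφ (l + 1)) ^ (M - 1 - i)) f)) +
      (aa h1 (dil L φ) (test_dil hφ L) ^ M) f :=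
  decomp_abs (fun l => aa h1 (dil l φ) (test_dil hφ l)) (fun l => co h1 (dil l φ) (test_dil hφ l))
    (fun _ _ => rfl) (fun _ _ f => co_comm' h1 h2 _ _ f) M L f

end PS

open PS in
theorem stmtS (h1 : StmtC1) (h2 : StmtC2) (hS2 : StmtS2) (hR : StmtRem) : StmtS := by
  intro α k Ω φ hα hαk hΩ hφ hφ1 hlp
  obtain ⟨C, hC0, hC⟩ := hS2 α k φ hα hφ hφ1
  -- finiteness
  have hterm : ∀ j : ℕ, ENNReal.ofReal ((2 : ℝ) ^ (-(α * (j : ℝ)))) * lpN Ω φ j ≠ ⊤ :=
    fun j => ENNReal.ne_top_of_tsum_ne_top hlp j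
  have hpos : ∀ j : ℕ, (0 : ℝ) < (2 : ℝ) ^ (-(α * (j : ℝ))) := fun j =>
    Real.rpow_pos_of_pos two_pos _
  have hfin : ∀ j, lpN Ω φ j ≠ ⊤ := by
    intro j hj
    apply hterm j
    rw [hj, ENNReal.mul_top]
    exact (ENNReal.ofReal_pos.mpr (hpos j)).ne'
  set N : ℕ → ℝ := fun j => (lpN Ω φ j).toReal with hN
  have hN0 : ∀ j, 0 ≤ N j := fun j => ENNReal.toReal_nonneg
  set Λ : ℝ := (lpSum α Ω φ).toReal with hΛ
  have hΛ0 : 0 ≤ Λ := ENNReal.toReal_nonneg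
  have hsum : ∀ s : Finset ℕ, ∑ j ∈ s, (2 : ℝ) ^ (-(α * (j : ℝ))) * N j ≤ Λ := by
    intro s
    have e1 : ∑ j ∈ s, (2 : ℝ) ^ (-(α * (j : ℝ))) * N j =
        (∑ j ∈ s, ENNReal.ofReal ((2 : ℝ) ^ (-(α * (j : ℝ)))) * lpN Ω φ j).toReal := by
      rw [ENNReal.toReal_sum fun j _ => hterm j]
      refine Finset.sum_congr rfl fun j _ => ?_
      rw [ENNReal.toReal_mul, ENNReal.toReal_ofReal (hpos j).le]
    rw [e1]
    exact ENNReal.toReal_mono hlp (ENNReal.sum_le_tsum s)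
  set B : ℝ := ∫ w, ‖dil 0 φ w‖ with hB
  have hB0 : 0 ≤ B := integral_nonneg fun w => norm_nonneg _
  set Q : ℝ := ∑ i ∈ Finset.range (k + 1), (1 + B) ^ i with hQ
  have hQ0 : 0 ≤ Q := Finset.sum_nonneg fun i _ => by positivity
  set W : ℝ := ((k + 1 : ℕ) : ℝ) * C * ((2 : ℝ) ^ α + 1) with hW
  have hW0 : 0 ≤ W := by positivity
  refine ⟨(Q + W) * Λ, by positivity, ?_⟩
  intro f0 a b hf0 hLip
  have ha0 : 0 ≤ a := (norm_nonneg _).trans (hLip.1 0)
  have hb0 : 0 ≤ b := by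
    have h := (norm_nonneg _).trans (hLip.2 1 0)
    rwa [norm_one, Real.one_rpow, mul_one] at h
  set f : T := ⟨f0, hf0⟩ with hf
  -- bounds
  have hG : ∀ z, ‖(((∑ i ∈ Finset.range (k + 1), aa h1 (dil 0 φ) (test_dil hφ 0) ^ i) f : T) :
      ℂ → ℂ) z‖ ≤ Q * a := by
    intro z
    rw [LinearMap.sum_apply, Submodule.coe_sum, Finset.sum_apply]
    refine (norm_sum_le _ _).trans ?_
    rw [hQ, Finset.sum_mul]
    exact Finset.sum_le_sum fun i _ => aa_pow_bound h1 (test_dil hφ 0) f a hLip.1 i z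
  have hH : ∀ (l : ℕ) z, ‖(((∑ i ∈ Finset.range (k + 1), aa h1 (dil l φ) (test_dil hφ l) ^ i *
      aa h1 (dil (l + 1) φ) (test_dil hφ (l + 1)) ^ (k + 1 - 1 - i)) f : T) : ℂ → ℂ) z‖ ≤
        ((k + 1 : ℕ) : ℝ) * (C * b * (2 : ℝ) ^ (-(α * (l : ℝ)))) := by
    intro l z
    rw [LinearMap.sum_apply, Submodule.coe_sum, Finset.sum_apply]
    refine (norm_sum_le _ _).trans ?_
    refine (Finset.sum_le_card_nsmul _ _ (C * b * (2 : ℝ) ^ (-(α * (l : ℝ)))) ?_).trans ?_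
    · intro i hi
      rw [Module.End.mul_apply, aa_pow, aa_pow, Nat.add_sub_cancel]
      exact hC f0 b hb0 hf0 hLip.2 l i (Nat.lt_succ_iff.mp (Finset.mem_range.mp hi)) z
    · rw [Finset.card_range, nsmul_eq_mul]
  -- the bound for each `L`
  have key : ∀ L : ℕ, ‖∫ z in Ω, dbar f0 z‖ ≤ (Q + W) * Λ * (a + b) +
      ‖∫ z in Ω, dbar ((Aop (dil L φ))^[k + 1] f0) z‖ := by
    intro L
    have e1 := congrArg (JJ h2 Ω) (decomp h1 h2 hφ (k + 1) L f)
    rw [map_add, map_add, map_sum] at e1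
    simp only [map_sub] at e1
    have e2 : JJ h2 Ω f = ∫ z in Ω, dbar f0 z := rfl
    have e3 : JJ h2 Ω ((aa h1 (dil L φ) (test_dil hφ L) ^ (k + 1)) f) =
        ∫ z in Ω, dbar ((Aop (dil L φ))^[k + 1] f0) z := by
      rw [JJ_apply, aa_pow]
    rw [e2, e3] at e1
    rw [e1]
    refine (norm_add_le _ _).trans (add_le_add ((norm_add_le _ _).trans ?_) le_rfl)
    have b0 := JJ_co h1 h2 hΩ hφ 0 (hfin 0) _ (Q * a) (by positivity) hG
    have b0' : Q * a * N 0 ≤ Q * a * Λ := by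
      have h := hsum {0}
      rw [Finset.sum_singleton] at h
      have h' : N 0 ≤ Λ := by simpa using h
      exact mul_le_mul_of_nonneg_left h' (by positivity)
    have b1 : ‖∑ l ∈ Finset.range L,
        (JJ h2 Ω (co h1 (dil (l + 1) φ) (test_dil hφ (l + 1))
          ((∑ i ∈ Finset.range (k + 1), aa h1 (dil l φ) (test_dil hφ l) ^ i *
            aa h1 (dil (l + 1) φ) (test_dil hφ (l + 1)) ^ (k + 1 - 1 - i)) f)) -
        JJ h2 Ω (co h1 (dil l φ) (test_dil hφ l)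
          ((∑ i ∈ Finset.range (k + 1), aa h1 (dil l φ) (test_dil hφ l) ^ i *
            aa h1 (dil (l + 1) φ) (test_dil hφ (l + 1)) ^ (k + 1 - 1 - i)) f)))‖ ≤
        W * b * Λ := by
      refine (norm_sum_le _ _).trans ?_
      have t1 : ∀ l ∈ Finset.range L,
        ‖JJ h2 Ω (co h1 (dil (l + 1) φ) (test_dil hφ (l + 1))
          ((∑ i ∈ Finset.range (k + 1), aa h1 (dil l φ) (test_dil hφ l) ^ i *
            aa h1 (dil (l + 1) φ) (test_dil hφ (l + 1)) ^ (k + 1 - 1 - i)) f)) -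
        JJ h2 Ω (co h1 (dil l φ) (test_dil hφ l)
          ((∑ i ∈ Finset.range (k + 1), aa h1 (dil l φ) (test_dil hφ l) ^ i *
            aa h1 (dil (l + 1) φ) (test_dil hφ (l + 1)) ^ (k + 1 - 1 - i)) f))‖ ≤
        ((k + 1 : ℕ) : ℝ) * (C * b) * ((2 : ℝ) ^ α *
          ((2 : ℝ) ^ (-(α * ((l + 1 : ℕ) : ℝ))) * N (l + 1)) +
            (2 : ℝ) ^ (-(α * (l : ℝ))) * N l) := by
        intro l _
        have hp := (hpos l).le
        have u1 := JJ_co h1 h2 hΩ hφ (l + 1) (hfin (l + 1)) _ _ (by positivity) (hH l)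
        have u2 := JJ_co h1 h2 hΩ hφ l (hfin l) _ _ (by positivity) (hH l)
        have u3 : (2 : ℝ) ^ α * (2 : ℝ) ^ (-(α * ((l + 1 : ℕ) : ℝ))) =
            (2 : ℝ) ^ (-(α * (l : ℝ))) := by
          rw [← Real.rpow_add two_pos]
          congr 1
          push_cast
          ring
        rw [← mul_assoc ((2 : ℝ) ^ α), u3]
        refine (norm_sub_le _ _).trans ((add_le_add u1 u2).trans (le_of_eq ?_))
        simp only [hN]
        ring
      refine (Finset.sum_le_sum t1).trans ?_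
      rw [← Finset.mul_sum, Finset.sum_add_distrib, ← Finset.mul_sum]
      have v1 : ∑ l ∈ Finset.range L, (2 : ℝ) ^ (-(α * ((l + 1 : ℕ) : ℝ))) * N (l + 1) ≤ Λ := by
        have h := hsum (Finset.range (L + 1))
        rw [Finset.sum_range_succ'] at h
        have h0 : (0 : ℝ) ≤ (2 : ℝ) ^ (-(α * ((0 : ℕ) : ℝ))) * N 0 :=
          mul_nonneg (hpos 0).le (hN0 0)
        linarith
      have v2 := hsum (Finset.range L)
      have v3 : (2 : ℝ) ^ α * ∑ l ∈ Finset.range L, (2 : ℝ) ^ (-(α * ((l + 1 : ℕ) : ℝ))) *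
          N (l + 1) + ∑ l ∈ Finset.range L, (2 : ℝ) ^ (-(α * (l : ℝ))) * N l ≤
          ((2 : ℝ) ^ α + 1) * Λ := by
        have := mul_le_mul_of_nonneg_left v1 (Real.rpow_nonneg (by norm_num : (0:ℝ) ≤ 2) α)
        linarith
      refine (mul_le_mul_of_nonneg_left v3 (by positivity)).trans (le_of_eq ?_)
      rw [hW]
      ring
    have s1 : Q * a * Λ + W * b * Λ ≤ (Q + W) * Λ * (a + b) := by
      have p1 : 0 ≤ Q * b * Λ := by positivity
      have p2 : 0 ≤ W * a * Λ := by positivity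
      nlinarith
    linarith [b0, b0', b1, s1]
  have lim := (hR φ f0 (k + 1) Ω hφ hφ1 hf0 (by omega) hΩ).norm
  rw [norm_zero] at lim
  have lim2 := lim.const_add ((Q + W) * Λ * (a + b))
  rw [add_zero] at lim2
  exact ge_of_tendsto' lim2 key

end

end Pool.Agent.R263.DB
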