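import Pool.Agent.R263.DB.Defs

/-! Piece S1 (helper865): mixed differences are controlled by pure ones. -/

set_option autoImplicit false

namespace Pool.Agent.R263.DB

open Finset

namespace S1

/-- the signed vertices of the cube spanned by pairs of vectors -/
noncomputable def cube : List (ℂ × ℂ) → List (ℂ × ℂ × ℂ)
  | [] => [(1, 0, 0)]
  | (b, a) :: l => (cube l).map (fun q => (q.1, q.2.1 + a, q.2.2 + b)) ++
      (cube l).map (fun q => (-q.1, q.2.1, q.2.2))

lemma sum_neg' {ι : Type} (F : ι → ℂ) : ∀ l : List ι, -(l.map F).sum = (l.map (fun q => -F q)).sum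
  | [] => by simp
  | a :: l => by
    simp only [List.map_cons, List.sum_cons]
    rw [neg_add, sum_neg' F l]

lemma cube_sum (f : ℂ → ℂ) (t : ℂ) : ∀ (l : List (ℂ × ℂ)) (x : ℂ),
    ((l.map (fun q => q.1 + t * q.2)).foldr diffOp f) x =
      ((cube l).map (fun q => q.1 * f (x + q.2.2 + t * q.2.1))).sum
  | [], x => by simp [cube]
  | (b, a) :: l, x => by
    simp only [List.map_cons, List.foldr_cons, cube, List.map_append, List.sum_append,
      List.map_map]
    show ((l.map (fun q => q.1 + t * q.2)).foldr diffOp f) (x + (b + t * a)) -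
      ((l.map (fun q => q.1 + t * q.2)).foldr diffOp f) x = _
    rw [cube_sum f t l, cube_sum f t l, sub_eq_add_neg, sum_neg']
    congr 2
    · refine List.map_congr_left fun q _ => ?_
      show q.1 * f (x + (b + t * a) + q.2.2 + t * q.2.1) =
        q.1 * f (x + (q.2.2 + b) + t * (q.2.1 + a))
      congr 2
      ring
    · refine List.map_congr_left fun q _ => ?_
      show -(q.1 * f (x + q.2.2 + t * q.2.1)) = -q.1 * f (x + q.2.2 + t * q.2.1)
      ring

lemma cube_len : ∀ l : List (ℂ × ℂ), (cube l).length = 2 ^ l.length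
  | [] => by simp [cube]
  | (b, a) :: l => by
    simp only [cube, List.length_append, List.length_map, List.length_cons, cube_len l, pow_succ]
    ring

lemma cube_bd : ∀ (l : List (ℂ × ℂ)), ∀ q ∈ cube l,
    ‖q.1‖ = 1 ∧ ‖q.2.1‖ ≤ (l.map (fun q => ‖q.2‖)).sum
  | [], q, hq => by
    simp only [cube, List.mem_singleton] at hq
    subst hq
    simp
  | (b, a) :: l, q, hq => by
    simp only [cube, List.mem_append, List.mem_map] at hq
    simp only [List.map_cons, List.sum_cons]
    rcases hq with ⟨q', hq', rfl⟩ | ⟨q', hq', rfl⟩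
    · obtain ⟨h1, h2⟩ := cube_bd l q' hq'
      refine ⟨h1, ?_⟩
      calc ‖q'.2.1 + a‖ ≤ ‖q'.2.1‖ + ‖a‖ := norm_add_le _ _
        _ ≤ ‖a‖ + (l.map (fun q => ‖q.2‖)).sum := by linarith
    · obtain ⟨h1, h2⟩ := cube_bd l q' hq'
      refine ⟨by rw [norm_neg]; exact h1, ?_⟩
      have := norm_nonneg a
      show ‖q'.2.1‖ ≤ _
      linarith

lemma foldr_zero (f : ℂ → ℂ) : ∀ v : List ℂ, (0 : ℂ) ∈ v → v.foldr diffOp f = fun _ => 0
  | [], h => absurd h List.not_mem_nil
  | c :: v, h => by
    rw [List.foldr_cons]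
    rcases List.mem_cons.mp h with h0 | h1
    · rw [← h0]
      funext x
      show (v.foldr diffOp f) (x + 0) - (v.foldr diffOp f) x = 0
      rw [add_zero, sub_self]
    · rw [foldr_zero f v h1]
      funext x
      show (0 : ℂ) - 0 = 0
      rw [sub_self]

/-- pairs `(h_i, -h_i/i)` -/
noncomputable def prs : ℕ → List ℂ → List (ℂ × ℂ)
  | _, [] => []
  | n, h :: u => (h, -h / ((n : ℂ) + 1)) :: prs (n + 1) u

lemma prs_zero : ∀ (n : ℕ) (u : List ℂ), (prs n u).map (fun q => q.1 + 0 * q.2) = u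
  | _, [] => rfl
  | n, h :: u => by
    simp only [prs, List.map_cons, zero_mul, add_zero]
    have := prs_zero (n + 1) u
    simp only [zero_mul, add_zero] at this
    rw [this]

lemma prs_len : ∀ (n : ℕ) (u : List ℂ), (prs n u).length = u.length
  | _, [] => rfl
  | n, h :: u => by
    simp only [prs, List.length_cons, prs_len (n + 1) u]

lemma prs_mem : ∀ (u : List ℂ) (n j : ℕ), n < j → j ≤ n + u.length →
    (0 : ℂ) ∈ (prs n u).map (fun q => q.1 + (j : ℂ) * q.2)
  | [], n, j, h1, h2 => by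
    simp only [List.length_nil, add_zero] at h2
    omega
  | h :: u, n, j, h1, h2 => by
    simp only [prs, List.map_cons]
    rw [List.length_cons] at h2
    by_cases hj : j = n + 1
    · subst hj
      rw [List.mem_cons]
      left
      have hn : ((n : ℂ) + 1) ≠ 0 := by exact_mod_cast Nat.succ_ne_zero n
      push_cast
      field_simp
      ring
    · rw [List.mem_cons]
      right
      exact prs_mem u (n + 1) j (by omega) (by omega)

lemma prs_bd (r : ℝ) : ∀ (u : List ℂ) (n : ℕ), (∀ x ∈ u, ‖x‖ ≤ r) →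
    ((prs n u).map (fun q => ‖q.2‖)).sum ≤ u.length * r
  | [], _, _ => by simp [prs]
  | h :: u, n, hu => by
    simp only [prs, List.map_cons, List.sum_cons, List.length_cons]
    have h1 := prs_bd r u (n + 1) (fun x hx => hu x (List.mem_cons_of_mem _ hx))
    have h2 : ‖-h / ((n : ℂ) + 1)‖ ≤ r := by
      rw [norm_div, norm_neg]
      have e : ‖(n : ℂ) + 1‖ = (n : ℝ) + 1 := by
        have : (n : ℂ) + 1 = ((n + 1 : ℕ) : ℂ) := by push_cast; ring
        rw [this, Complex.norm_natCast]
        push_cast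
        ring
      rw [e]
      have hn : (1 : ℝ) ≤ (n : ℝ) + 1 := by
        have := Nat.cast_nonneg (α := ℝ) n
        linarith
      exact (div_le_self (norm_nonneg _) hn).trans (hu h List.mem_cons_self)
    push_cast
    linarith

lemma diff_iter (f : ℂ → ℂ) (h : ℂ) (k : ℕ) (y : ℂ) : (diffOp h)^[k] f y =
    ∑ j ∈ Finset.range (k + 1), ((-1 : ℂ) ^ (k - j) * (k.choose j : ℂ)) * f (y + j * h) := by
  have e : (diffOp h)^[k] f y = (fwdDiff h)^[k] f y := rfl
  rw [e, fwdDiff_iter_eq_sum_shift]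
  refine Finset.sum_congr rfl fun j _ => ?_
  rw [zsmul_eq_mul, nsmul_eq_mul]
  push_cast
  ring

lemma list_finset_sum {ι : Type} (s : Finset ℕ) (l : List ι) (F : ℕ → ι → ℂ) :
    ∑ j ∈ s, (l.map (F j)).sum = (l.map (fun q => ∑ j ∈ s, F j q)).sum := by
  induction l with
  | nil => simp
  | cons a l ih =>
    simp only [List.map_cons, List.sum_cons]
    rw [Finset.sum_add_distrib, ih]

lemma list_bd {ι : Type} (l : List ι) (F : ι → ℂ) (b : ℝ) (h : ∀ q ∈ l, ‖F q‖ ≤ b) :
    ‖(l.map F).sum‖ ≤ l.length * b := by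
  induction l with
  | nil => simp
  | cons a l ih =>
    simp only [List.map_cons, List.sum_cons, List.length_cons]
    have h1 := ih (fun q hq => h q (List.mem_cons_of_mem _ hq))
    have h2 := h a List.mem_cons_self
    have h3 := norm_add_le (F a) (l.map F).sum
    push_cast
    linarith

/-- Kemperman's identity -/
lemma kemp (f : ℂ → ℂ) (u : List ℂ) (x : ℂ) :
    (-1 : ℂ) ^ u.length * (u.foldr diffOp f) x =
      ((cube (prs 0 u)).map (fun q => q.1 * (diffOp q.2.1)^[u.length] f (x + q.2.2))).sum := by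
  have h1 : ∀ q ∈ cube (prs 0 u), q.1 * (diffOp q.2.1)^[u.length] f (x + q.2.2) =
      ∑ j ∈ Finset.range (u.length + 1), ((-1 : ℂ) ^ (u.length - j) * (u.length.choose j : ℂ)) *
        (q.1 * f (x + q.2.2 + (j : ℂ) * q.2.1)) := by
    intro q _
    rw [diff_iter, Finset.mul_sum]
    refine Finset.sum_congr rfl fun j _ => ?_
    ring
  rw [List.map_congr_left h1, ← list_finset_sum]
  have h2 : ∀ j ∈ Finset.range (u.length + 1),
      ((cube (prs 0 u)).map (fun q => ((-1 : ℂ) ^ (u.length - j) * (u.length.choose j : ℂ)) *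
        (q.1 * f (x + q.2.2 + (j : ℂ) * q.2.1)))).sum =
      ((-1 : ℂ) ^ (u.length - j) * (u.length.choose j : ℂ)) *
        (((prs 0 u).map (fun q => q.1 + (j : ℂ) * q.2)).foldr diffOp f) x := by
    intro j _
    rw [cube_sum f (j : ℂ) (prs 0 u) x, List.sum_map_mul_left]
  rw [Finset.sum_congr rfl h2, Finset.sum_eq_single 0]
  · rw [Nat.cast_zero, prs_zero, Nat.sub_zero, Nat.choose_zero_right, Nat.cast_one, mul_one]
  · intro j hj hj0
    rw [foldr_zero f _ (prs_mem u 0 j (by omega) (by
      have := Finset.mem_range.mp hj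
      omega)), mul_zero]
  · intro h
    exact absurd (Finset.mem_range.mpr (Nat.succ_pos _)) h

end S1

open S1 in
theorem stmtS1 : StmtS1 := by
  intro α k hα
  refine ⟨2 ^ k * (k : ℝ) ^ α, by positivity, ?_⟩
  intro f b r hb hr hf u hu hur z
  have h1 := kemp f u z
  have h2 : ‖(u.foldr diffOp f) z‖ = ‖(-1 : ℂ) ^ u.length * (u.foldr diffOp f) z‖ := by
    rw [norm_mul, norm_pow, norm_neg, norm_one, one_pow, one_mul]
  rw [h2, h1]
  refine (list_bd _ _ (b * ((k : ℝ) * r) ^ α) ?_).trans ?_
  · intro q hq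
    obtain ⟨h3, h4⟩ := cube_bd (prs 0 u) q hq
    have h5 := h4.trans (prs_bd r u 0 hur)
    rw [hu] at h5
    rw [norm_mul, h3, one_mul, hu]
    refine (hf _ _).trans ?_
    exact mul_le_mul_of_nonneg_left (Real.rpow_le_rpow (norm_nonneg _) h5 hα.le) hb
  · rw [cube_len, prs_len, hu, Real.mul_rpow (Nat.cast_nonneg _) hr]
    apply le_of_eq
    push_cast
    ring

end Pool.Agent.R263.DB
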