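import Mathlib
import Pool.Agent.R263.DB.Defs

/-! DB-S2: bound for products of `k` averaging-error operators (helper888). -/

open MeasureTheory Complex Filter Topology
open scoped ContDiff ENNReal NNReal

namespace Pool.Agent.R263.DB

namespace S2

lemma foldr_cons_apply (x : ℂ) (u : List ℂ) (G : ℂ → ℂ) (z : ℂ) :
    ((x :: u).foldr diffOp G) z = (u.foldr diffOp G) (z + x) - (u.foldr diffOp G) z := rfl

lemma cont_foldr {g : ℂ → ℂ} (hg : Continuous g) (u : List ℂ) :
    ∀ z, Continuous (fun a => u.foldr diffOp (diffOp a g) z) := by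
  induction u with
  | nil =>
    intro z
    show Continuous (fun a => g (z + a) - g z)
    fun_prop
  | cons x u ih =>
    intro z
    simp only [foldr_cons_apply]
    exact (ih (z + x)).sub (ih z)

lemma foldr_Aop {ψ g : ℂ → ℂ} (hψ : Continuous ψ) (hc : HasCompactSupport ψ) (h1 : ∫ z, ψ z = 1)
    (hg : Continuous g) (u : List ℂ) :
    ∀ z, (u.foldr diffOp (Aop ψ g)) z = - ∫ a, ψ a * u.foldr diffOp (diffOp a g) z := by
  have hint : ∀ u : List ℂ, ∀ z, Integrable (fun a => ψ a * u.foldr diffOp (diffOp a g) z) := by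
    intro u z
    exact (hψ.mul (cont_foldr hg u z)).integrable_of_hasCompactSupport hc.mul_right
  induction u with
  | nil =>
    intro z
    show g z - corr ψ g z = - ∫ a, ψ a * (g (z + a) - g z)
    have e1 : corr ψ g z = ∫ a, ψ a * g (z + a) := by
      unfold corr
      rw [← integral_add_left_eq_self (fun w => ψ (w - z) * g w) z]
      simp
    have i1 : Integrable (fun a => ψ a * g (z + a)) :=
      (hψ.mul (hg.comp (continuous_const.add continuous_id))).integrable_of_hasCompactSupport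
        hc.mul_right
    have i2 : Integrable (fun a => ψ a * g z) :=
      (hψ.mul continuous_const).integrable_of_hasCompactSupport hc.mul_right
    have e2 : ∫ a, ψ a * (g (z + a) - g z) = (∫ a, ψ a * g (z + a)) - g z := by
      simp_rw [mul_sub]
      rw [integral_sub i1 i2, integral_mul_const, h1, one_mul]
    rw [e1, e2]
    ring
  | cons x u ih =>
    intro z
    rw [foldr_cons_apply, ih, ih]
    simp only [foldr_cons_apply]
    have e2 : ∫ a, ψ a * (u.foldr diffOp (diffOp a g) (z + x) - u.foldr diffOp (diffOp a g) z)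
        = (∫ a, ψ a * u.foldr diffOp (diffOp a g) (z + x))
          - ∫ a, ψ a * u.foldr diffOp (diffOp a g) z := by
      simp_rw [mul_sub]
      rw [integral_sub (hint u _) (hint u _)]
    rw [e2]
    ring

/-- one step -/
lemma step {ψ g : ℂ → ℂ} {r B K : ℝ} {m : ℕ} (hψ : Continuous ψ) (hc : HasCompactSupport ψ)
    (h1 : ∫ z, ψ z = 1) (hB : ∫ z, ‖ψ z‖ ≤ B) (hr : ∀ a, r < ‖a‖ → ψ a = 0) (hK : 0 ≤ K)
    (hg : Continuous g)
    (h : ∀ u : List ℂ, u.length = m + 1 → (∀ x ∈ u, ‖x‖ ≤ r) → ∀ z, ‖(u.foldr diffOp g) z‖ ≤ K) :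
    ∀ u : List ℂ, u.length = m → (∀ x ∈ u, ‖x‖ ≤ r) →
      ∀ z, ‖(u.foldr diffOp (Aop ψ g)) z‖ ≤ B * K := by
  intro u hu hur z
  rw [foldr_Aop hψ hc h1 hg, norm_neg]
  have i1 : Integrable (fun a => ‖ψ a‖ * K) :=
    ((hψ.norm).integrable_of_hasCompactSupport hc.norm).mul_const K
  calc ‖∫ a, ψ a * u.foldr diffOp (diffOp a g) z‖ ≤ ∫ a, ‖ψ a‖ * K := by
        apply norm_integral_le_of_norm_le i1
        refine Eventually.of_forall (fun a => ?_)
        rw [norm_mul]
        rcases le_or_gt ‖a‖ r with ha | ha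
        · apply mul_le_mul_of_nonneg_left _ (norm_nonneg _)
          have h2 := h (u ++ [a]) (by simp [hu]) (by
            intro x hx
            rcases List.mem_append.1 hx with hx | hx
            · exact hur x hx
            · rw [List.mem_singleton.1 hx]; exact ha) z
          rw [List.foldr_append] at h2
          exact h2
        · rw [hr a ha]; simp
    _ = (∫ a, ‖ψ a‖) * K := integral_mul_const _ _
    _ ≤ B * K := mul_le_mul_of_nonneg_right hB hK

lemma iter_steps {ψ : ℂ → ℂ} {r B : ℝ} (hψ : Continuous ψ) (hc : HasCompactSupport ψ)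
    (h1 : ∫ z, ψ z = 1) (hB0 : 0 ≤ B) (hB : ∫ z, ‖ψ z‖ ≤ B) (hr : ∀ a, r < ‖a‖ → ψ a = 0)
    (P : (ℂ → ℂ) → Prop) (hP : ∀ g, P g → Continuous g) (hPA : ∀ g, P g → P (Aop ψ g)) (j : ℕ) :
    ∀ (g : ℂ → ℂ) (K : ℝ) (m : ℕ), 0 ≤ K → P g →
    (∀ u : List ℂ, u.length = m + j → (∀ x ∈ u, ‖x‖ ≤ r) → ∀ z, ‖(u.foldr diffOp g) z‖ ≤ K) →
    P ((Aop ψ)^[j] g) ∧ ∀ u : List ℂ, u.length = m → (∀ x ∈ u, ‖x‖ ≤ r) →
      ∀ z, ‖(u.foldr diffOp ((Aop ψ)^[j] g)) z‖ ≤ B ^ j * K := by
  induction j with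
  | zero =>
    intro g K m hK hPg h
    refine ⟨hPg, ?_⟩
    simpa using h
  | succ j ih =>
    intro g K m hK hPg h
    have h2 := ih (Aop ψ g) (B * K) m (mul_nonneg hB0 hK) (hPA g hPg)
      (step hψ hc h1 hB hr hK (hP g hPg) (by simpa [add_assoc] using h))
    rw [Function.iterate_succ_apply]
    refine ⟨h2.1, ?_⟩
    intro u hu hur z
    refine (h2.2 u hu hur z).trans (le_of_eq ?_)
    ring

lemma pow_smul_eq (j : ℕ) (z : ℂ) : (2 : ℂ) ^ j * z = ((2 : ℝ) ^ j) • z := by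
  rw [Complex.real_smul]; push_cast; rfl

lemma integral_dil (j : ℕ) (φ : ℂ → ℂ) : ∫ z, dil j φ z = ∫ z, φ z := by
  unfold dil
  rw [integral_const_mul]
  simp_rw [pow_smul_eq]
  rw [Measure.integral_comp_smul volume φ ((2:ℝ) ^ j), Complex.finrank_real_complex, abs_of_pos
    (by positivity), Complex.real_smul]
  rw [← mul_assoc]
  have : (4 : ℂ) ^ j * (((((2:ℝ) ^ j) ^ 2)⁻¹ : ℝ) : ℂ) = 1 := by
    push_cast
    rw [← pow_mul, mul_comm j 2, pow_mul]
    norm_num
  rw [this, one_mul]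

lemma integral_norm_dil (j : ℕ) (φ : ℂ → ℂ) : ∫ z, ‖dil j φ z‖ = ∫ z, ‖φ z‖ := by
  unfold dil
  simp_rw [norm_mul, norm_pow, Complex.norm_ofNat]
  rw [integral_const_mul]
  simp_rw [pow_smul_eq]
  rw [Measure.integral_comp_smul volume (fun z => ‖φ z‖) ((2:ℝ) ^ j),
    Complex.finrank_real_complex, abs_of_pos (by positivity), smul_eq_mul]
  rw [← mul_assoc]
  have : (4 : ℝ) ^ j * (((2:ℝ) ^ j) ^ 2)⁻¹ = 1 := by
    rw [← pow_mul, mul_comm j 2, pow_mul]
    norm_num
  rw [this, one_mul]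

lemma isTest_dil {φ : ℂ → ℂ} (h : IsTest φ) (j : ℕ) : IsTest (dil j φ) := by
  refine ⟨?_, ?_⟩
  · unfold dil
    exact contDiff_const.mul (h.1.comp (contDiff_const.mul contDiff_id))
  · unfold dil
    apply HasCompactSupport.mul_left
    have h2 : (fun z : ℂ => φ ((2 : ℂ) ^ j * z)) = fun z => φ (((2 : ℝ) ^ j) • z) := by
      funext z; rw [pow_smul_eq]
    rw [h2]
    exact h.2.comp_smul (by positivity)

end S2

open S2 in
theorem stmtS2 (h1 : StmtS1) (hC1 : StmtC1) : StmtS2 := by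
  intro α k φ hα hφ hφ1
  obtain ⟨C, hC, hS1⟩ := h1 α k hα
  obtain ⟨R, hR0, hR⟩ : ∃ R : ℝ, 0 < R ∧ ∀ a, R < ‖a‖ → φ a = 0 := by
    obtain ⟨R, hR0, hR⟩ := hφ.2.isCompact.isBounded.subset_closedBall_lt 0 0
    refine ⟨R, hR0, ?_⟩
    intro a ha
    by_contra hne
    have h2 := hR (subset_tsupport _ (Function.mem_support.2 hne))
    rw [mem_closedBall_zero_iff] at h2
    linarith
  set B := ∫ z, ‖φ z‖ with hBdef
  have hB0 : 0 ≤ B := integral_nonneg (fun z => norm_nonneg _)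
  refine ⟨B ^ k * C * R ^ α, by positivity, ?_⟩
  intro f b hb hf hfb l i hik z
  set r : ℝ := R * ((2:ℝ) ^ l)⁻¹ with hr
  have hr0 : 0 ≤ r := by positivity
  have hsup : ∀ j, l ≤ j → ∀ a, r < ‖a‖ → dil j φ a = 0 := by
    intro j hj a ha
    have h2 : R < ‖(2:ℂ) ^ j * a‖ := by
      rw [norm_mul, norm_pow, Complex.norm_ofNat]
      have h3 : (2:ℝ) ^ l ≤ 2 ^ j := pow_le_pow_right₀ (by norm_num) hj
      have h4 : R = 2 ^ l * r := by
        rw [hr]; field_simp
      calc R = 2 ^ l * r := h4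
        _ < 2 ^ l * ‖a‖ := mul_lt_mul_of_pos_left ha (by positivity)
        _ ≤ 2 ^ j * ‖a‖ := mul_le_mul_of_nonneg_right h3 (norm_nonneg _)
    unfold dil
    rw [hR _ h2, mul_zero]
  have hPA : ∀ j g, IsTest g → IsTest (Aop (dil j φ) g) := by
    intro j g hg
    obtain ⟨Bg, hBg⟩ := hg.2.exists_bound_of_continuous hg.1.continuous
    have h2 := (hC1 (dil j φ) g Bg (isTest_dil hφ j) hg.1.continuous.measurable hg.2 hBg).1
    exact ⟨hg.1.sub h2.1, hg.2.sub h2.2⟩
  have hK : 0 ≤ C * b * r ^ α := by positivity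
  obtain ⟨hT, s1⟩ := iter_steps (ψ := dil (l + 1) φ) (r := r) (B := B)
    (isTest_dil hφ _).1.continuous (isTest_dil hφ _).2 (by rw [integral_dil]; exact hφ1) hB0
    (integral_norm_dil _ _).le (hsup _ (by omega)) IsTest (fun g hg => hg.1.continuous)
    (hPA (l + 1)) (k - i) f (C * b * r ^ α) i hK hf (by
      intro u hu hur z
      exact hS1 f b r hb hr0 hfb u (by omega) hur z)
  obtain ⟨-, s2⟩ := iter_steps (ψ := dil l φ) (r := r) (B := B)
    (isTest_dil hφ _).1.continuous (isTest_dil hφ _).2 (by rw [integral_dil]; exact hφ1) hB0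
    (integral_norm_dil _ _).le (hsup _ le_rfl) IsTest (fun g hg => hg.1.continuous)
    (hPA l) i ((Aop (dil (l + 1) φ))^[k - i] f) (B ^ (k - i) * (C * b * r ^ α)) 0
    (by positivity) hT (by simpa using s1)
  have s3 := s2 [] rfl (by simp) z
  refine s3.trans (le_of_eq ?_)
  have e1 : r ^ α = R ^ α * (2:ℝ) ^ (-(α * (l:ℝ))) := by
    rw [hr, Real.mul_rpow hR0.le (by positivity), ← Real.rpow_natCast, ← Real.rpow_neg (by norm_num),
      ← Real.rpow_mul (by norm_num)]
    congr 2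
    ring
  have e2 : B ^ i * B ^ (k - i) = B ^ k := by rw [← pow_add]; congr 1; omega
  rw [e1, ← e2]
  ring

end Pool.Agent.R263.DB
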